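import Pool.Agent.Lib.MP_ef6aaf_al.StmA

open MeasureTheory Metric
open scoped Matrix.Norms.L2Operator

namespace Pool.Agent.Lib.MP_ef6aaf_al

private lemma p_GC_cont (n : ℕ) (w : FreeGroup (Fin 2)) :
    Continuous fun q : Fin 2 → U n => FreeGroup.lift q w := by
  induction w using FreeGroup.induction_on with
  | C1 => simpa using continuous_const
  | of i => simpa using continuous_apply i
  | inv_of i h => simp only [map_inv]; exact Continuous.inv h
  | mul a b ha hb => simp only [map_mul]; exact Continuous.mul ha hb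

theorem p_GC (h_exmu : S_exmu) (h_up : S_up) (h_core : S_core) (h_linalg : S_linalg) (h_theta : S_theta) :
    S_GC := by
  intro n w f e hn hw he hf hev
  by_contra hcon
  push Not at hcon
  obtain ⟨Θ, hΘ, hΘr, hΘk⟩ := h_theta n w f e hn he hf hev
  obtain ⟨d, k, L1, L2, h1, h2, hL2, hinj⟩ := h_linalg (Hn n × ℝ) (Fin 2 → Hn n) Θ (kerW f w) hΘr
  have hV : Module.finrank ℝ (Hn n × ℝ) = D n + 1 := by
    rw [Module.finrank_prod, Module.finrank_self]; rfl
  rw [hV, hΘk] at h1
  have hdk : 4 * D n + 1 ≤ 2 * d + k + 2 * D n := by omega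
  refine h_exmu n False ?_
  intro _ _ μ _ _
  obtain ⟨c, C, s₀, hc, hC, hs₀, hcore⟩ := h_core n μ w f e d k L1 L2 hf hev hL2 (by
    intro ξ η h
    refine hinj ξ η ?_
    funext i
    rw [Pi.add_apply, hΘ]
    exact h i)
  obtain ⟨C', hC', hup⟩ := h_up n μ
  -- for all small s: c s^(4D) ≤ s^(2d+k) C' (C s²)^D
  have key : ∀ s : ℝ, 0 < s → s ≤ s₀ → c * s ^ (4 * D n) ≤ s ^ (2 * d + k) * (C' * (C * s ^ 2) ^ D n) := by
    intro s hs hs'
    have h3 := hcore s hs hs'
    have h4 : (Measure.pi fun _ : Fin 2 => μ) (Near w f e (C * s ^ 2)) ≤ ENNReal.ofReal (C' * (C * s ^ 2) ^ D n) := by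
      have h5 := hup (C * s ^ 2) (by positivity)
      refine le_trans ?_ h5
      have h6 := hw μ
      have h7 : μ (closedBall 1 (C * s ^ 2)) =
          (Measure.pi fun _ : Fin 2 => μ) ((fun q : Fin 2 → U n => FreeGroup.lift q w) ⁻¹' closedBall 1 (C * s ^ 2)) := by
        conv_lhs => rw [← h6]
        rw [Measure.map_apply (p_GC_cont n w).measurable measurableSet_closedBall]
      rw [h7]
      refine measure_mono ?_
      intro q hq
      rw [Set.mem_preimage, mem_closedBall, Subtype.dist_eq, dist_eq_norm]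
      exact hq.1
    have h8 : ENNReal.ofReal (c * s ^ (4 * D n)) ≤ ENNReal.ofReal (s ^ (2 * d + k) * (C' * (C * s ^ 2) ^ D n)) := by
      rw [ENNReal.ofReal_mul (p := s ^ (2 * d + k)) (by positivity)]
      exact h3.trans (mul_le_mul_right h4 _)
    exact (ENNReal.ofReal_le_ofReal_iff (by positivity)).mp h8
  -- take s small
  set M : ℝ := C' * C ^ D n with hM
  have hMpos : 0 < M := by positivity
  set s : ℝ := min (min s₀ 1) (c / (2 * M)) with hs
  have hspos : 0 < s := by
    refine lt_min (lt_min hs₀ one_pos) (by positivity)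
  have hs1 : s ≤ 1 := (min_le_left _ _).trans (min_le_right _ _)
  have hs0 : s ≤ s₀ := (min_le_left _ _).trans (min_le_left _ _)
  have hsM : s ≤ c / (2 * M) := min_le_right _ _
  have h9 := key s hspos hs0
  have h10 : s ^ (2 * d + k) * (C' * (C * s ^ 2) ^ D n) = M * s ^ (2 * d + k + 2 * D n) := by
    rw [hM, mul_pow, ← pow_mul, pow_add]; ring
  rw [h10] at h9
  have h11 : s ^ (2 * d + k + 2 * D n) ≤ s ^ (4 * D n + 1) := pow_le_pow_of_le_one hspos.le hs1 hdk
  have h12 : c * s ^ (4 * D n) ≤ M * (s ^ (4 * D n) * s) := by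
    refine h9.trans ?_
    rw [← pow_succ]
    exact mul_le_mul_of_nonneg_left h11 hMpos.le
  have h13 : 0 < s ^ (4 * D n) := by positivity
  have h14 : c ≤ M * s := by
    have : c * s ^ (4 * D n) ≤ (M * s) * s ^ (4 * D n) := by linarith [h12, mul_assoc M s (s ^ (4 * D n)), mul_comm s (s ^ (4 * D n))]
    exact le_of_mul_le_mul_right this h13
  have h15 : M * s ≤ c / 2 := by
    calc M * s ≤ M * (c / (2 * M)) := by gcongr
      _ = c / 2 := by field_simp
  linarith

end Pool.Agent.Lib.MP_ef6aaf_al
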