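import Pool.Agent.Lib.MP_ef6aaf_al.StmA

/-! [antilip] A strictly differentiable map with injective derivative is antilipschitz near the point. -/

open MeasureTheory Metric
open scoped Matrix.Norms.L2Operator

namespace Pool.Agent.Lib.MP_ef6aaf_al

theorem p_antilip : S_antilip := by
  intro E F _ _ _ _ _ Φ Φ' hΦ hinj
  have hker : LinearMap.ker (Φ' : E →ₗ[ℝ] F) = ⊥ := by
    rw [LinearMap.ker_eq_bot']
    exact fun v hv => hinj v hv
  obtain ⟨K, hK0, hK⟩ := LinearMap.exists_antilipschitzWith (Φ' : E →ₗ[ℝ] F) hker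
  have hKr : (0 : ℝ) < K := by exact_mod_cast hK0
  have hb : ∀ v : E, ‖v‖ ≤ K * ‖Φ' v‖ := by
    intro v
    have h := hK.le_mul_dist v 0
    simpa [dist_zero_right] using h
  have ho := hΦ.isLittleO
  have hc : (0 : ℝ) < 1 / (2 * K) := by positivity
  have h1 := ho.def hc
  rw [Metric.eventually_nhds_iff] at h1
  obtain ⟨ε, hε, h2⟩ := h1
  refine ⟨2 * K, ε / 2, by positivity, by positivity, ?_⟩
  intro x y hx hy
  have hd : dist ((x, y) : E × E) (0, 0) < ε := by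
    rw [Prod.dist_eq, max_lt_iff]
    constructor
    · simp only [dist_zero_right]
      linarith
    · simp only [dist_zero_right]
      linarith
  have h3 := h2 hd
  simp only at h3
  have h4 := hb (x - y)
  have h5 : ‖Φ' (x - y)‖ ≤ ‖Φ x - Φ y‖ + ‖Φ x - Φ y - Φ' (x - y)‖ := by
    have : Φ' (x - y) = (Φ x - Φ y) - (Φ x - Φ y - Φ' (x - y)) := by abel
    calc ‖Φ' (x - y)‖ = ‖(Φ x - Φ y) - (Φ x - Φ y - Φ' (x - y))‖ := by rw [← this]
      _ ≤ _ := norm_sub_le _ _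
  have h6 : (K : ℝ) * (1 / (2 * K) * ‖x - y‖) = ‖x - y‖ / 2 := by
    field_simp
  have h7 : ‖x - y‖ ≤ K * ‖Φ x - Φ y‖ + ‖x - y‖ / 2 := by
    calc ‖x - y‖ ≤ K * ‖Φ' (x - y)‖ := h4
      _ ≤ K * (‖Φ x - Φ y‖ + 1 / (2 * K) * ‖x - y‖) :=
          mul_le_mul_of_nonneg_left (h5.trans (add_le_add le_rfl h3)) hKr.le
      _ = _ := by rw [mul_add, h6]
  linarith

end Pool.Agent.Lib.MP_ef6aaf_al
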