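import Pool.Agent.Lib.MP_ef6aaf_al.StmB

/-! Words inducing Haar measure on unitary groups, piece b1. -/

open MeasureTheory Metric Matrix
open scoped Matrix.Norms.L2Operator

namespace Pool.Agent.Lib.MP_ef6aaf_al

private theorem p_b1_ev_mul (e : Fin 2 → ℤ) (g h : FreeGroup (Fin 2)) :
    ev e (g * h) = ev e g + ev e h := by
  unfold ev
  rw [map_mul, toAdd_mul]

private theorem p_b1_ev_inv (e : Fin 2 → ℤ) (g : FreeGroup (Fin 2)) :
    ev e g⁻¹ = - ev e g := by
  unfold ev
  rw [map_inv, toAdd_inv]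

private theorem p_b1_ev_of (e : Fin 2 → ℤ) (i : Fin 2) : ev e (FreeGroup.of i) = e i := by
  unfold ev
  rw [FreeGroup.lift_apply_of, toAdd_ofAdd]

private theorem p_b1_ev_one (e : Fin 2 → ℤ) : ev e 1 = 0 := by
  unfold ev
  rw [map_one, toAdd_one]

private theorem p_b1_form (w : FreeGroup (Fin 2)) (φ : Additive (G w) →+ ℝ)
    (g : FreeGroup (Fin 2)) :
    φ (Additive.ofMul (QuotientGroup.mk g : G w)) =
      φ (Additive.ofMul (QuotientGroup.mk (FreeGroup.of 0) : G w)) * (e0 g : ℝ) +
      φ (Additive.ofMul (QuotientGroup.mk (FreeGroup.of 1) : G w)) * (e1 g : ℝ) := by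
  have hof : ∀ i : Fin 2, φ (Additive.ofMul (QuotientGroup.mk (FreeGroup.of i) : G w)) =
      φ (Additive.ofMul (QuotientGroup.mk (FreeGroup.of 0) : G w)) *
        (e0 (FreeGroup.of i) : ℝ) +
      φ (Additive.ofMul (QuotientGroup.mk (FreeGroup.of 1) : G w)) *
        (e1 (FreeGroup.of i) : ℝ) := by
    intro i
    unfold e0 e1
    rw [p_b1_ev_of, p_b1_ev_of]
    fin_cases i <;> simp
  induction g using FreeGroup.induction_on with
  | C1 =>
    have h1 : (Additive.ofMul (QuotientGroup.mk (1 : FreeGroup (Fin 2)) : G w)) = 0 := rfl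
    rw [h1, map_zero]
    unfold e0 e1
    rw [p_b1_ev_one, p_b1_ev_one]
    simp
  | of i => exact hof i
  | inv_of i _ =>
    have h1 : (Additive.ofMul (QuotientGroup.mk ((FreeGroup.of i)⁻¹) : G w)) =
        - Additive.ofMul (QuotientGroup.mk (FreeGroup.of i) : G w) := rfl
    rw [h1, map_neg, hof i]
    unfold e0 e1
    rw [p_b1_ev_inv, p_b1_ev_inv]
    push_cast
    ring
  | mul g h hg hh =>
    have h1 : (Additive.ofMul (QuotientGroup.mk (g * h) : G w)) =
        Additive.ofMul (QuotientGroup.mk g : G w) +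
          Additive.ofMul (QuotientGroup.mk h : G w) := rfl
    rw [h1, map_add, hg, hh]
    unfold e0 e1
    rw [p_b1_ev_mul, p_b1_ev_mul]
    push_cast
    ring

theorem p_b1 : S_b1 := by
  intro w hw
  rw [rank_le_one_iff]
  by_cases hall : ∀ φ : Additive (G w) →+ ℝ, φ = 0
  · exact ⟨0, fun v => ⟨0, by rw [hall v, smul_zero]⟩⟩
  push_neg at hall
  obtain ⟨φ, hφ⟩ := hall
  refine ⟨φ, fun ψ => ?_⟩
  have hzero : ∀ χ : Additive (G w) →+ ℝ,
      χ (Additive.ofMul (QuotientGroup.mk (FreeGroup.of 0) : G w)) * (e0 w : ℝ) +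
      χ (Additive.ofMul (QuotientGroup.mk (FreeGroup.of 1) : G w)) * (e1 w : ℝ) = 0 := by
    intro χ
    rw [← p_b1_form w χ w]
    have h1 : (QuotientGroup.mk w : G w) = 1 :=
      (QuotientGroup.eq_one_iff w).2 (Subgroup.subset_normalClosure (Set.mem_singleton w))
    rw [h1]
    exact map_zero χ
  have hext : ∀ χ χ' : Additive (G w) →+ ℝ,
      χ (Additive.ofMul (QuotientGroup.mk (FreeGroup.of 0) : G w)) =
        χ' (Additive.ofMul (QuotientGroup.mk (FreeGroup.of 0) : G w)) →
      χ (Additive.ofMul (QuotientGroup.mk (FreeGroup.of 1) : G w)) =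
        χ' (Additive.ofMul (QuotientGroup.mk (FreeGroup.of 1) : G w)) → χ = χ' := by
    intro χ χ' h0 h1
    refine AddMonoidHom.ext (fun a => ?_)
    obtain ⟨g, hg⟩ := QuotientGroup.mk_surjective (Additive.toMul a)
    have ha : a = Additive.ofMul (QuotientGroup.mk g : G w) := by
      rw [hg]; rfl
    rw [ha, p_b1_form w χ g, p_b1_form w χ' g, h0, h1]
  have hφ0 := hzero φ
  have hψ0 := hzero ψ
  set p := φ (Additive.ofMul (QuotientGroup.mk (FreeGroup.of 0) : G w)) with hp
  set q := φ (Additive.ofMul (QuotientGroup.mk (FreeGroup.of 1) : G w)) with hq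
  set r := ψ (Additive.ofMul (QuotientGroup.mk (FreeGroup.of 0) : G w)) with hr
  set s := ψ (Additive.ofMul (QuotientGroup.mk (FreeGroup.of 1) : G w)) with hs
  have hdet : p * s = q * r := by
    by_cases ha : (e0 w : ℝ) = 0
    · have hb : (e1 w : ℝ) ≠ 0 := by
        intro hb
        exact hw ⟨by exact_mod_cast ha, by exact_mod_cast hb⟩
      rw [ha, mul_zero, zero_add] at hφ0 hψ0
      have hq0 : q = 0 := (mul_eq_zero.1 hφ0).resolve_right hb
      have hs0 : s = 0 := (mul_eq_zero.1 hψ0).resolve_right hb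
      rw [hq0, hs0]
      ring
    · have h1 : (p * s - q * r) * (e0 w : ℝ) = 0 := by
        linear_combination s * hφ0 - q * hψ0
      have h2 := (mul_eq_zero.1 h1).resolve_right ha
      linarith
  by_cases hp0 : p = 0
  · have hq0 : q ≠ 0 := by
      intro hq0
      apply hφ
      apply hext
      · exact hp0
      · exact hq0
    have hr0 : r = 0 := by
      rw [hp0, zero_mul] at hdet
      exact (mul_eq_zero.1 hdet.symm).resolve_left hq0
    refine ⟨s / q, hext _ _ ?_ ?_⟩
    · show (s / q) * p = r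
      rw [hp0, hr0, mul_zero]
    · show (s / q) * q = s
      field_simp
  · refine ⟨r / p, hext _ _ ?_ ?_⟩
    · show (r / p) * p = r
      field_simp
    · show (r / p) * q = s
      field_simp
      linarith

end Pool.Agent.Lib.MP_ef6aaf_al
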