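import Pool.Agent.Lib.MP_ef6aaf_al.StmB

/-! Words inducing Haar measure on unitary groups, piece blkcoc. -/

open MeasureTheory Metric Matrix
open scoped Matrix.Norms.L2Operator

namespace Pool.Agent.Lib.MP_ef6aaf_al

private theorem p_blkcoc_cj {n : ℕ} (g : U n) (a : Hn n) :
    ((cj g a : Hn n) : Mn n) = (g : Mn n) * a * star (g : Mn n) := rfl

private theorem p_blkcoc_cj_mul {n : ℕ} (g h : U n) (a : Hn n) :
    cj (g * h) a = cj g (cj h a) := by
  apply Subtype.ext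
  rw [p_blkcoc_cj, p_blkcoc_cj, p_blkcoc_cj]
  have h1 : ((g * h : U n) : Mn n) = (g : Mn n) * (h : Mn n) := rfl
  rw [h1, star_mul]
  simp only [mul_assoc]

private theorem p_blkcoc_cj_one {n : ℕ} (g : U n) : cj g (1 : Hn n) = 1 := by
  apply Subtype.ext
  rw [p_blkcoc_cj]
  have h1 : ((1 : Hn n) : Mn n) = 1 := rfl
  rw [h1, mul_one]
  exact g.2.2

theorem p_blkcoc (h_blkmul : S_blkmul) (h_evmul : S_evmul) : S_blkcoc := by
  intro m ρ f e v hf hv B t τ z
  have bmul : ∀ (α α' : ℂ) (r r' b b' : Fin m → ℂ) (M M' : Mn m),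
      blk α r b M * blk α' r' b' M' = blk (α * α' + r ⬝ᵥ b') (α • r' + Matrix.vecMul r M')
        (α' • b + M.mulVec b') (Matrix.vecMulVec b r' + M * M') := fun α α' r r' b b' M M' =>
    (h_blkmul m α α' r r' b b' M M').1
  have bstar : ∀ (α : ℂ) (r b : Fin m → ℂ) (M : Mn m),
      star (blk α r b M) = blk (star α) (star b) (star r) (star M) := fun α r b M =>
    (h_blkmul m α α r r b b M M).2.1
  have badd : ∀ (α α' : ℂ) (r r' b b' : Fin m → ℂ) (M M' : Mn m),
      blk α r b M + blk α' r' b' M' = blk (α + α') (r + r') (b + b') (M + M') :=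
    fun α α' r r' b b' M M' => (h_blkmul m α α' r r' b b' M M').2.2.1
  have hEsa : IsSelfAdjoint (blk 0 0 0 1 : Mn (m + 1)) := by
    rw [IsSelfAdjoint, bstar]
    simp
  have hNsa : ∀ u : Fin m → ℂ, IsSelfAdjoint (blk 0 (star u) u 0 : Mn (m + 1)) := by
    intro u
    rw [IsSelfAdjoint, bstar]
    simp
  let E : Hn (m + 1) := ⟨blk 0 0 0 1, hEsa⟩
  let N : (Fin m → ℂ) → Hn (m + 1) := fun u => ⟨blk 0 (star u) u 0, hNsa u⟩
  have hcE : ∀ g, cj (FreeGroup.lift f g) E = E := by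
    intro g
    apply Subtype.ext
    rw [p_blkcoc_cj, hf g]
    show blk 1 0 0 (ρ g : Mn m) * blk 0 0 0 1 * star (blk 1 0 0 (ρ g : Mn m)) = blk 0 0 0 1
    rw [bstar, bmul, bmul]
    have h1 : (ρ g : Mn m) * star (ρ g : Mn m) = 1 := (ρ g).2.2
    simp [h1]
  have hcN : ∀ g u, cj (FreeGroup.lift f g) (N u) = N ((ρ g : Mn m).mulVec u) := by
    intro g u
    apply Subtype.ext
    rw [p_blkcoc_cj, hf g]
    show blk 1 0 0 (ρ g : Mn m) * blk 0 (star u) u 0 * star (blk 1 0 0 (ρ g : Mn m)) =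
      blk 0 (star ((ρ g : Mn m).mulVec u)) ((ρ g : Mn m).mulVec u) 0
    rw [bstar, bmul, bmul, Matrix.star_mulVec, ← Matrix.star_eq_conjTranspose]
    simp
  have hNadd : ∀ u u', N (u + u') = N u + N u' := by
    intro u u'
    apply Subtype.ext
    show blk 0 (star (u + u')) (u + u') 0 = blk 0 (star u) u 0 + blk 0 (star u') u' 0
    rw [badd, star_add, add_zero, add_zero]
  obtain ⟨evm, -, -, -⟩ := h_evmul e
  refine ⟨fun g => B - cj (FreeGroup.lift f g) B + (t * (ev e g : ℝ)) • (1 : Hn (m + 1)) +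
    (τ * (ev e g : ℝ)) • E + N (z • v g), ?_, ?_⟩
  · intro g h
    have h1 : z • v (g * h) = z • v g + (ρ g : Mn m).mulVec (z • v h) := by
      rw [hv g h, smul_add, Matrix.mulVec_smul]
    show B - cj (FreeGroup.lift f (g * h)) B + (t * (ev e (g * h) : ℝ)) • (1 : Hn (m + 1)) +
      (τ * (ev e (g * h) : ℝ)) • E + N (z • v (g * h)) =
      (B - cj (FreeGroup.lift f g) B + (t * (ev e g : ℝ)) • (1 : Hn (m + 1)) +
      (τ * (ev e g : ℝ)) • E + N (z • v g)) + cj (FreeGroup.lift f g)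
      (B - cj (FreeGroup.lift f h) B + (t * (ev e h : ℝ)) • (1 : Hn (m + 1)) +
      (τ * (ev e h : ℝ)) • E + N (z • v h))
    rw [h1, hNadd, ← hcN, map_mul, p_blkcoc_cj_mul, evm, map_add, map_add, map_add, map_sub,
      map_smul, map_smul, hcE, p_blkcoc_cj_one]
    push_cast
    rw [mul_add, mul_add, add_smul, add_smul]
    abel
  · intro g
    have e1 : ∀ (s : ℝ) (a : Hn (m + 1)), ((s • a : Hn (m + 1)) : Mn (m + 1)) =
        (s : ℂ) • (a : Mn (m + 1)) := by
      intro s a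
      have : ((s • a : Hn (m + 1)) : Mn (m + 1)) = s • (a : Mn (m + 1)) := rfl
      rw [this]
      exact (Complex.coe_smul s _).symm
    show (((B - cj (FreeGroup.lift f g) B + (t * (ev e g : ℝ)) • (1 : Hn (m + 1)) +
      (τ * (ev e g : ℝ)) • E + N (z • v g) : Hn (m + 1))) : Mn (m + 1)) = _
    rw [AddSubgroup.coe_add, AddSubgroup.coe_add, AddSubgroup.coe_add, AddSubgroup.coe_sub,
      e1, e1]
    rfl

end Pool.Agent.Lib.MP_ef6aaf_al
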