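import Pool.Agent.Lib.MP_ef6aaf_al.StmB

/-!
# MP_ef6aaf_al, piece blkrep: the pair `1 ⊕ ρ`
-/

open MeasureTheory Metric Matrix
open scoped Matrix.Norms.L2Operator

namespace Pool.Agent.Lib.MP_ef6aaf_al

private theorem p_blkrep_mul (h : S_blkmul) {m : ℕ} (M M' : Mn m) :
    blk 1 0 0 M * blk 1 0 0 M' = blk 1 0 0 (M * M') := by
  have h1 := (h m 1 1 0 0 0 0 M M').1
  simpa using h1

private theorem p_blkrep_star (h : S_blkmul) {m : ℕ} (M : Mn m) :
    star (blk 1 0 0 M) = blk 1 0 0 (star M) := by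
  have h1 := (h m 1 1 0 0 0 0 M M).2.1
  simpa using h1

theorem p_blkrep (h_blkmul : S_blkmul) : S_blkrep := by
  intro m ρ
  have hmem : ∀ M : U m, blk 1 0 0 (M : Mn m) ∈ Matrix.unitaryGroup (Fin (m + 1)) ℂ := by
    intro M
    rw [Matrix.mem_unitaryGroup_iff, p_blkrep_star h_blkmul, p_blkrep_mul h_blkmul,
      Matrix.mem_unitaryGroup_iff.1 M.2]
    exact (h_blkmul m 1 1 0 0 0 0 1 1).2.2.2.1.symm
  let Φ : U m →* U (m + 1) :=
    { toFun := fun M => ⟨blk 1 0 0 (M : Mn m), hmem M⟩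
      map_one' := Subtype.ext (h_blkmul m 1 1 0 0 0 0 1 1).2.2.2.1.symm
      map_mul' := fun M M' => Subtype.ext (p_blkrep_mul h_blkmul (M : Mn m) (M' : Mn m)).symm }
  refine ⟨fun i => Φ (ρ (FreeGroup.of i)), fun g => ?_⟩
  have hlift : FreeGroup.lift (fun i => Φ (ρ (FreeGroup.of i))) = Φ.comp ρ := by
    ext i
    rw [FreeGroup.lift_apply_of]
    rfl
  rw [hlift]
  rfl

end Pool.Agent.Lib.MP_ef6aaf_al
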