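import Pool.Agent.Lib.MP_ef6aaf_al.StmA

open MeasureTheory Metric
open scoped Matrix.Norms.L2Operator

namespace Pool.Agent.Lib.MP_ef6aaf_al

private theorem p_box_lin {E F G : Type} [NormedAddCommGroup E] [NormedSpace ℝ E]
    [FiniteDimensional ℝ E] [NormedAddCommGroup F] [NormedSpace ℝ F] [NormedAddCommGroup G]
    [NormedSpace ℝ G] (L : E →ₗ[ℝ] F) (Φ : F → G) (hΦ : ContDiff ℝ 2 Φ) :
    ContDiff ℝ 2 (fun p => Φ (L p)) ∧
      ∀ v, fderiv ℝ (fun p => Φ (L p)) 0 v = fderiv ℝ Φ 0 (L v) := by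
  let Λ : E →L[ℝ] F := LinearMap.toContinuousLinearMap L
  have hΛc : ContDiff ℝ 2 (fun p => Λ p) := ContinuousLinearMap.contDiff Λ
  refine ⟨hΦ.comp hΛc, ?_⟩
  intro v
  have hd2 : DifferentiableAt ℝ Φ (Λ 0) := (hΦ.differentiable (by norm_num)) _
  have h2 : fderiv ℝ (fun p => Φ (Λ p)) 0 = (fderiv ℝ Φ (Λ 0)).comp (fderiv ℝ Λ 0) :=
    fderiv_comp (0 : E) hd2 Λ.differentiableAt
  have h3 : fderiv ℝ (fun p => Φ (L p)) 0 = (fderiv ℝ Φ (Λ 0)).comp (fderiv ℝ Λ 0) := h2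
  rw [h3, Λ.fderiv, map_zero]
  rfl

/-- the linear map of the box -/
private def p_box_map {V : Type} [AddCommGroup V] [Module ℝ V] {d k : ℕ}
    (L1 : (Fin d → ℝ) →ₗ[ℝ] V × ℝ) (L2 : (Fin k → ℝ) →ₗ[ℝ] (Fin 2 → V)) :
    (Fin d ⊕ Fin k → ℝ) →ₗ[ℝ] V × ℝ × (Fin 2 → V) where
  toFun := fun p => ((L1 (fun i => p (Sum.inl i))).1, (L1 (fun i => p (Sum.inl i))).2,
        L2 (fun j => p (Sum.inr j)))
  map_add' := by
    intro p q
    have e1 : (fun i => (p + q) (Sum.inl i)) =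
      (fun i => p (Sum.inl i)) + (fun i => q (Sum.inl i)) := rfl
    have e2 : (fun i => (p + q) (Sum.inr i)) =
      (fun i => p (Sum.inr i)) + (fun i => q (Sum.inr i)) := rfl
    rw [e1, e2, map_add, map_add]
    rfl
  map_smul' := by
    intro t p
    have e1 : (fun i => (t • p) (Sum.inl i)) = t • (fun i => p (Sum.inl i)) := rfl
    have e2 : (fun i => (t • p) (Sum.inr i)) = t • (fun i => p (Sum.inr i)) := rfl
    rw [e1, e2, map_smul, map_smul]
    rfl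

private theorem p_box_gen (h_antilip : S_antilip) {V M : Type} [NormedAddCommGroup V]
    [NormedSpace ℝ V] [NormedAddCommGroup M] [NormedSpace ℝ M] {d k : ℕ}
    (L1 : (Fin d → ℝ) →ₗ[ℝ] V × ℝ) (L2 : (Fin k → ℝ) →ₗ[ℝ] (Fin 2 → V))
    (Φ : Fin 2 → (V × ℝ × (Fin 2 → V)) → M) (hΦ : ∀ i, ContDiff ℝ 2 (Φ i))
    (hk : ∀ ξ η, (∀ i, fderiv ℝ (Φ i) 0 ((L1 ξ).1, (L1 ξ).2, L2 η) = 0) → ξ = 0 ∧ η = 0) :
    (∀ i, Continuous fun p : Fin d ⊕ Fin k → ℝ => Φ i ((L1 (fun i => p (Sum.inl i))).1,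
      (L1 (fun i => p (Sum.inl i))).2, L2 (fun j => p (Sum.inr j)))) ∧
    ∃ K r : ℝ, 0 < K ∧ 0 < r ∧ ∀ p p' : Fin d ⊕ Fin k → ℝ, ‖p‖ ≤ r → ‖p'‖ ≤ r → ‖p - p'‖ ≤ K *
      ‖(fun i => Φ i ((L1 (fun i => p (Sum.inl i))).1,
        (L1 (fun i => p (Sum.inl i))).2, L2 (fun j => p (Sum.inr j)))) -
      (fun i => Φ i ((L1 (fun i => p' (Sum.inl i))).1,
        (L1 (fun i => p' (Sum.inl i))).2, L2 (fun j => p' (Sum.inr j))))‖ := by
  let Ψ : (Fin d ⊕ Fin k → ℝ) → (Fin 2 → M) := fun p i => Φ i (p_box_map L1 L2 p)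
  have hΨ : ContDiff ℝ 2 Ψ := contDiff_pi.2 fun i => (p_box_lin (p_box_map L1 L2) (Φ i) (hΦ i)).1
  have hcont : ∀ i, Continuous (fun p => Φ i (p_box_map L1 L2 p)) := fun i =>
    (p_box_lin (p_box_map L1 L2) (Φ i) (hΦ i)).1.continuous
  refine ⟨hcont, ?_⟩
  have hstrict : HasStrictFDerivAt Ψ (fderiv ℝ Ψ 0) 0 :=
    hΨ.contDiffAt.hasStrictFDerivAt (by norm_num)
  have hder : ∀ v i, fderiv ℝ Ψ 0 v i = fderiv ℝ (Φ i) 0 (p_box_map L1 L2 v) := by
    intro v i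
    have hd : ∀ i, DifferentiableAt ℝ (fun p => Φ i (p_box_map L1 L2 p)) 0 := fun i =>
      ((p_box_lin (p_box_map L1 L2) (Φ i) (hΦ i)).1.differentiable (by norm_num)) 0
    have h1 : fderiv ℝ Ψ 0 = ContinuousLinearMap.pi
        fun i => fderiv ℝ (fun p => Φ i (p_box_map L1 L2 p)) 0 :=
      fderiv_pi hd
    rw [h1]
    simp only [ContinuousLinearMap.coe_pi']
    exact (p_box_lin (p_box_map L1 L2) (Φ i) (hΦ i)).2 v
  have hker : ∀ v, fderiv ℝ Ψ 0 v = 0 → v = 0 := by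
    intro v hv
    have h1 := hk (fun i => v (Sum.inl i)) (fun j => v (Sum.inr j)) (fun i => by
      have h2 : fderiv ℝ (Φ i) 0 (p_box_map L1 L2 v) = 0 := by
        rw [← hder v i, hv]; rfl
      exact h2)
    funext x
    rcases x with i | j
    · exact congrFun h1.1 i
    · exact congrFun h1.2 j
  exact h_antilip (Fin d ⊕ Fin k → ℝ) (Fin 2 → M) Ψ (fderiv ℝ Ψ 0) hstrict hker

theorem p_box (h_antilip : S_antilip) (h_cder : S_cder) : S_box := by
  intro n f e d k L1 L2 hinj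
  have key := p_box_gen h_antilip L1 L2
    (fun i (p : Hn n × ℝ × (Fin 2 → Hn n)) => ((chart f e p.1 p.2.1 p.2.2 i : U n) : Mn n))
    (fun i => (h_cder n f e i).1) ?_
  · obtain ⟨h1, K, r, hK, hr, hKr⟩ := key
    refine ⟨?_, K, r, hK, hr, fun p p' hp hp' => (hKr p p' hp hp').trans ?_⟩
    · refine continuous_pi fun i => ?_
      exact Continuous.subtype_mk (h1 i) _
    · refine mul_le_mul_of_nonneg_left ?_ hK.le
      refine (pi_norm_le_iff_of_nonneg dist_nonneg).2 fun i => ?_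
      have h1 := dist_le_pi_dist
        (chart f e (L1 (fun i => p (Sum.inl i))).1 (L1 (fun i => p (Sum.inl i))).2
          (L2 (fun j => p (Sum.inr j))))
        (chart f e (L1 (fun i => p' (Sum.inl i))).1 (L1 (fun i => p' (Sum.inl i))).2
          (L2 (fun j => p' (Sum.inr j)))) i
      rw [Subtype.dist_eq, dist_eq_norm] at h1
      exact h1
  · intro ξ η hz
    refine hinj ξ η fun i => ?_
    have h2 := hz i
    rw [(h_cder n f e i).2] at h2
    have h3 : ∀ X : Hn n, Complex.I • (X : Mn n) * (f i : Mn n) = 0 → X = 0 := by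
      intro X h2
      have h3 : Complex.I • (X : Mn n) = 0 := by
        have h4 : (Complex.I • (X : Mn n)) * (f i : Mn n) * star (f i : Mn n) = 0 := by
          rw [h2, zero_mul]
        rwa [mul_assoc, Unitary.mul_star_self_of_mem (f i).2, mul_one] at h4
      have h5 : (X : Mn n) = 0 := by
        rcases smul_eq_zero.1 h3 with h | h
        · exact absurd h Complex.I_ne_zero
        · exact h
      exact Subtype.ext h5
    exact h3 _ h2

end Pool.Agent.Lib.MP_ef6aaf_al
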