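import Pool.Agent.Lib.MP_ef6aaf_al.StmA

open MeasureTheory Metric
open scoped Matrix.Norms.L2Operator

namespace Pool.Agent.Lib.MP_ef6aaf_al

private lemma p_cder_abs {X H M : Type*} [NormedAddCommGroup X] [NormedSpace ℝ X]
    [NormedAddCommGroup H] [NormedSpace ℝ H] [NormedRing M] [NormedAlgebra ℝ M] (E : H → M)
    (hC : ContDiff ℝ 2 E) (l1 l2 l3 : X →L[ℝ] H) (st : M →L[ℝ] M) (c : M) :
    ContDiff ℝ 2 (fun p => E (l1 p) * (E (l2 p) * (E (l3 p) * c)) * st (E (l1 p))) ∧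
    ∀ p, fderiv ℝ (fun p => E (l1 p) * (E (l2 p) * (E (l3 p) * c)) * st (E (l1 p))) 0 p =
      E 0 * (E 0 * (E 0 * c)) * st (fderiv ℝ E 0 (l1 p)) +
        (E 0 * (E 0 * (fderiv ℝ E 0 (l3 p) * c) + fderiv ℝ E 0 (l2 p) * (E 0 * c)) +
          fderiv ℝ E 0 (l1 p) * (E 0 * (E 0 * c))) * st (E 0) := by
  have hC1 : ∀ l : X →L[ℝ] H, ContDiff ℝ 2 (fun p => E (l p)) := fun l => hC.comp l.contDiff
  have hC4 : ContDiff ℝ 2 (fun p => st (E (l1 p))) := st.contDiff.comp (hC1 l1)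
  refine ⟨((hC1 l1).mul ((hC1 l2).mul ((hC1 l3).mul contDiff_const))).mul hC4, ?_⟩
  have hE0 : HasFDerivAt E (fderiv ℝ E 0) 0 :=
    (hC.differentiable (by norm_num)).differentiableAt.hasFDerivAt
  have hd : ∀ l : X →L[ℝ] H, HasFDerivAt (fun p => E (l p)) ((fderiv ℝ E 0).comp l) 0 := by
    intro l
    have h1 : HasFDerivAt E (fderiv ℝ E 0) (l 0) := by rw [map_zero]; exact hE0
    exact h1.comp 0 l.hasFDerivAt
  have hd4 : HasFDerivAt (fun p => st (E (l1 p))) (st.comp ((fderiv ℝ E 0).comp l1)) 0 :=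
    st.hasFDerivAt.comp 0 (hd l1)
  intro p
  have hd5 := ((hd l1).fun_mul' ((hd l2).fun_mul'
    ((hd l3).fun_mul' (hasFDerivAt_const c 0)))).fun_mul' hd4
  rw [hd5.fderiv]
  simp [mul_add, add_mul]

private lemma p_cder_eq (n : ℕ) (f : Fin 2 → U n) (e : Fin 2 → ℤ) (i : Fin 2) :
    (fun p : Hn n × ℝ × (Fin 2 → Hn n) => ((chart f e p.1 p.2.1 p.2.2 i : U n) : Mn n)) =
      fun p => ((ex p.1 : U n) : Mn n) *
        (((ex ((p.2.1 * (e i : ℝ)) • (1 : Hn n)) : U n) : Mn n) *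
          (((ex (p.2.2 i) : U n) : Mn n) * (f i : Mn n))) * star ((ex p.1 : U n) : Mn n) := by
  funext p
  unfold chart
  rfl

/-- the linear map `p ↦ (t e_i) 1` -/
private noncomputable def p_cder_l (n : ℕ) (c : ℝ) : (Hn n × ℝ × (Fin 2 → Hn n)) →L[ℝ] Hn n :=
  ((ContinuousLinearMap.fst ℝ ℝ (Fin 2 → Hn n)).comp
    (ContinuousLinearMap.snd ℝ (Hn n) (ℝ × (Fin 2 → Hn n)))).smulRight (c • (1 : Hn n))

private noncomputable def p_cder_l3 (n : ℕ) (i : Fin 2) :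
    (Hn n × ℝ × (Fin 2 → Hn n)) →L[ℝ] Hn n :=
  (ContinuousLinearMap.proj (R := ℝ) (φ := fun _ : Fin 2 => Hn n) i).comp
      ((ContinuousLinearMap.snd ℝ ℝ (Fin 2 → Hn n)).comp
        (ContinuousLinearMap.snd ℝ (Hn n) (ℝ × (Fin 2 → Hn n))))

private lemma p_cder_E0 (n : ℕ) : ((ex (0 : Hn n) : U n) : Mn n) = 1 := by
  unfold ex
  rw [selfAdjoint.expUnitary_zero]
  rfl

theorem p_cder (h_exder : S_exder) : S_cder := by
  intro n f e i
  obtain ⟨hC, hD⟩ := h_exder n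
  have hl2 : ∀ p : Hn n × ℝ × (Fin 2 → Hn n),
      p_cder_l n (e i) p = (p.2.1 * (e i : ℝ)) • (1 : Hn n) := by
    intro p
    simp [p_cder_l, mul_smul]
  have hfun : (fun p : Hn n × ℝ × (Fin 2 → Hn n) => ((chart f e p.1 p.2.1 p.2.2 i : U n) : Mn n)) =
      fun p => (fun a : Hn n => ((ex a : U n) : Mn n))
        (ContinuousLinearMap.fst ℝ (Hn n) (ℝ × (Fin 2 → Hn n)) p) *
        ((fun a : Hn n => ((ex a : U n) : Mn n)) (p_cder_l n (e i) p) *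
        ((fun a : Hn n => ((ex a : U n) : Mn n)) (p_cder_l3 n i p) * (f i : Mn n))) *
        ((starL' ℝ : Mn n ≃L[ℝ] Mn n) : Mn n →L[ℝ] Mn n)
          ((fun a : Hn n => ((ex a : U n) : Mn n))
            (ContinuousLinearMap.fst ℝ (Hn n) (ℝ × (Fin 2 → Hn n)) p)) := by
    rw [p_cder_eq]
    funext p
    rw [← hl2 p]
    rfl
  have key := p_cder_abs (X := Hn n × ℝ × (Fin 2 → Hn n)) (H := Hn n) (M := Mn n)
    (fun a : Hn n => ((ex a : U n) : Mn n)) hC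
    (ContinuousLinearMap.fst ℝ (Hn n) (ℝ × (Fin 2 → Hn n))) (p_cder_l n (e i)) (p_cder_l3 n i)
    ((starL' ℝ : Mn n ≃L[ℝ] Mn n) : Mn n →L[ℝ] Mn n) (f i : Mn n)
  rw [← hfun] at key
  refine ⟨key.1, fun p => ?_⟩
  rw [key.2 p]
  have hu : (f i : Mn n) * star (f i : Mn n) = 1 := Unitary.coe_mul_star_self (f i)
  have hu' : star (f i : Mn n) * (f i : Mn n) = 1 := Unitary.coe_star_mul_self (f i)
  have hs : star (p.1 : Mn n) = (p.1 : Mn n) := p.1.2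
  have h1 : ((ContinuousLinearMap.fst ℝ (Hn n) (ℝ × (Fin 2 → Hn n))) p : Hn n) = p.1 := rfl
  have h3 : p_cder_l3 n i p = p.2.2 i := rfl
  have hst : ∀ A : Mn n, ((starL' ℝ : Mn n ≃L[ℝ] Mn n) : Mn n →L[ℝ] Mn n) A = star A :=
    fun A => rfl
  have hcj : ((cj (f i) p.1 : Hn n) : Mn n) = (f i : Mn n) * (p.1 : Mn n) * star (f i : Mn n) :=
    rfl
  rw [hD, hD, hD, h1, h3, hl2, hst, hst, p_cder_E0, star_one, star_smul, hs]
  have hco : ((p.1 - cj (f i) p.1 + (p.2.1 * (e i : ℝ)) • (1 : Hn n) + p.2.2 i : Hn n) : Mn n) =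
      (p.1 : Mn n) - (f i : Mn n) * (p.1 : Mn n) * star (f i : Mn n) +
        (((p.2.1 * (e i : ℝ)) • (1 : Hn n) : Hn n) : Mn n) + ((p.2.2 i : Hn n) : Mn n) := by
    rw [← hcj]
    rfl
  rw [hco]
  have h5 : (f i : Mn n) * (p.1 : Mn n) * star (f i : Mn n) * (f i : Mn n) =
      (f i : Mn n) * (p.1 : Mn n) := by rw [mul_assoc, hu', mul_one]
  have hI : star Complex.I = - Complex.I := by simp
  rw [hI]
  simp only [one_mul, mul_one, smul_mul_assoc, mul_smul_comm, add_mul, sub_mul, h5, neg_smul, mul_neg,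
    smul_add, smul_sub]
  abel

end Pool.Agent.Lib.MP_ef6aaf_al
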