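import Pool.Agent.Lib.MP_ef6aaf_al.StmA

/-!
# Words inducing Haar measure on unitary groups, piece [clo]
-/

open MeasureTheory Metric
open scoped Matrix.Norms.L2Operator

namespace Pool.Agent.Lib.MP_ef6aaf_al

private lemma p_clo_ex0 (n : ℕ) : ex (0 : Hn n) = 1 := by
  apply Subtype.ext
  change ((selfAdjoint.expUnitary (0 : Hn n) : U n) : Mn n) = 1
  rw [selfAdjoint.expUnitary_zero]
  rfl

private lemma p_clo_conj {n : ℕ} (g x : U n) :
    ‖((g * x * g⁻¹ : U n) : Mn n) - 1‖ = ‖(x : Mn n) - 1‖ := by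
  have h : ((g * x * g⁻¹ : U n) : Mn n) - 1 =
      (g : Mn n) * ((x : Mn n) - 1) * ((g⁻¹ : U n) : Mn n) := by
    have h1 : (g : Mn n) * ((g⁻¹ : U n) : Mn n) = 1 := by
      exact congrArg (fun y : U n => (y : Mn n)) (mul_inv_cancel g)
    rw [mul_sub, sub_mul, mul_one, h1]
    rfl
  rw [h, CStarRing.norm_mul_coe_unitary, CStarRing.norm_coe_unitary_mul]

private lemma p_clo_abs {E F G : Type} [NormedAddCommGroup E] [NormedSpace ℝ E]
    [FiniteDimensional ℝ E] [NormedAddCommGroup F] [NormedSpace ℝ F] [NormedAddCommGroup G]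
    [NormedSpace ℝ G] (L : E →ₗ[ℝ] F) (g : F → G) (hg : ContDiff ℝ 2 g)
    (h : ∀ η, fderiv ℝ g 0 (L η) = 0) :
    ContDiff ℝ 2 (fun η => g (L η)) ∧ fderiv ℝ (fun η => g (L η)) 0 = 0 := by
  set L' : E →L[ℝ] F := L.toContinuousLinearMap with hL'
  have hd : Differentiable ℝ g := hg.differentiable (by norm_num)
  refine ⟨hg.comp L'.contDiff, ?_⟩
  have h1 : HasFDerivAt (fun η => g (L η)) ((fderiv ℝ g (L' 0)).comp L') 0 :=
    (hd (L' 0)).hasFDerivAt.comp 0 L'.hasFDerivAt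
  rw [h1.fderiv, map_zero]
  ext1 η
  exact h η

private lemma p_clo_cont {E F G : Type} [NormedAddCommGroup E] [NormedSpace ℝ E]
    [FiniteDimensional ℝ E] [NormedAddCommGroup F] [NormedSpace ℝ F] [NormedAddCommGroup G]
    [NormedSpace ℝ G] (L : E →ₗ[ℝ] F) (g : F → G) (hg : ContDiff ℝ 2 g) (ε : ℝ) (hε : 0 < ε) :
    ∃ s : ℝ, 0 < s ∧ ∀ η, ‖η‖ ≤ s → ‖g (L η) - g 0‖ ≤ ε := by
  set L' : E →L[ℝ] F := L.toContinuousLinearMap with hL'
  have hc : Continuous (fun η => g (L' η)) := hg.continuous.comp L'.continuous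
  obtain ⟨s, hs, h2⟩ := (Metric.continuous_iff.1 hc) 0 ε hε
  refine ⟨s / 2, by positivity, fun η hη => ?_⟩
  have h4 := h2 η (by rw [dist_zero_right]; linarith)
  rw [map_zero, dist_eq_norm] at h4
  exact h4.le

theorem p_clo (h_quad : S_quad) (h_wsm : S_wsm) (h_wchart : S_wchart) (h_wlip : S_wlip)
    (h_exder : S_exder) : S_clo := by
  intro n w f e k L2 hfw hev hL2
  -- step 1: the word on the box
  set Φ : (Fin k → ℝ) → Mn n := fun η => wm f w (L2 η) with hΦ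
  obtain ⟨hΦsm, hΦd⟩ := p_clo_abs L2 (wm f w) (h_wsm n f w) hL2
  obtain ⟨C1, r1, hC1, hr1, hq⟩ := h_quad _ _ Φ hΦsm hΦd
  have hΦ0 : Φ 0 = 1 := by
    change wm f w (L2 0) = 1
    rw [map_zero]
    unfold wm
    have h1 : (fun i => ex ((0 : Fin 2 → Hn n) i) * f i) = f := by
      funext i
      rw [Pi.zero_apply, p_clo_ex0, one_mul]
    rw [h1, hfw]
    rfl
  obtain ⟨K, hK, hlip⟩ := h_wlip n w
  -- step 2: continuity of the exponential along the first coordinate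
  have hsmall : ∃ s1 : ℝ, 0 < s1 ∧ (0 < ‖(f 0 : Mn n) - 1‖ → s1 ^ 2 ≤ ‖(f 0 : Mn n) - 1‖ / 4 ∧
      ∀ η : Fin k → ℝ, ‖η‖ ≤ s1 → ‖((ex (L2 η 0) : U n) : Mn n) - 1‖ ≤
        ‖(f 0 : Mn n) - 1‖ / 4) := by
    by_cases hδ : 0 < ‖(f 0 : Mn n) - 1‖
    · obtain ⟨s2, hs2, h2⟩ := p_clo_cont ((LinearMap.proj 0 : (Fin 2 → Hn n) →ₗ[ℝ] Hn n).comp L2)
        (fun a : Hn n => ((ex a : U n) : Mn n)) (h_exder n).1 (‖(f 0 : Mn n) - 1‖ / 4)
        (by positivity)
      refine ⟨min s2 (min 1 (‖(f 0 : Mn n) - 1‖ / 4)), by positivity, fun _ => ⟨?_, ?_⟩⟩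
      · have a1 : min s2 (min 1 (‖(f 0 : Mn n) - 1‖ / 4)) ≤ 1 :=
          (min_le_right _ _).trans (min_le_left _ _)
        have a2 : min s2 (min 1 (‖(f 0 : Mn n) - 1‖ / 4)) ≤ ‖(f 0 : Mn n) - 1‖ / 4 :=
          (min_le_right _ _).trans (min_le_right _ _)
        have a3 : 0 ≤ min s2 (min 1 (‖(f 0 : Mn n) - 1‖ / 4)) := by positivity
        nlinarith
      · intro η hη
        have h4 := h2 η (hη.trans (min_le_left _ _))
        have h5 : ((ex (0 : Hn n) : U n) : Mn n) = 1 := by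
          rw [p_clo_ex0]
          rfl
        rw [h5] at h4
        exact h4
    · exact ⟨1, one_pos, fun h => absurd h hδ⟩
  obtain ⟨s1, hs1, hs1'⟩ := hsmall
  refine ⟨C1 + K, min r1 s1, by positivity, by positivity, ?_⟩
  intro s hs hss B t η hη q hqd
  have hηr : ‖η‖ ≤ r1 := hη.trans (hss.trans (min_le_left _ _))
  have hηs : ‖η‖ ≤ s1 := hη.trans (hss.trans (min_le_right _ _))
  have hs1s : s ≤ s1 := hss.trans (min_le_right _ _)
  have hηsq : ‖η‖ ^ 2 ≤ s ^ 2 := pow_le_pow_left₀ (norm_nonneg _) hη 2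
  refine ⟨?_, ?_⟩
  · -- the word
    have h1 : ‖((FreeGroup.lift (chart f e B t (L2 η)) w : U n) : Mn n) - 1‖ ≤ C1 * s ^ 2 := by
      rw [h_wchart, hev, p_clo_conj]
      have h2 : ex ((t * ((0 : ℤ) : ℝ)) • (1 : Hn n)) = 1 := by
        rw [Int.cast_zero, mul_zero, zero_smul, p_clo_ex0]
      rw [h2, one_mul]
      have h3 := hq η hηr
      rw [hΦ0] at h3
      exact h3.trans (mul_le_mul_of_nonneg_left hηsq hC1.le)
    have h2 := hlip q (chart f e B t (L2 η))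
    have h3 : K * dist q (chart f e B t (L2 η)) ≤ K * s ^ 2 :=
      mul_le_mul_of_nonneg_left hqd hK.le
    calc ‖((FreeGroup.lift q w : U n) : Mn n) - 1‖
        = ‖(((FreeGroup.lift q w : U n) : Mn n) -
            ((FreeGroup.lift (chart f e B t (L2 η)) w : U n) : Mn n)) +
            (((FreeGroup.lift (chart f e B t (L2 η)) w : U n) : Mn n) - 1)‖ := by
          congr 1; abel
      _ ≤ _ := norm_add_le _ _
      _ ≤ K * s ^ 2 + C1 * s ^ 2 := add_le_add (h2.trans h3) h1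
      _ = (C1 + K) * s ^ 2 := by ring
  · -- the first entry
    intro he0
    by_cases hδ : 0 < ‖(f 0 : Mn n) - 1‖
    · obtain ⟨hsq, hex⟩ := hs1' hδ
      have hex' := hex η hηs
      have h1 : ‖((chart f e B t (L2 η) 0 : U n) : Mn n) - 1‖ =
          ‖((ex (L2 η 0) * f 0 : U n) : Mn n) - 1‖ := by
        change ‖((ex B * (ex ((t * (e 0 : ℝ)) • (1 : Hn n)) * (ex (L2 η 0) * f 0)) * (ex B)⁻¹ :
          U n) : Mn n) - 1‖ = _
        rw [p_clo_conj, he0, Int.cast_zero, mul_zero, zero_smul, p_clo_ex0, one_mul]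
      have h2 : ‖((ex (L2 η 0) * f 0 : U n) : Mn n) - (f 0 : Mn n)‖ ≤
          ‖(f 0 : Mn n) - 1‖ / 4 := by
        have h3 : ((ex (L2 η 0) * f 0 : U n) : Mn n) - (f 0 : Mn n) =
            (((ex (L2 η 0) : U n) : Mn n) - 1) * (f 0 : Mn n) := by
          rw [sub_mul, one_mul]; rfl
        rw [h3, CStarRing.norm_mul_coe_unitary]
        exact hex'
      have h4 : ‖(f 0 : Mn n) - 1‖ ≤ ‖((ex (L2 η 0) * f 0 : U n) : Mn n) - (f 0 : Mn n)‖ +
          ‖((ex (L2 η 0) * f 0 : U n) : Mn n) - 1‖ := by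
        have : (f 0 : Mn n) - 1 = -(((ex (L2 η 0) * f 0 : U n) : Mn n) - (f 0 : Mn n)) +
            (((ex (L2 η 0) * f 0 : U n) : Mn n) - 1) := by abel
        rw [this]
        refine (norm_add_le _ _).trans ?_
        rw [norm_neg]
      have h5 : dist (q 0) (chart f e B t (L2 η) 0) ≤ s ^ 2 :=
        (dist_le_pi_dist q (chart f e B t (L2 η)) 0).trans hqd
      have h6 : ‖(q 0 : Mn n) - ((chart f e B t (L2 η) 0 : U n) : Mn n)‖ ≤ s ^ 2 := by
        rw [← dist_eq_norm]; exact h5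
      have h7 : ‖((chart f e B t (L2 η) 0 : U n) : Mn n) - 1‖ ≤
          ‖(q 0 : Mn n) - ((chart f e B t (L2 η) 0 : U n) : Mn n)‖ + ‖(q 0 : Mn n) - 1‖ := by
        have : ((chart f e B t (L2 η) 0 : U n) : Mn n) - 1 =
            -((q 0 : Mn n) - ((chart f e B t (L2 η) 0 : U n) : Mn n)) +
              ((q 0 : Mn n) - 1) := by abel
        rw [this]
        refine (norm_add_le _ _).trans ?_
        rw [norm_neg]
      have h8 : s ^ 2 ≤ s1 ^ 2 := pow_le_pow_left₀ hs.le hs1s 2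
      rw [h1] at h7
      linarith
    · have : ‖(f 0 : Mn n) - 1‖ = 0 := le_antisymm (not_lt.1 hδ) (norm_nonneg _)
      rw [this]
      simp

end Pool.Agent.Lib.MP_ef6aaf_al
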