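import Pool.Agent.Lib.MP_ef6aaf_al.StmA

open MeasureTheory Metric
open scoped Matrix.Norms.L2Operator

namespace Pool.Agent.Lib.MP_ef6aaf_al

private lemma p_core_cont (n : ℕ) (w : FreeGroup (Fin 2)) :
    Continuous fun q : Fin 2 → U n => FreeGroup.lift q w := by
  induction w using FreeGroup.induction_on with
  | C1 => simpa using continuous_const
  | of i => simpa using continuous_apply i
  | inv_of i h => simp only [map_inv]; exact Continuous.inv h
  | mul a b ha hb => simp only [map_mul]; exact Continuous.mul ha hb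

private lemma p_core_closed (n : ℕ) (w : FreeGroup (Fin 2)) (f : Fin 2 → U n) (e : Fin 2 → ℤ) (ε : ℝ) :
    IsClosed (Near w f e ε) := by
  have h1 : IsClosed {q : Fin 2 → U n | ‖((FreeGroup.lift q w : U n) : Mn n) - 1‖ ≤ ε} :=
    isClosed_le (((continuous_subtype_val.comp (p_core_cont n w)).sub continuous_const).norm) continuous_const
  have h2 : IsClosed {q : Fin 2 → U n | e 0 = 0 → ‖(f 0 : Mn n) - 1‖ / 2 ≤ ‖(q 0 : Mn n) - 1‖} := by
    by_cases he : e 0 = 0
    · simp only [he, forall_true_left]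
      exact isClosed_le continuous_const
        (((continuous_subtype_val.comp (continuous_apply 0)).sub continuous_const).norm)
    · simp only [he, false_imp_iff]
      exact isClosed_univ
  exact h1.inter h2

theorem p_core (h_fub : S_fub) (h_inv : S_inv) (h_low : S_low) (h_box : S_box) (h_clo : S_clo) : S_core := by
  intro n _ _ μ _ _ w f e d k L1 L2 hf hev hL2 hinj
  obtain ⟨hcont, K, r, hK, hr, hanti⟩ := h_box n f e d k L1 L2 hinj
  obtain ⟨C, s₀, hC, hs₀, hclo⟩ := h_clo n w f e k L2 hf hev hL2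
  obtain ⟨c, hc, hlow⟩ := h_low n μ
  refine ⟨c ^ 2 * (2 * r) ^ d * 2 ^ k / (4 * K) ^ (d + k), C, min (min s₀ r) 1, by positivity, hC,
    lt_min (lt_min hs₀ hr) one_pos, ?_⟩
  intro s hs hs'
  have hs1 : s ≤ 1 := hs'.trans (min_le_right _ _)
  have hs0 : s ≤ s₀ := (hs'.trans (min_le_left _ _)).trans (min_le_left _ _)
  have hsr : s ≤ r := (hs'.trans (min_le_left _ _)).trans (min_le_right _ _)
  let A : Set (Fin d ⊕ Fin k → ℝ) :=
    Set.pi Set.univ (Sum.elim (fun _ => Set.Icc (-r) r) (fun _ => Set.Icc (-s) s))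
  have hAm : MeasurableSet A := by
    refine MeasurableSet.univ_pi ?_
    rintro (i | j)
    · exact measurableSet_Icc
    · exact measurableSet_Icc
  have hAv : volume A = ENNReal.ofReal ((2 * r) ^ d * (2 * s) ^ k) := by
    rw [volume_pi_pi, Fintype.prod_sum_type]
    simp only [Sum.elim_inl, Sum.elim_inr, Real.volume_Icc, Finset.prod_const, Finset.card_univ, Fintype.card_fin]
    rw [← ENNReal.ofReal_pow (by linarith), ← ENNReal.ofReal_pow (by linarith), ← ENNReal.ofReal_mul (by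
      apply pow_nonneg; linarith)]
    congr 2 <;> ring
  have hA1 : ∀ p ∈ A, (∀ i, |p (Sum.inl i)| ≤ r) ∧ ∀ j, |p (Sum.inr j)| ≤ s := by
    intro p hp
    refine ⟨fun i => abs_le.mpr ?_, fun j => abs_le.mpr ?_⟩
    · exact hp (Sum.inl i) (Set.mem_univ _)
    · exact hp (Sum.inr j) (Set.mem_univ _)
  have hA2 : ∀ p ∈ A, ‖p‖ ≤ r := by
    intro p hp
    rw [pi_norm_le_iff_of_nonneg hr.le]
    rintro (i | j)
    · exact (hA1 p hp).1 i
    · exact ((hA1 p hp).2 j).trans hsr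
  have hA3 : ∀ p ∈ A, ‖(fun j => p (Sum.inr j) : Fin k → ℝ)‖ ≤ s := by
    intro p hp
    rw [pi_norm_le_iff_of_nonneg hs.le]
    exact (hA1 p hp).2
  have hball : ∀ x : Fin 2 → U n, (ENNReal.ofReal (c * (s ^ 2) ^ D n)) ^ 2 ≤
      (Measure.pi fun _ : Fin 2 => μ) (closedBall x (s ^ 2)) := by
    intro x
    rw [closedBall_pi x (by positivity), Measure.pi_pi]
    have h1 : ∀ i, ENNReal.ofReal (c * (s ^ 2) ^ D n) ≤ μ (closedBall (x i) (s ^ 2)) := by
      intro i
      rw [h_inv n μ (x i) (s ^ 2)]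
      exact hlow (s ^ 2) (by positivity) (pow_le_one₀ hs.le hs1)
    rw [Fin.prod_univ_two, sq]
    exact mul_le_mul' (h1 0) (h1 1)
  have hmain := h_fub (Fin 2 → U n) (Measure.pi fun _ : Fin 2 => μ) (Fin d ⊕ Fin k) A _ K (s ^ 2)
    ((ENNReal.ofReal (c * (s ^ 2) ^ D n)) ^ 2) (Near w f e (C * s ^ 2)) hAm hcont hK (by positivity)
    (fun p hp p' hp' => hanti p p' (hA2 p hp) (hA2 p' hp'))
    (fun p _ => hball _) (p_core_closed n w f e _).measurableSet
    (fun p hp q hq => hclo s hs hs0 _ _ _ (hA3 p hp) q hq)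
  rw [hAv, Fintype.card_sum, Fintype.card_fin, Fintype.card_fin] at hmain
  have hfin : (Measure.pi fun _ : Fin 2 => μ) (Near w f e (C * s ^ 2)) ≠ ⊤ := measure_ne_top _ _
  obtain ⟨x, hx0, hx⟩ : ∃ x : ℝ, 0 ≤ x ∧ (Measure.pi fun _ : Fin 2 => μ) (Near w f e (C * s ^ 2)) = ENNReal.ofReal x :=
    ⟨_, ENNReal.toReal_nonneg, (ENNReal.ofReal_toReal hfin).symm⟩
  rw [hx] at hmain ⊢
  rw [← ENNReal.ofReal_pow (by positivity), ← ENNReal.ofReal_mul (by positivity),
    ← ENNReal.ofReal_mul (by positivity), ENNReal.ofReal_le_ofReal_iff (by positivity)] at hmain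
  rw [← ENNReal.ofReal_mul (by positivity)]
  refine ENNReal.ofReal_le_ofReal ?_
  have hk : 0 < s ^ k := by positivity
  have h4K : 0 < (4 * K) ^ (d + k) := by positivity
  have e1 : (c * (s ^ 2) ^ D n) ^ 2 * ((2 * r) ^ d * (2 * s) ^ k) =
      (c ^ 2 * (2 * r) ^ d * 2 ^ k * s ^ (4 * D n)) * s ^ k := by
    rw [mul_pow c, ← pow_mul, ← pow_mul, mul_pow 2 s k]
    rw [show 2 * (D n * 2) = 4 * D n by ring]
    ring
  have e2 : (4 * K * s ^ 2) ^ (d + k) * x = ((4 * K) ^ (d + k) * (s ^ (2 * d + k) * x)) * s ^ k := by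
    rw [mul_pow, ← pow_mul, show 2 * (d + k) = (2 * d + k) + k by ring, pow_add s]
    ring
  rw [e1, e2] at hmain
  have h5 := le_of_mul_le_mul_right hmain hk
  rw [div_mul_eq_mul_div, div_le_iff₀ h4K]
  linarith

end Pool.Agent.Lib.MP_ef6aaf_al
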