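import Pool.Agent.Lib.MP_ef6aaf_al.StmB

/-!
# Words inducing Haar measure on unitary groups: piece count
-/

open MeasureTheory Metric Matrix
open scoped Matrix.Norms.L2Operator

namespace Pool.Agent.Lib.MP_ef6aaf_al

private theorem p_count_cjone {n : ℕ} (B : Hn n) : cj (1 : U n) B = B := by
  apply Subtype.ext
  simp [cj]

private theorem p_count_one {n : ℕ} {f : Fin 2 → U n} {δ : FreeGroup (Fin 2) → Hn n}
    (hδ : IsAdCocycle f δ) : δ 1 = 0 := by
  have h := hδ 1 1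
  rw [mul_one, map_one, p_count_cjone] at h
  have h2 : δ 1 + 0 = δ 1 + δ 1 := by rw [add_zero]; exact h
  exact (add_left_cancel h2).symm

private theorem p_count_all {n : ℕ} {f : Fin 2 → U n} {δ : FreeGroup (Fin 2) → Hn n}
    (hδ : IsAdCocycle f δ) (h0 : ∀ i, δ (FreeGroup.of i) = 0) (g : FreeGroup (Fin 2)) :
    δ g = 0 := by
  induction g using FreeGroup.induction_on with
  | C1 => exact p_count_one hδ
  | of i => exact h0 i
  | inv_of i h =>
    have h1 := hδ (FreeGroup.of i)⁻¹ (FreeGroup.of i)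
    have h2 : δ (FreeGroup.of i) = 0 := h
    rw [inv_mul_cancel, p_count_one hδ, h2, map_zero, add_zero] at h1
    exact h1.symm
  | mul g h hg hh => rw [hδ g h, hg, hh, map_zero, add_zero]

private theorem p_count_conj (h_blkmul : S_blkmul) {m : ℕ} (u : U (m + 1)) (R : U m)
    (hu : (u : Mn (m + 1)) = blk 1 0 0 (R : Mn m)) (B : Hn (m + 1)) (α : ℂ) (r b : Fin m → ℂ)
    (M : Mn m) (hB : (B : Mn (m + 1)) = blk α r b M) :
    ((cj u B : Hn (m + 1)) : Mn (m + 1)) =
      blk α (Matrix.vecMul r (star (R : Mn m))) ((R : Mn m).mulVec b)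
        ((R : Mn m) * M * star (R : Mn m)) := by
  have h1 : ((cj u B : Hn (m + 1)) : Mn (m + 1)) =
      (u : Mn (m + 1)) * (B : Mn (m + 1)) * star (u : Mn (m + 1)) := rfl
  have h2 : star (blk 1 0 0 (R : Mn m)) = blk 1 0 0 (star (R : Mn m)) := by
    rw [(h_blkmul m 1 1 0 0 0 0 (R : Mn m) 0).2.1]
    simp
  rw [h1, hu, hB, h2, (h_blkmul m _ _ _ _ _ _ _ _).1, (h_blkmul m _ _ _ _ _ _ _ _).1]
  congr 1
  · simp
  · simp
  · simp
  · simp

theorem p_count (h_wder : S_wder) (h_blkmul : S_blkmul) (h_blkcoc : S_blkcoc)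
    (h_evmul : S_evmul) : S_count := by
  intro m w ρ f e v hm hf hv hnv he hew hρw hvw
  have hm' : Nonempty (Fin m) := ⟨⟨0, hm⟩⟩
  have hA2 : (blk 0 0 0 1 : Mn (m + 1)) ∈ selfAdjoint (Mn (m + 1)) := by
    rw [selfAdjoint.mem_iff, (h_blkmul m 0 0 0 0 0 0 1 0).2.1]
    simp
  set A2 : Hn (m + 1) := ⟨blk 0 0 0 1, hA2⟩ with hA2d
  have hC : ∀ b : Fin m → ℂ, (blk 0 (star b) b 0 : Mn (m + 1)) ∈ selfAdjoint (Mn (m + 1)) := by
    intro b
    rw [selfAdjoint.mem_iff, (h_blkmul m 0 0 (star b) 0 b 0 0 0).2.1]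
    simp
  let Cz : (Fin m → ℂ) → (ℂ →ₗ[ℝ] Hn (m + 1)) := fun b =>
    { toFun := fun z => ⟨blk 0 (star (z • b)) (z • b) 0, hC _⟩
      map_add' := by
        intro z z'
        apply Subtype.ext
        change blk 0 (star ((z + z') • b)) ((z + z') • b) 0 =
          blk 0 (star (z • b)) (z • b) 0 + blk 0 (star (z' • b)) (z' • b) 0
        rw [(h_blkmul m _ _ _ _ _ _ _ _).2.2.1, add_smul, star_add, add_zero, add_zero]
      map_smul' := by
        intro t z
        apply Subtype.ext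
        change blk 0 (star ((t • z) • b)) ((t • z) • b) 0 =
          t • blk 0 (star (z • b)) (z • b) 0
        have h1 : t • blk 0 (star (z • b)) (z • b) (0 : Mn m) =
            (t : ℂ) • blk 0 (star (z • b)) (z • b) (0 : Mn m) := by
          ext i j
          simp
        rw [h1, (h_blkmul m 0 0 (star (z • b)) 0 (z • b) 0 0 0).2.2.2.2.1 (t : ℂ)]
        congr 1
        · simp
        · ext i
          simp
          ring
        · ext i
          simp
          ring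
        · simp }
  have hCz : ∀ b z, ((Cz b z : Hn (m + 1)) : Mn (m + 1)) = blk 0 (star (z • b)) (z • b) 0 :=
    fun b z => rfl
  let Θ : (Hn (m + 1) × ℝ × ℝ × ℂ) →ₗ[ℝ] (Fin 2 → Hn (m + 1)) :=
    LinearMap.pi fun i =>
      (LinearMap.id - cj (f i)) ∘ₗ LinearMap.fst ℝ _ _ +
      ((e i : ℝ) • (LinearMap.toSpanSingleton ℝ _ (1 : Hn (m + 1)))) ∘ₗ
        (LinearMap.fst ℝ _ _ ∘ₗ LinearMap.snd ℝ _ _) +
      ((e i : ℝ) • (LinearMap.toSpanSingleton ℝ _ A2)) ∘ₗ
        (LinearMap.fst ℝ _ _ ∘ₗ LinearMap.snd ℝ _ _ ∘ₗ LinearMap.snd ℝ _ _) +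
      Cz (v (FreeGroup.of i)) ∘ₗ
        (LinearMap.snd ℝ _ _ ∘ₗ LinearMap.snd ℝ _ _ ∘ₗ LinearMap.snd ℝ _ _)
  have hΘ : ∀ (B : Hn (m + 1)) (t τ : ℝ) (z : ℂ) (i : Fin 2),
      ((Θ (B, t, τ, z) i : Hn (m + 1)) : Mn (m + 1)) = (B : Mn (m + 1)) -
        ((cj (f i) B : Hn (m + 1)) : Mn (m + 1)) + ((t * (e i : ℝ) : ℝ) : ℂ) • (1 : Mn (m + 1)) +
        ((τ * (e i : ℝ) : ℝ) : ℂ) • blk 0 0 0 1 +
        blk 0 (star (z • v (FreeGroup.of i))) (z • v (FreeGroup.of i)) 0 := by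
    intro B t τ z i
    have h1 : Θ (B, t, τ, z) i = B - cj (f i) B + (e i : ℝ) • (t • (1 : Hn (m + 1))) +
        (e i : ℝ) • (τ • A2) + Cz (v (FreeGroup.of i)) z := rfl
    rw [h1]
    simp only [AddSubgroup.coe_add, AddSubgroup.coe_sub, hCz]
    congr 1
    congr 1
    · congr 1
      ext k l
      simp
      ring
    · ext k l
      simp [hA2d]
      ring
  -- the cocycle
  have hcoc : ∀ (B : Hn (m + 1)) (t τ : ℝ) (z : ℂ), ∃ δ : FreeGroup (Fin 2) → Hn (m + 1),
      IsAdCocycle f δ ∧ (∀ i, δ (FreeGroup.of i) = Θ (B, t, τ, z) i) ∧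
      ∀ g, (δ g : Mn (m + 1)) = (B : Mn (m + 1)) -
        ((cj (FreeGroup.lift f g) B : Hn (m + 1)) : Mn (m + 1)) +
        ((t * (ev e g : ℝ) : ℝ) : ℂ) • (1 : Mn (m + 1)) +
        ((τ * (ev e g : ℝ) : ℝ) : ℂ) • blk 0 0 0 1 +
        blk 0 (star (z • v g)) (z • v g) 0 := by
    intro B t τ z
    obtain ⟨δ, hδ1, hδ2⟩ := h_blkcoc m ρ f e v hf hv B t τ z
    refine ⟨δ, hδ1, fun i => ?_, hδ2⟩
    apply Subtype.ext
    rw [hδ2, hΘ, FreeGroup.lift_apply_of, (h_evmul e).2.1 i]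
  -- the value at the word
  have hlw : (FreeGroup.lift f w : U (m + 1)) = 1 := by
    apply Subtype.ext
    rw [hf w, hρw]
    have h1 := (h_blkmul m 0 0 0 0 0 0 0 0).2.2.2.1
    change blk 1 0 0 (1 : Mn m) = (1 : Mn (m + 1))
    exact h1.symm
  have hrange : LinearMap.range Θ ≤ kerW f w := by
    rintro _ ⟨⟨B, t, τ, z⟩, rfl⟩
    obtain ⟨δ, hδ1, hδ2, hδ3⟩ := hcoc B t τ z
    have h1 := h_wder (m + 1) f δ hδ1 w
    have h2 : (δ w : Mn (m + 1)) = 0 := by
      rw [hδ3 w, hlw, p_count_cjone, hew, hvw]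
      have h3 : blk 0 (star (z • (0 : Fin m → ℂ))) (z • (0 : Fin m → ℂ)) (0 : Mn m) =
          (0 : Mn (m + 1)) := by
        have h4 := (h_blkmul m 0 0 0 0 0 0 0 0).2.2.2.2.1 0
        rw [zero_smul] at h4
        rw [h4]
        simp
      rw [h3]
      simp
    have h3 : (fun i => δ (FreeGroup.of i)) = Θ (B, t, τ, z) := funext hδ2
    rw [h2, h3, smul_zero, zero_mul] at h1
    exact h1
  -- the kernel
  have hker : ∀ p : Hn (m + 1) × ℝ × ℝ × ℂ, Θ p = 0 →
      (p.1 ∈ Z0 f) ∧ p.2 = 0 := by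
    rintro ⟨B, t, τ, z⟩ hp
    obtain ⟨δ, hδ1, hδ2, hδ3⟩ := hcoc B t τ z
    have h0 : ∀ g, δ g = 0 := p_count_all hδ1 fun i => by rw [hδ2, hp]; rfl
    obtain ⟨α, r, b, M, hBd⟩ := (h_blkmul m 0 0 0 0 0 0 0 0).2.2.2.2.2.2 (B : Mn (m + 1))
    have key : ∀ g, (t : ℂ) * (ev e g : ℂ) = 0 ∧ b - (ρ g : Mn m).mulVec b + z • v g = 0 ∧
        M - (ρ g : Mn m) * M * star (ρ g : Mn m) + ((t : ℂ) * (ev e g : ℂ)) • (1 : Mn m) +
          ((τ : ℂ) * (ev e g : ℂ)) • (1 : Mn m) = 0 := by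
      intro g
      have h1 := hδ3 g
      rw [h0 g, p_count_conj h_blkmul _ (ρ g) (hf g) B α r b M hBd, hBd] at h1
      have h2 : ∀ (α' : ℂ) (r' b' : Fin m → ℂ) (M' : Mn m), -blk α' r' b' M' =
          blk (-α') (-r') (-b') (-M') := by
        intro α' r' b' M'
        have h3 := (h_blkmul m α' 0 r' 0 b' 0 M' 0).2.2.2.2.1 (-1)
        rw [neg_one_smul] at h3
        rw [h3]
        simp
      have hz : (0 : Mn (m + 1)) = blk 0 0 0 0 := by
        have h4 := (h_blkmul m 0 0 0 0 0 0 0 0).2.2.2.2.1 0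
        rw [zero_smul] at h4
        rw [h4]
        simp
      rw [sub_eq_add_neg, h2, (h_blkmul m _ _ _ _ _ _ _ _).2.2.1,
        (h_blkmul m 0 0 0 0 0 0 0 0).2.2.2.1, (h_blkmul m 1 0 0 0 0 0 1 0).2.2.2.2.1,
        (h_blkmul m 0 0 0 0 0 0 1 0).2.2.2.2.1, (h_blkmul m _ _ _ _ _ _ _ _).2.2.1,
        (h_blkmul m _ _ _ _ _ _ _ _).2.2.1, (h_blkmul m _ _ _ _ _ _ _ _).2.2.1] at h1
      have h5 : (((0 : Hn (m + 1)) : Hn (m + 1)) : Mn (m + 1)) = blk 0 0 0 0 := hz
      rw [h5] at h1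
      obtain ⟨f1, _, f3, f4⟩ := (h_blkmul m _ _ _ _ _ _ _ _).2.2.2.2.2.1 h1
      refine ⟨?_, ?_, ?_⟩
      · have := f1.symm
        push_cast at this
        simpa using this
      · have := f3.symm
        rw [sub_eq_add_neg]
        simpa using this
      · have := f4.symm
        push_cast at this
        rw [sub_eq_add_neg]
        simpa using this
    -- a letter with nonzero exponent
    obtain ⟨i, hi⟩ : ∃ i, e i ≠ 0 := by
      by_contra h
      push Not at h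
      exact he (funext h)
    have hei : (ev e (FreeGroup.of i) : ℂ) ≠ 0 := by
      rw [(h_evmul e).2.1 i]
      exact_mod_cast hi
    have ht : t = 0 := by
      have h1 := (key (FreeGroup.of i)).1
      rcases mul_eq_zero.1 h1 with h | h
      · exact_mod_cast h
      · exact absurd h hei
    have hzz : z = 0 := by
      by_contra hz
      apply hnv
      refine ⟨z⁻¹ • b, fun g => ?_⟩
      have h1 := (key g).2.1
      have h2 : z • v g = (ρ g : Mn m).mulVec b - b := by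
        have h3 : z • v g = -(b - (ρ g : Mn m).mulVec b) := by
          rw [eq_neg_iff_add_eq_zero, add_comm]
          exact h1
        rw [h3, neg_sub]
      calc v g = z⁻¹ • (z • v g) := by rw [smul_smul, inv_mul_cancel₀ hz, one_smul]
        _ = (ρ g : Mn m).mulVec (z⁻¹ • b) - z⁻¹ • b := by
            rw [h2, smul_sub, Matrix.mulVec_smul]
    have hτ : τ = 0 := by
      have h1 := (key (FreeGroup.of i)).2.2
      rw [ht] at h1
      have h2 := congrArg Matrix.trace h1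
      rw [Matrix.trace_add, Matrix.trace_add, Matrix.trace_sub, Matrix.trace_mul_cycle,
        Matrix.UnitaryGroup.star_mul_self, one_mul, sub_self, Matrix.trace_smul,
        Matrix.trace_smul, Matrix.trace_one, Matrix.trace_zero] at h2
      have hmc : ((Fintype.card (Fin m) : ℕ) : ℂ) ≠ 0 := by
        rw [Fintype.card_fin]
        exact_mod_cast (by omega : m ≠ 0)
      simp only [Complex.ofReal_zero, zero_mul, zero_add, smul_eq_mul] at h2
      rcases mul_eq_zero.1 h2 with h | h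
      · rcases mul_eq_zero.1 h with h | h
        · exact_mod_cast h
        · exact absurd h hei
      · exact absurd h hmc
    refine ⟨?_, ?_⟩
    · intro i
      have h1 : Θ (B, t, τ, z) i = 0 := by rw [hp]; rfl
      have h2 := hΘ B t τ z i
      rw [h1, ht, hτ, hzz] at h2
      have h3 : blk 0 (star ((0 : ℂ) • v (FreeGroup.of i))) ((0 : ℂ) • v (FreeGroup.of i))
          (0 : Mn m) = (0 : Mn (m + 1)) := by
        have h4 := (h_blkmul m 0 0 0 0 0 0 0 0).2.2.2.2.1 0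
        rw [zero_smul] at h4
        rw [h4]
        simp
      rw [h3] at h2
      have h4 : ((0 : Hn (m + 1)) : Mn (m + 1)) = 0 := rfl
      rw [h4] at h2
      simp only [zero_mul, Complex.ofReal_zero, zero_smul, add_zero] at h2
      apply Subtype.ext
      exact (sub_eq_zero.1 h2.symm).symm
    · rw [ht, hτ, hzz]
      rfl
  -- dimensions
  have hdim : Module.finrank ℝ (Hn (m + 1) × ℝ × ℝ × ℂ) = D (m + 1) + 4 := by
    rw [Module.finrank_prod, Module.finrank_prod, Module.finrank_prod, Module.finrank_self,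
      Complex.finrank_real_complex]
    unfold D
    ring
  have hrn := LinearMap.finrank_range_add_finrank_ker Θ
  rw [hdim] at hrn
  have hr1 : Module.finrank ℝ (LinearMap.range Θ) ≤ Module.finrank ℝ (kerW f w) :=
    Submodule.finrank_mono hrange
  have hk1 : Module.finrank ℝ (LinearMap.ker Θ) ≤ Module.finrank ℝ (Z0 f) := by
    let φ : LinearMap.ker Θ →ₗ[ℝ] Z0 f :=
      ((LinearMap.fst ℝ (Hn (m + 1)) (ℝ × ℝ × ℂ)) ∘ₗ (LinearMap.ker Θ).subtype).codRestrict (Z0 f)
        (fun p => (hker p.1 p.2).1)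
    refine LinearMap.finrank_le_finrank_of_injective (f := φ) ?_
    intro p q hpq
    have h1 : p.1.1 = q.1.1 := congrArg Subtype.val hpq
    apply Subtype.ext
    apply Prod.ext h1
    rw [(hker p.1 p.2).2, (hker q.1 q.2).2]
  omega

end Pool.Agent.Lib.MP_ef6aaf_al
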