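import Pool.Agent.Lib.MP_ef6aaf_al.StmA

/-! [evmul] The exponent sum is a homomorphism. -/

open MeasureTheory Metric
open scoped Matrix.Norms.L2Operator

namespace Pool.Agent.Lib.MP_ef6aaf_al

theorem p_evmul : S_evmul := by
  intro e
  refine ⟨?_, ?_, ?_, ?_⟩
  · intro g h
    unfold ev
    rw [map_mul, toAdd_mul]
  · intro i
    unfold ev
    rw [FreeGroup.lift_apply_of, toAdd_ofAdd]
  · unfold ev
    rw [map_one, toAdd_one]
  · intro g
    unfold ev
    rw [map_inv, toAdd_inv]

end Pool.Agent.Lib.MP_ef6aaf_al
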