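import Pool.Agent.Lib.MP_ef6aaf_al.StmA

/-!
# The exponential map of the unitary group is smooth, with derivative `i` at `0`
-/

open MeasureTheory Metric
open scoped Matrix.Norms.L2Operator

namespace Pool.Agent.Lib.MP_ef6aaf_al

private noncomputable def p_exder_lin (n : ℕ) : Hn n →ₗ[ℝ] Mn n where
  toFun a := Complex.I • (a : Mn n)
  map_add' a b := by simp
  map_smul' t a := by
    simp only [selfAdjoint.val_smul, RingHom.id_apply]
    exact smul_comm _ _ _

private noncomputable def p_exder_L (n : ℕ) : Hn n →L[ℝ] Mn n :=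
  (p_exder_lin n).toContinuousLinearMap

private theorem p_exder_eq (n : ℕ) :
    (fun a : Hn n => ((ex a : U n) : Mn n)) = fun a => NormedSpace.exp (p_exder_L n a) := by
  funext a
  exact selfAdjoint.expUnitary_coe a

theorem p_exder : S_exder := by
  intro n
  rw [p_exder_eq]
  constructor
  · have h : ContDiff ℝ 2 (NormedSpace.exp : Mn n → Mn n) :=
      contDiff_iff_contDiffAt.2 fun x => (NormedSpace.exp_analytic (𝕂 := ℝ) (𝔸 := Mn n) x).contDiffAt
    exact h.comp (p_exder_L n).contDiff
  · intro a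
    have h1 : HasFDerivAt (NormedSpace.exp : Mn n → Mn n) (1 : Mn n →L[ℝ] Mn n) (p_exder_L n 0) := by
      rw [map_zero]
      exact hasFDerivAt_exp_zero
    have h2 := h1.comp (0 : Hn n) (p_exder_L n).hasFDerivAt
    have h3 : fderiv ℝ (fun a : Hn n => NormedSpace.exp (p_exder_L n a)) 0 =
        (1 : Mn n →L[ℝ] Mn n).comp (p_exder_L n) := h2.fderiv
    rw [h3]
    rfl

end Pool.Agent.Lib.MP_ef6aaf_al
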