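import Pool.Agent.Lib.MP_ef6aaf_al.StmA

set_option autoImplicit false

/-!
# Words inducing Haar measure on unitary groups: words with both exponent sums zero are not Haar
-/

open MeasureTheory Metric
open scoped Matrix.Norms.L2Operator

namespace Pool.Agent.Lib.MP_ef6aaf_al

private theorem p_expo_ev_mul (e : Fin 2 → ℤ) (x y : FreeGroup (Fin 2)) :
    ev e (x * y) = ev e x + ev e y := by
  unfold ev
  rw [map_mul, toAdd_mul]

private theorem p_expo_ev_inv (e : Fin 2 → ℤ) (x : FreeGroup (Fin 2)) :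
    ev e x⁻¹ = - ev e x := by
  unfold ev
  rw [map_inv, toAdd_inv]

private theorem p_expo_ev_of (e : Fin 2 → ℤ) (i : Fin 2) : ev e (FreeGroup.of i) = e i := by
  unfold ev
  rw [FreeGroup.lift_apply_of, toAdd_ofAdd]

private theorem p_expo_ev_one (e : Fin 2 → ℤ) : ev e 1 = 0 := by
  unfold ev
  rw [map_one, toAdd_one]

private theorem p_expo_det_ne {n : ℕ} (u : U n) : ((u : Mn n)).det ≠ 0 := by
  have h1 : (u : Mn n) * star (u : Mn n) = 1 := Unitary.coe_mul_star_self u
  intro h
  have h2 := congrArg Matrix.det h1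
  rw [Matrix.det_mul, h, zero_mul, Matrix.det_one] at h2
  exact zero_ne_one h2

private theorem p_expo_det {n : ℕ} (q : Fin 2 → U n) (w : FreeGroup (Fin 2)) :
    ((FreeGroup.lift q w : U n) : Mn n).det =
      ((q 0 : Mn n).det) ^ (e0 w) * ((q 1 : Mn n).det) ^ (e1 w) := by
  have hinv : ∀ x : FreeGroup (Fin 2), ((FreeGroup.lift q x : U n) : Mn n).det =
      ((q 0 : Mn n).det) ^ (e0 x) * ((q 1 : Mn n).det) ^ (e1 x) →
      ((FreeGroup.lift q x⁻¹ : U n) : Mn n).det =
      ((q 0 : Mn n).det) ^ (e0 x⁻¹) * ((q 1 : Mn n).det) ^ (e1 x⁻¹) := by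
    intro x hx
    have h1 : ((FreeGroup.lift q x⁻¹ : U n) : Mn n).det *
        ((FreeGroup.lift q x : U n) : Mn n).det = 1 := by
      rw [← Matrix.det_mul, map_inv, ← Matrix.det_one (n := Fin n)]
      congr 1
      exact congrArg Subtype.val (inv_mul_cancel (FreeGroup.lift q x))
    rw [hx] at h1
    unfold e0 e1
    rw [p_expo_ev_inv, p_expo_ev_inv, zpow_neg, zpow_neg, ← mul_inv]
    exact eq_inv_of_mul_eq_one_left h1
  induction w using FreeGroup.induction_on with
  | C1 =>
    unfold e0 e1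
    rw [map_one, p_expo_ev_one, p_expo_ev_one]
    simp
  | of i =>
    change ((FreeGroup.lift q (FreeGroup.of i) : U n) : Mn n).det =
      ((q 0 : Mn n).det) ^ (ev ![1, 0] (FreeGroup.of i)) *
        ((q 1 : Mn n).det) ^ (ev ![0, 1] (FreeGroup.of i))
    rw [FreeGroup.lift_apply_of, p_expo_ev_of, p_expo_ev_of]
    fin_cases i <;> simp
  | inv_of i h => exact hinv _ h
  | mul x y hx hy =>
    rw [map_mul]
    have h1 : ((FreeGroup.lift q x * FreeGroup.lift q y : U n) : Mn n).det =
      ((FreeGroup.lift q x : U n) : Mn n).det * ((FreeGroup.lift q y : U n) : Mn n).det :=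
      Matrix.det_mul _ _
    rw [h1, hx, hy]
    unfold e0 e1
    rw [p_expo_ev_mul, p_expo_ev_mul, zpow_add₀ (p_expo_det_ne _), zpow_add₀ (p_expo_det_ne _)]
    ring

private theorem p_expo_scalar (n : ℕ) (hn : 1 ≤ n) :
    ∃ Z : U n, ∀ u : U n, ((Z * u : U n) : Mn n).det = - ((u : Mn n)).det := by
  have hn0 : (n : ℂ) ≠ 0 := by
    exact_mod_cast (by omega : n ≠ 0)
  have hz : (Complex.exp (Real.pi / n * Complex.I)) ^ n = -1 := by
    rw [← Complex.exp_nat_mul]
    have : (n : ℂ) * (Real.pi / n * Complex.I) = Real.pi * Complex.I := by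
      field_simp
    rw [this, Complex.exp_pi_mul_I]
  have hs : Complex.exp (Real.pi / n * Complex.I) *
      star (Complex.exp (Real.pi / n * Complex.I)) = 1 := by
    have h1 : star (Complex.exp (Real.pi / n * Complex.I)) =
        (starRingEnd ℂ) (Complex.exp (Real.pi / n * Complex.I)) := rfl
    rw [h1, Complex.mul_conj, Complex.normSq_eq_norm_sq]
    have : (Real.pi / n * Complex.I : ℂ) = ((Real.pi / n : ℝ) : ℂ) * Complex.I := by
      push_cast
      rfl
    rw [this, Complex.norm_exp_ofReal_mul_I]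
    norm_num
  have hU : (Complex.exp (Real.pi / n * Complex.I)) • (1 : Mn n) ∈
      Matrix.unitaryGroup (Fin n) ℂ := by
    rw [Matrix.mem_unitaryGroup_iff, star_smul, star_one, smul_mul_smul_comm, mul_one, hs,
      one_smul]
  refine ⟨⟨_, hU⟩, fun u => ?_⟩
  change ((Complex.exp (Real.pi / n * Complex.I)) • (1 : Mn n) * (u : Mn n)).det = _
  rw [smul_mul_assoc, one_mul, Matrix.det_smul, Fintype.card_fin, hz]
  ring

theorem p_expo (h_exmu : S_exmu) : S_expo := by
  rintro n w hn hw ⟨h0, h1⟩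
  refine h_exmu n False ?_
  intro _ _ μ _ _
  have hmap := hw μ
  have hne : NeZero (Measure.map (fun f : Fin 2 → U n => FreeGroup.lift f w)
      (Measure.pi fun _ => μ)) := by
    rw [hmap]
    exact ⟨IsProbabilityMeasure.ne_zero μ⟩
  have hae : AEMeasurable (fun f : Fin 2 → U n => FreeGroup.lift f w)
      (Measure.pi fun _ => μ) := aemeasurable_of_map_neZero hne
  have hcont : Continuous (fun u : U n => ((u : Mn n)).det) :=
    continuous_subtype_val.matrix_det
  have hE : ∀ c : ℂ, MeasurableSet {u : U n | ((u : Mn n)).det = c} := fun c =>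
    (isClosed_eq hcont continuous_const).measurableSet
  have hE1 : μ {u : U n | ((u : Mn n)).det = 1} = 1 := by
    conv_lhs => rw [← hmap]
    rw [Measure.map_apply_of_aemeasurable hae (hE 1)]
    have : (fun f : Fin 2 → U n => FreeGroup.lift f w) ⁻¹' {u : U n | ((u : Mn n)).det = 1} =
        Set.univ := by
      ext q
      simp only [Set.mem_preimage, Set.mem_ofPred_eq, Set.mem_univ, iff_true]
      rw [p_expo_det, h0, h1]
      simp
    rw [this, measure_univ]
  obtain ⟨Z, hZ⟩ := p_expo_scalar n hn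
  have hE2 : μ {u : U n | ((u : Mn n)).det = -1} = 1 := by
    rw [← measure_preimage_mul μ Z]
    have : (fun h => Z * h) ⁻¹' {u : U n | ((u : Mn n)).det = -1} =
        {u : U n | ((u : Mn n)).det = 1} := by
      ext u
      simp only [Set.mem_preimage, Set.mem_ofPred_eq]
      rw [hZ u]
      exact neg_inj
    rw [this]
    exact hE1
  have hd : Disjoint {u : U n | ((u : Mn n)).det = 1} {u : U n | ((u : Mn n)).det = -1} := by
    rw [Set.disjoint_left]
    intro u hu hu'
    rw [Set.mem_ofPred_eq] at hu hu'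
    rw [hu] at hu'
    norm_num at hu'
  have h3 := measure_union (μ := μ) hd (hE (-1))
  have h4 : μ ({u : U n | ((u : Mn n)).det = 1} ∪ {u : U n | ((u : Mn n)).det = -1}) ≤ 1 :=
    prob_le_one
  rw [h3, hE1, hE2] at h4
  norm_num at h4

end Pool.Agent.Lib.MP_ef6aaf_al
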