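import Pool.Agent.Lib.MP_ef6aaf_al.StmB

set_option autoImplicit false

open MeasureTheory Metric
open scoped Matrix.Norms.L2Operator

namespace Pool.Agent.Lib.MP_ef6aaf_al

private theorem p_fin_dep {V : Type*} [AddCommGroup V] [Module ℝ V] (h : Module.rank ℝ V ≤ 1) (x y : V) :
    ∃ s t : ℝ, (s ≠ 0 ∨ t ≠ 0) ∧ s • x + t • y = 0 := by
  obtain ⟨v, hv⟩ := rank_le_one_iff.1 h
  obtain ⟨r, rfl⟩ := hv x
  obtain ⟨q, rfl⟩ := hv y
  by_cases hr : r = 0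
  · refine ⟨1, 0, Or.inl one_ne_zero, ?_⟩
    rw [hr, zero_smul, smul_zero, zero_smul, add_zero]
  · refine ⟨q, -r, Or.inr (neg_ne_zero.2 hr), ?_⟩
    rw [smul_smul, smul_smul, ← add_smul, neg_mul, mul_comm r q, add_neg_cancel, zero_smul]

theorem p_fin (h_shap : S_shap) : S_fin := by
  intro Γ _ hΓ H hH hb
  obtain ⟨ρ, b, T, hfix, hcoc, hcob, hT, hort⟩ := h_shap Γ H hH
  have key : ∀ χ : Additive H →+ ℝ, T χ = 0 → χ = 0 := fun χ hχ =>
    hcob χ (hb ρ (b χ) hfix (hcoc χ) (hort χ hχ))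
  rw [rank_le_one_iff]
  by_cases h0 : ∃ ψ : Additive H →+ ℝ, ψ ≠ 0
  · obtain ⟨ψ, hψ⟩ := h0
    refine ⟨ψ, fun φ => ?_⟩
    obtain ⟨s, t, hst, h1⟩ := p_fin_dep hΓ (T φ) (T ψ)
    rw [← hT] at h1
    have h2 := key _ h1
    have hs : s ≠ 0 := by
      rintro rfl
      rw [zero_smul, zero_add] at h2
      rcases smul_eq_zero.1 h2 with h3 | h3
      · rcases hst with h4 | h4
        · exact h4 rfl
        · exact h4 h3
      · exact hψ h3
    refine ⟨-(t / s), ?_⟩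
    have h3 : s • (φ - (-(t / s)) • ψ) = 0 := by
      rw [smul_sub, smul_smul, mul_neg, mul_div_cancel₀ t hs, neg_smul, sub_neg_eq_add]
      exact h2
    rcases smul_eq_zero.1 h3 with h4 | h4
    · exact absurd h4 hs
    · exact (sub_eq_zero.1 h4).symm
  · refine ⟨0, fun φ => ⟨0, ?_⟩⟩
    rw [zero_smul]
    by_contra h1
    exact h0 ⟨φ, fun h2 => h1 h2.symm⟩

end Pool.Agent.Lib.MP_ef6aaf_al
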