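import Pool.Agent.Lib.MP_ef6aaf_al.StmA

/-!
# Piece [fub]: the Fubini lemma
-/

open MeasureTheory Metric
open scoped Matrix.Norms.L2Operator

namespace Pool.Agent.Lib.MP_ef6aaf_al

theorem p_fub : S_fub := by
  intro X _ _ _ _ μ _ ι _ A Ψ K ε β N hA hΨ hK hε hlip hball hN hNq
  set Z : Set ((ι → ℝ) × X) := {p | dist p.2 (Ψ p.1) ≤ ε} with hZ
  have hZc : IsClosed Z :=
    isClosed_le (continuous_snd.dist (hΨ.comp continuous_fst)) continuous_const
  have hZm : MeasurableSet Z := hZc.measurableSet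
  let f : (ι → ℝ) → X → ENNReal := fun ξ q => Z.indicator 1 (ξ, q)
  have hfm : Measurable (Function.uncurry f) := by
    have h1 : Function.uncurry f = Z.indicator 1 := by
      funext p
      rfl
    rw [h1]
    exact measurable_one.indicator hZm
  have hin : ∀ ξ : ι → ℝ, ∫⁻ q, f ξ q ∂μ = μ (closedBall (Ψ ξ) ε) := by
    intro ξ
    have h1 : (fun q => f ξ q) = (closedBall (Ψ ξ) ε).indicator 1 := by
      funext q
      by_cases hq : dist q (Ψ ξ) ≤ ε
      · have h2 : q ∈ closedBall (Ψ ξ) ε := hq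
        have h3 : (ξ, q) ∈ Z := hq
        rw [Set.indicator_of_mem h2]
        exact Set.indicator_of_mem h3 _
      · have h2 : q ∉ closedBall (Ψ ξ) ε := hq
        have h3 : (ξ, q) ∉ Z := hq
        rw [Set.indicator_of_notMem h2]
        exact Set.indicator_of_notMem h3 _
    rw [h1, lintegral_indicator_one measurableSet_closedBall]
  have hout : ∀ q : X, ∫⁻ ξ, f ξ q ∂(volume.restrict A) ≤
      N.indicator (fun _ => ENNReal.ofReal ((4 * K * ε) ^ Fintype.card ι)) q := by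
    intro q
    have hQm : MeasurableSet {ξ : ι → ℝ | dist q (Ψ ξ) ≤ ε} :=
      (isClosed_le (continuous_const.dist hΨ) continuous_const).measurableSet
    have h1 : (fun ξ => f ξ q) = {ξ : ι → ℝ | dist q (Ψ ξ) ≤ ε}.indicator 1 := by
      funext ξ
      by_cases hq : dist q (Ψ ξ) ≤ ε
      · have h2 : ξ ∈ {ξ : ι → ℝ | dist q (Ψ ξ) ≤ ε} := hq
        have h3 : (ξ, q) ∈ Z := hq
        rw [Set.indicator_of_mem h2]
        exact Set.indicator_of_mem h3 _
      · have h2 : ξ ∉ {ξ : ι → ℝ | dist q (Ψ ξ) ≤ ε} := hq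
        have h3 : (ξ, q) ∉ Z := hq
        rw [Set.indicator_of_notMem h2]
        exact Set.indicator_of_notMem h3 _
    rw [h1, lintegral_indicator_one hQm, Measure.restrict_apply hQm]
    rcases Set.eq_empty_or_nonempty ({ξ : ι → ℝ | dist q (Ψ ξ) ≤ ε} ∩ A) with he | ⟨ξ₀, h0, h0A⟩
    · rw [he, measure_empty]
      exact bot_le
    · have hqN : q ∈ N := hNq ξ₀ h0A q h0
      rw [Set.indicator_of_mem hqN]
      have hsub : {ξ : ι → ℝ | dist q (Ψ ξ) ≤ ε} ∩ A ⊆ closedBall ξ₀ (2 * K * ε) := by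
        rintro ξ ⟨h2, h3⟩
        rw [mem_closedBall, dist_eq_norm]
        have h4 : dist (Ψ ξ) (Ψ ξ₀) ≤ 2 * ε := by
          have h5 : dist (Ψ ξ) (Ψ ξ₀) ≤ dist (Ψ ξ) q + dist q (Ψ ξ₀) := dist_triangle _ _ _
          have h6 : dist (Ψ ξ) q ≤ ε := by
            rw [dist_comm]
            exact h2
          have h7 : dist q (Ψ ξ₀) ≤ ε := h0
          linarith
        calc ‖ξ - ξ₀‖ ≤ K * dist (Ψ ξ) (Ψ ξ₀) := hlip ξ h3 ξ₀ h0A
          _ ≤ K * (2 * ε) := mul_le_mul_of_nonneg_left h4 hK.le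
          _ = 2 * K * ε := by ring
      refine (measure_mono hsub).trans ?_
      rw [Real.volume_pi_closedBall ξ₀ (by positivity)]
      have h8 : 2 * (2 * K * ε) = 4 * K * ε := by ring
      rw [h8]
  calc β * volume A = ∫⁻ _ in A, β := by rw [setLIntegral_const]
    _ ≤ ∫⁻ ξ in A, μ (closedBall (Ψ ξ) ε) := setLIntegral_mono' hA fun ξ hξ => hball ξ hξ
    _ = ∫⁻ ξ in A, ∫⁻ q, f ξ q ∂μ := by
        refine lintegral_congr fun ξ => ?_
        rw [hin ξ]
    _ = ∫⁻ q, ∫⁻ ξ, f ξ q ∂(volume.restrict A) ∂μ := lintegral_lintegral_swap hfm.aemeasurable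
    _ ≤ ∫⁻ q, N.indicator (fun _ => ENNReal.ofReal ((4 * K * ε) ^ Fintype.card ι)) q ∂μ :=
        lintegral_mono hout
    _ = ENNReal.ofReal ((4 * K * ε) ^ Fintype.card ι) * μ N := by
        rw [lintegral_indicator hN, setLIntegral_const]

end Pool.Agent.Lib.MP_ef6aaf_al
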