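import Pool.Agent.Lib.MP_ef6aaf_al.StmA

/-!
# Invariance of the measure of balls in the unitary group
-/

open MeasureTheory Metric
open scoped Matrix.Norms.L2Operator

namespace Pool.Agent.Lib.MP_ef6aaf_al

private theorem p_inv_dist {n : ℕ} (g h : U n) : dist (g⁻¹ * h) 1 = dist h g := by
  rw [Subtype.dist_eq, Subtype.dist_eq, dist_eq_norm, dist_eq_norm]
  have e : ((g⁻¹ * h : U n) : Mn n) - ((1 : U n) : Mn n) =
      ((g⁻¹ : U n) : Mn n) * ((h : Mn n) - (g : Mn n)) := by
    rw [mul_sub]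
    congr 1
    have : ((g⁻¹ * g : U n) : Mn n) = ((1 : U n) : Mn n) := by rw [inv_mul_cancel]
    exact this.symm
  rw [e]
  exact CStarRing.norm_coe_unitary_mul _ _

theorem p_inv : S_inv := by
  intro n _ _ μ _ _ g ε
  have h : closedBall g ε = (fun h => g⁻¹ * h) ⁻¹' closedBall (1 : U n) ε := by
    ext h
    simp only [mem_closedBall, Set.mem_preimage]
    rw [p_inv_dist]
  rw [h, measure_preimage_mul]

end Pool.Agent.Lib.MP_ef6aaf_al
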