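import Pool.Agent.Lib.MP_ef6aaf_al.StmB

/-!
# Words inducing Haar measure on unitary groups, piece [irr]
-/

open MeasureTheory Metric Matrix
open scoped Matrix.Norms.L2Operator

namespace Pool.Agent.Lib.MP_ef6aaf_al

private lemma p_irr_ev (h_evmul : S_evmul) (e : Fin 2 → ℤ) (g : FreeGroup (Fin 2)) :
    ev e g = e 0 * e0 g + e 1 * e1 g := by
  obtain ⟨m1, l1, u1, i1⟩ := h_evmul e
  obtain ⟨m2, l2, u2, i2⟩ := h_evmul ![1, 0]
  obtain ⟨m3, l3, u3, i3⟩ := h_evmul ![0, 1]
  unfold e0 e1
  induction g using FreeGroup.induction_on with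
  | C1 => rw [u1, u2, u3]; ring
  | of i =>
    have hi : i = 0 ∨ i = 1 := by fin_cases i <;> simp
    rcases hi with rfl | rfl
    · rw [l1, l2, l3]
      simp
    · rw [l1, l2, l3]
      simp
  | inv_of i ih =>
    rw [i1, i2, i3, ih]; ring
  | mul x y hx hy =>
    rw [m1, m2, m3, hx, hy]; ring

theorem p_irr (h_GC : S_GC) (h_expo : S_expo) (h_blkmul : S_blkmul) (h_blkrep : S_blkrep)
    (h_schur : S_schur) (h_count : S_count) (h_evmul : S_evmul) : S_irr := by
  intro m w hm hHaar ρ hirr hfix b hb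
  by_contra hnc
  have hexp := h_expo (m + 1) w (by omega) hHaar
  set e : Fin 2 → ℤ := ![- e1 w, e0 w] with he
  have he0 : e ≠ 0 := by
    intro h
    apply hexp
    have h0 := congrFun h 0
    have h1 := congrFun h 1
    simp [he] at h0 h1
    exact ⟨h1, h0⟩
  have hev : ev e w = 0 := by
    rw [p_irr_ev h_evmul]
    simp only [he, Matrix.cons_val_zero, Matrix.cons_val_one]
    ring
  set π : FreeGroup (Fin 2) →* G w := QuotientGroup.mk' (Subgroup.normalClosure {w}) with hπ
  have hπw : π w = 1 := by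
    rw [hπ, QuotientGroup.mk'_apply, QuotientGroup.eq_one_iff]
    exact Subgroup.subset_normalClosure (Set.mem_singleton w)
  have hπs : Function.Surjective π := QuotientGroup.mk'_surjective _
  set ρ' : FreeGroup (Fin 2) →* U m := ρ.comp π with hρ'
  set v : FreeGroup (Fin 2) → Fin m → ℂ := fun g => b (π g) with hv
  obtain ⟨f, hf⟩ := h_blkrep m ρ'
  have hρw : ρ' w = 1 := by rw [hρ', MonoidHom.comp_apply, hπw, map_one]
  have hb1 : b 1 = 0 := by
    have h := hb 1 1
    rw [mul_one, map_one] at h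
    simpa using h
  have hvw : v w = 0 := by
    change b (π w) = 0
    rw [hπw, hb1]
  have hliftw : FreeGroup.lift f w = 1 := by
    apply Subtype.ext
    rw [hf w, hρw]
    exact (h_blkmul m 0 0 0 0 0 0 0 0).2.2.2.1.symm
  have hcoc : IsCocycle ρ' v := by
    intro g h
    change b (π (g * h)) = b (π g) + _
    rw [map_mul, hb]
    rfl
  have hncob : ¬ IsCobound ρ' v := by
    rintro ⟨u, hu⟩
    refine hnc ⟨u, fun g => ?_⟩
    obtain ⟨g', rfl⟩ := hπs g
    exact hu g'
  have hirr' : IsIrr ρ' := by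
    intro W hW
    refine hirr W fun g x hx => ?_
    obtain ⟨g', rfl⟩ := hπs g
    exact hW g' x hx
  have hfix' : ∀ u, IsFixed ρ' u → u = 0 := by
    intro u hu
    refine hfix u fun g => ?_
    obtain ⟨g', rfl⟩ := hπs g
    exact hu g'
  have c1 := h_GC (m + 1) w f e (by omega) hHaar he0 hliftw hev
  have c2 := h_schur m ρ' f hm hf hirr' hfix'
  have c3 := h_count m w ρ' f e v hm hf hcoc hncob he0 hev hρw hvw
  omega

end Pool.Agent.Lib.MP_ef6aaf_al
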