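import Pool.Agent.Lib.MP_ef6aaf_al.StmA

open MeasureTheory Metric
open scoped Matrix.Norms.L2Operator

namespace Pool.Agent.Lib.MP_ef6aaf_al

/-- [linalg] Coordinates on a complement of the kernel and on a complement of the range. -/
theorem p_linalg : S_linalg := by
  intro V W _ _ _ _ _ _ Θ K hK
  -- `K` as a space of its own, `R` the range inside `K`, and a complement `C` of `R` in `K`
  let R : Submodule ℝ K := (LinearMap.range Θ).comap K.subtype
  obtain ⟨C, hC⟩ := Submodule.exists_isCompl R
  have hRmap : R.map K.subtype = LinearMap.range Θ := by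
    rw [Submodule.map_comap_subtype]
    exact inf_eq_right.mpr hK
  have hRrank : Module.finrank ℝ R = Module.finrank ℝ (LinearMap.range Θ) := by
    rw [← hRmap]
    exact (LinearEquiv.finrank_eq (Submodule.equivMapOfInjective K.subtype K.injective_subtype R))
  -- a linear right inverse of `Θ` on its range
  obtain ⟨s, hs⟩ := Θ.rangeRestrict.exists_rightInverse_of_surjective
    (LinearMap.range_rangeRestrict Θ)
  have hs' : ∀ r : LinearMap.range Θ, Θ (s r) = r := by
    intro r
    have h := LinearMap.congr_fun hs r
    have h2 := congrArg Subtype.val h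
    simpa using h2
  let bR := Module.finBasis ℝ (LinearMap.range Θ)
  let bC := Module.finBasis ℝ C
  refine ⟨Module.finrank ℝ (LinearMap.range Θ), Module.finrank ℝ C,
    s ∘ₗ (bR.equivFun.symm : _ →ₗ[ℝ] _),
    K.subtype ∘ₗ C.subtype ∘ₗ (bC.equivFun.symm : _ →ₗ[ℝ] _), ?_, ?_, ?_, ?_⟩
  · exact LinearMap.finrank_range_add_finrank_ker Θ
  · rw [← hRrank]
    exact Submodule.finrank_add_eq_of_isCompl hC
  · intro η
    exact (C.subtype (bC.equivFun.symm η)).2
  · intro ξ η h
    have h1 : ((bR.equivFun.symm ξ : LinearMap.range Θ) : W)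
        + ((bC.equivFun.symm η : C) : K) = 0 := by
      rw [← hs' (bR.equivFun.symm ξ)]
      exact h
    have hrK : ((bR.equivFun.symm ξ : LinearMap.range Θ) : W) ∈ K := hK (bR.equivFun.symm ξ).2
    let r : K := ⟨_, hrK⟩
    have h2 : r + ((bC.equivFun.symm η : C) : K) = 0 := by
      apply Subtype.ext
      simpa [r] using h1
    have hrR : r ∈ R := by
      change (r : W) ∈ LinearMap.range Θ
      exact (bR.equivFun.symm ξ).2
    have hrC : r ∈ C := by
      have : r = -((bC.equivFun.symm η : C) : K) := eq_neg_of_add_eq_zero_left h2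
      rw [this]
      exact C.neg_mem (bC.equivFun.symm η).2
    have hr0 : r = 0 := by
      have := Submodule.disjoint_def.mp hC.disjoint r hrR hrC
      exact this
    constructor
    · have h3 : (bR.equivFun.symm ξ : LinearMap.range Θ) = 0 := by
        apply Subtype.ext
        have := congrArg Subtype.val hr0
        simpa [r] using this
      exact (LinearEquiv.map_eq_zero_iff _).mp h3
    · have h3 : (bC.equivFun.symm η : C) = 0 := by
        apply Subtype.ext
        rw [hr0, zero_add] at h2
        simpa using h2
      exact (LinearEquiv.map_eq_zero_iff _).mp h3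

end Pool.Agent.Lib.MP_ef6aaf_al
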