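import Pool.Agent.Lib.MP_ef6aaf_al.StmA

/-!
Lower bound for the Haar measure of small balls of the unitary group.
-/

set_option autoImplicit false

open MeasureTheory Metric
open scoped Matrix.Norms.L2Operator

namespace Pool.Agent.Lib.MP_ef6aaf_al

private theorem p_low_one (M : ℕ) (R : ℝ) (hR : 0 < R) (hM : 1 ≤ M) (x : ℝ) (hx : |x| ≤ R) :
    ∃ k : Fin M, |x - (-R + (2 * ((k : ℕ) : ℝ) + 1) * (R / M))| ≤ R / M := by
  have hM0 : (0 : ℝ) < M := by exact_mod_cast hM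
  obtain ⟨h1, h2⟩ := abs_le.1 hx
  set y : ℝ := (x + R) * M / (2 * R) with hy
  have hxy : x = -R + 2 * y * (R / M) := by
    rw [hy]
    field_simp
    ring
  have hy0 : 0 ≤ y := by
    rw [hy]
    apply div_nonneg _ (by positivity)
    exact mul_nonneg (by linarith) hM0.le
  have hyM : y ≤ M := by
    rw [hy, div_le_iff₀ (by positivity)]
    nlinarith
  have key : ∀ k : ℕ, (k : ℝ) ≤ y → y ≤ k + 1 →
      |x - (-R + (2 * (k : ℝ) + 1) * (R / M))| ≤ R / M := by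
    intro k hk1 hk2
    have e : x - (-R + (2 * (k : ℝ) + 1) * (R / M)) = (2 * (y - k) - 1) * (R / M) := by
      rw [hxy]
      ring
    rw [e, abs_mul, abs_of_pos (div_pos hR hM0)]
    apply mul_le_of_le_one_left (div_pos hR hM0).le
    rw [abs_le]
    constructor <;> linarith
  rcases lt_or_ge ⌊y⌋₊ M with h | h
  · exact ⟨⟨⌊y⌋₊, h⟩, key _ (Nat.floor_le hy0) (Nat.lt_floor_add_one y).le⟩
  · have h3 : (M : ℝ) ≤ y := (Nat.cast_le.2 h).trans (Nat.floor_le hy0)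
    refine ⟨⟨M - 1, by omega⟩, key (M - 1) ?_ ?_⟩
    · rw [Nat.cast_sub hM]
      push_cast
      linarith
    · rw [Nat.cast_sub hM]
      push_cast
      linarith

private theorem p_low_grid (m M : ℕ) (R : ℝ) (hR : 0 < R) (hM : 1 ≤ M) :
    ∃ c : (Fin m → Fin M) → (Fin m → ℝ), (∀ g, ‖c g‖ ≤ R) ∧
      ∀ ξ : Fin m → ℝ, ‖ξ‖ ≤ R → ∃ g, ‖ξ - c g‖ ≤ R / M := by
  have hM0 : (0 : ℝ) < M := by exact_mod_cast hM
  refine ⟨fun g i => -R + (2 * (((g i : Fin M) : ℕ) : ℝ) + 1) * (R / M), fun g => ?_,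
    fun ξ hξ => ?_⟩
  · rw [pi_norm_le_iff_of_nonneg hR.le]
    intro i
    have h1 : (((g i : Fin M) : ℕ) : ℝ) + 1 ≤ M := by exact_mod_cast (g i).2
    have h2 : (0 : ℝ) ≤ (((g i : Fin M) : ℕ) : ℝ) := by positivity
    have h3 : (0 : ℝ) < R / M := div_pos hR hM0
    have h4 : (M : ℝ) * (R / M) = R := by field_simp
    rw [Real.norm_eq_abs, abs_le]
    constructor <;> nlinarith
  · choose g hg using fun i => p_low_one M R hR hM (ξ i) ((norm_le_pi_norm ξ i).trans hξ)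
    refine ⟨g, ?_⟩
    rw [pi_norm_le_iff_of_nonneg (div_pos hR hM0).le]
    exact fun i => hg i

theorem p_low (h_inv : S_inv) (h_exder : S_exder) : S_low := by
  intro n _ _ μ _ _
  have hfr : Module.finrank ℝ (Fin (D n) → ℝ) = Module.finrank ℝ (Hn n) := by
    rw [Module.finrank_fin_fun]
    rfl
  let J : (Fin (D n) → ℝ) ≃L[ℝ] Hn n := ContinuousLinearEquiv.ofFinrankEq hfr
  set R : ℝ := ‖(J.symm : Hn n →L[ℝ] (Fin (D n) → ℝ))‖ * Real.pi + 1 with hRdef
  have hR : 0 < R := by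
    have := Real.pi_pos
    positivity
  have hsurj : ∀ q : U n, ‖(q : Mn n) - 1‖ < 2 → ∃ ξ : Fin (D n) → ℝ, ‖ξ‖ ≤ R ∧ ex (J ξ) = q := by
    intro q hq
    refine ⟨J.symm (Unitary.argSelfAdjoint q), ?_, ?_⟩
    · have h1 := (J.symm : Hn n →L[ℝ] (Fin (D n) → ℝ)).le_opNorm (Unitary.argSelfAdjoint q)
      have h2 := Unitary.norm_argSelfAdjoint_le_pi q
      have h3 := mul_le_mul_of_nonneg_left h2
        (norm_nonneg (J.symm : Hn n →L[ℝ] (Fin (D n) → ℝ)))
      refine h1.trans (h3.trans ?_)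
      rw [hRdef]
      linarith
    · rw [ContinuousLinearEquiv.apply_symm_apply]
      exact expUnitary_argSelfAdjoint hq
  have hΦ : ContDiff ℝ 2 (fun ξ : Fin (D n) → ℝ => ((ex (J ξ) : U n) : Mn n)) :=
    (h_exder n).1.comp J.contDiff
  have hLip : ∃ L : ℝ, 0 < L ∧ ∀ ξ ξ' : Fin (D n) → ℝ, ‖ξ‖ ≤ R → ‖ξ'‖ ≤ R →
      dist (ex (J ξ)) (ex (J ξ')) ≤ L * ‖ξ - ξ'‖ := by
    obtain ⟨C, hC⟩ := (isCompact_closedBall (0 : Fin (D n) → ℝ) R).exists_bound_of_continuousOn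
      (hΦ.continuous_fderiv (by norm_num)).continuousOn
    refine ⟨|C| + 1, by positivity, fun ξ ξ' h1 h2 => ?_⟩
    have h3 := Convex.norm_image_sub_le_of_norm_fderiv_le (𝕜 := ℝ)
      (f := fun ξ : Fin (D n) → ℝ => ((ex (J ξ) : U n) : Mn n)) (C := |C| + 1)
      (s := closedBall 0 R) (x := ξ') (y := ξ)
      (fun x _ => (hΦ.differentiable (by norm_num)) x)
      (fun x hx => (hC x hx).trans ((le_abs_self C).trans (by linarith)))
      (convex_closedBall 0 R) (mem_closedBall_zero_iff.2 h2) (mem_closedBall_zero_iff.2 h1)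
    rw [Subtype.dist_eq, dist_eq_norm]
    exact h3
  obtain ⟨L, hL, hLip⟩ := hLip
  have hpos : 0 < μ (closedBall (1 : U n) 1) := by
    have := isOpenPosMeasure_of_mulLeftInvariant_of_compact (μ := μ) Set.univ isCompact_univ
      (by simp)
    exact measure_closedBall_pos μ 1 one_pos
  have hfin : ∀ r : ℝ, μ (closedBall (1 : U n) r) ≠ ⊤ := fun r => measure_ne_top μ _
  have ha : 0 < (μ (closedBall (1 : U n) 1)).toReal := ENNReal.toReal_pos hpos.ne' (hfin 1)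
  refine ⟨(μ (closedBall (1 : U n) 1)).toReal / (L * R + 1) ^ D n, by positivity,
    fun ε hε hε1 => ?_⟩
  set M : ℕ := ⌈L * R / ε⌉₊ with hMdef
  have hM1 : L * R / ε ≤ M := Nat.le_ceil _
  have hM2 : 1 ≤ M := Nat.ceil_pos.2 (by positivity)
  have hM3 : (M : ℝ) * ε ≤ L * R + 1 := by
    have h1 : (M : ℝ) < L * R / ε + 1 := Nat.ceil_lt_add_one (by positivity)
    have h2 : L * R / ε * ε = L * R := by field_simp
    nlinarith
  have hM0 : (0 : ℝ) < M := by exact_mod_cast hM2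
  obtain ⟨c, hc1, hc2⟩ := p_low_grid (D n) M R hR hM2
  have hcov : closedBall (1 : U n) 1 ⊆ ⋃ g, closedBall (ex (J (c g))) ε := by
    intro q hq
    have h1 : ‖(q : Mn n) - 1‖ < 2 := by
      have h2 := mem_closedBall.1 hq
      rw [Subtype.dist_eq, dist_eq_norm] at h2
      exact lt_of_le_of_lt h2 (by norm_num)
    obtain ⟨ξ, hξ, rfl⟩ := hsurj q h1
    obtain ⟨g, hg⟩ := hc2 ξ hξ
    refine Set.mem_iUnion.2 ⟨g, mem_closedBall.2 ((hLip ξ (c g) hξ (hc1 g)).trans ?_)⟩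
    have h2 : L * ‖ξ - c g‖ ≤ L * (R / M) := mul_le_mul_of_nonneg_left hg hL.le
    refine h2.trans ?_
    rw [← mul_div_assoc, div_le_iff₀ hM0]
    rw [div_le_iff₀ hε] at hM1
    linarith
  have hmeas : μ (closedBall (1 : U n) 1) ≤ (M ^ D n : ℕ) * μ (closedBall (1 : U n) ε) := by
    refine (measure_mono hcov).trans ((measure_iUnion_fintype_le μ _).trans (le_of_eq ?_))
    simp only [h_inv n μ _ ε, Finset.sum_const, Finset.card_univ, Fintype.card_fun, Fintype.card_fin,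
      nsmul_eq_mul]
  have hreal : (μ (closedBall (1 : U n) 1)).toReal ≤
      (M : ℝ) ^ D n * (μ (closedBall (1 : U n) ε)).toReal := by
    have h1 := ENNReal.toReal_mono (ENNReal.mul_ne_top (ENNReal.natCast_ne_top _) (hfin ε)) hmeas
    rw [ENNReal.toReal_mul, ENNReal.toReal_natCast, Nat.cast_pow] at h1
    exact h1
  rw [← ENNReal.ofReal_toReal (hfin ε)]
  apply ENNReal.ofReal_le_ofReal
  rw [div_mul_eq_mul_div, div_le_iff₀ (by positivity)]
  calc (μ (closedBall (1 : U n) 1)).toReal * ε ^ D n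
      ≤ ((M : ℝ) ^ D n * (μ (closedBall (1 : U n) ε)).toReal) * ε ^ D n :=
        mul_le_mul_of_nonneg_right hreal (by positivity)
    _ = (μ (closedBall (1 : U n) ε)).toReal * ((M : ℝ) * ε) ^ D n := by
        rw [mul_pow]
        ring
    _ ≤ (μ (closedBall (1 : U n) ε)).toReal * (L * R + 1) ^ D n :=
        mul_le_mul_of_nonneg_left (pow_le_pow_left₀ (by positivity) hM3 _) ENNReal.toReal_nonneg

end Pool.Agent.Lib.MP_ef6aaf_al
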