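import Pool.Agent.Lib.MP_ef6aaf_al.StmB

open MeasureTheory Metric Matrix
open scoped Matrix.Norms.L2Operator

namespace Pool.Agent.Lib.MP_ef6aaf_al

/-- An orthonormal basis of a subspace, as a matrix. -/
lemma p_onb_basis (k : ℕ) (W : Submodule ℂ (Fin k → ℂ)) :
    ∃ (J : Matrix (Fin k) (Fin (Module.finrank ℂ W)) ℂ), Jᴴ * J = 1 ∧
      (∀ x, J.mulVec x ∈ W) ∧ (∀ x ∈ W, J.mulVec (Jᴴ.mulVec x) = x) := by
  classical
  let e : EuclideanSpace ℂ (Fin k) ≃ₗ[ℂ] (Fin k → ℂ) := WithLp.linearEquiv 2 ℂ (Fin k → ℂ)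
  let W' : Submodule ℂ (EuclideanSpace ℂ (Fin k)) := W.comap e.toLinearMap
  have hfr : Module.finrank ℂ W' = Module.finrank ℂ W := by
    have h1 : W = W'.map e.toLinearMap := by
      rw [Submodule.map_comap_eq_of_surjective e.surjective]
    conv_rhs => rw [h1]
    exact (LinearEquiv.finrank_map_eq e W').symm
  let b : OrthonormalBasis (Fin (Module.finrank ℂ W)) ℂ W' :=
    (stdOrthonormalBasis ℂ W').reindex (finCongr hfr)
  let J : Matrix (Fin k) (Fin (Module.finrank ℂ W)) ℂ := fun i j => e (b j : EuclideanSpace ℂ (Fin k)) i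
  have hmem : ∀ y : W', e (y : EuclideanSpace ℂ (Fin k)) ∈ W := fun y => y.2
  have hJ : ∀ x, J.mulVec x = e ((∑ j, x j • b j : W') : EuclideanSpace ℂ (Fin k)) := by
    intro x
    ext i
    simp only [Matrix.mulVec, dotProduct, J, Submodule.coe_sum, Submodule.coe_smul, map_sum, map_smul,
      Finset.sum_apply, Pi.smul_apply, smul_eq_mul]
    exact Finset.sum_congr rfl fun j _ => mul_comm _ _
  refine ⟨J, ?_, ?_, ?_⟩
  · ext i j
    have h := orthonormal_iff_ite.mp b.orthonormal i j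
    rw [Matrix.one_apply, Matrix.mul_apply]
    rw [← h]
    rw [Submodule.coe_inner, PiLp.inner_apply]
    refine Finset.sum_congr rfl fun a _ => ?_
    rw [Matrix.conjTranspose_apply]
    simp [J, e, mul_comm]
  · intro x
    rw [hJ]
    exact hmem _
  · intro x hx
    let y : W' := ⟨e.symm x, by simpa [W'] using hx⟩
    have h1 : (Jᴴ.mulVec x) = fun j => inner ℂ (b j) y := by
      funext j
      rw [Submodule.coe_inner, PiLp.inner_apply]
      simp only [Matrix.mulVec, dotProduct]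
      refine Finset.sum_congr rfl fun a _ => ?_
      rw [Matrix.conjTranspose_apply]
      simp [J, e, y, mul_comm]
    rw [h1, hJ]
    have h2 : (∑ j, (inner ℂ (b j) y : ℂ) • b j : W') = y := b.sum_repr' y
    rw [h2]
    simp [y]

theorem p_onb : S_onb := by
  intro Γ _ k ρ W hW
  obtain ⟨J, hJ1, hJW, hJJ⟩ := p_onb_basis k W
  -- `J Jᴴ ρ(g) J = ρ(g) J`
  have key : ∀ g, J * (Jᴴ * (ρ g : Mn k) * J) = (ρ g : Mn k) * J := by
    intro g
    apply Matrix.ext_of_mulVec_single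
    intro i
    have h := hJJ ((ρ g : Mn k).mulVec (J.mulVec (Pi.single i 1))) (hW g _ (hJW _))
    simp only [← Matrix.mulVec_mulVec] at h ⊢
    exact h
  have hmul : ∀ g h, (Jᴴ * (ρ (g * h) : Mn k) * J) = (Jᴴ * (ρ g : Mn k) * J) * (Jᴴ * (ρ h : Mn k) * J) := by
    intro g h
    rw [map_mul, Submonoid.coe_mul]
    calc Jᴴ * ((ρ g : Mn k) * (ρ h : Mn k)) * J = Jᴴ * (ρ g : Mn k) * ((ρ h : Mn k) * J) := by
          simp only [Matrix.mul_assoc]
      _ = Jᴴ * (ρ g : Mn k) * (J * (Jᴴ * (ρ h : Mn k) * J)) := by rw [key]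
      _ = _ := by simp only [Matrix.mul_assoc]
  have hone : (Jᴴ * (ρ 1 : Mn k) * J) = 1 := by
    rw [map_one, Submonoid.coe_one, Matrix.mul_one, hJ1]
  have hstarρ : ∀ g, ((ρ g : Mn k))ᴴ = (ρ g⁻¹ : Mn k) := by
    intro g
    rw [map_inv]
    rfl
  have hstar : ∀ g, (Jᴴ * (ρ g : Mn k) * J)ᴴ = (Jᴴ * (ρ g⁻¹ : Mn k) * J) := by
    intro g
    rw [Matrix.conjTranspose_mul, Matrix.conjTranspose_mul, Matrix.conjTranspose_conjTranspose, hstarρ,
      Matrix.mul_assoc]
  have huni : ∀ g, (Jᴴ * (ρ g : Mn k) * J) ∈ Matrix.unitaryGroup (Fin (Module.finrank ℂ W)) ℂ := by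
    intro g
    rw [Matrix.mem_unitaryGroup_iff, Matrix.star_eq_conjTranspose, hstar, ← hmul, mul_inv_cancel, hone]
  refine ⟨Module.finrank ℂ W, J,
    { toFun := fun g => ⟨Jᴴ * (ρ g : Mn k) * J, huni g⟩
      map_one' := Subtype.ext hone
      map_mul' := fun g h => Subtype.ext (hmul g h) }, hJ1, rfl, hJW, hJJ, ?_, ?_⟩
  · intro g
    exact key g
  · intro g
    have h := congrArg Matrix.conjTranspose (key g⁻¹)
    rw [Matrix.conjTranspose_mul, hstar, inv_inv, Matrix.conjTranspose_mul, hstarρ, inv_inv] at h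
    exact h.symm

end Pool.Agent.Lib.MP_ef6aaf_al
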