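import Pool.Agent.Lib.MP_ef6aaf_al.StmA

open MeasureTheory Metric
open scoped Matrix.Norms.L2Operator

namespace Pool.Agent.Lib.MP_ef6aaf_al

theorem p_quad : S_quad := by
  intro E F _ _ _ _ Φ hΦ h0
  have h1 : ContDiff ℝ 1 (fderiv ℝ Φ) := hΦ.fderiv_right (by norm_num)
  obtain ⟨K, t, ht, hK⟩ := h1.contDiffAt (x := 0) |>.exists_lipschitzOnWith
  obtain ⟨r, hr, hrt⟩ := Metric.nhds_basis_closedBall.mem_iff.1 ht
  refine ⟨(K : ℝ) + 1, r, by positivity, hr, ?_⟩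
  intro x hx
  have hd : Differentiable ℝ Φ := hΦ.differentiable (by norm_num)
  have hb : ∀ y ∈ closedBall (0 : E) ‖x‖, ‖fderiv ℝ Φ y‖ ≤ ((K : ℝ) + 1) * ‖x‖ := by
    intro y hy
    rw [mem_closedBall, dist_zero_right] at hy
    have hy' : y ∈ t := hrt (by rw [mem_closedBall, dist_zero_right]; exact hy.trans hx)
    have h0' : (0 : E) ∈ t := hrt (by simp [hr.le])
    have := hK.dist_le_mul y hy' 0 h0'
    rw [h0, dist_zero_right, dist_zero_right] at this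
    refine this.trans ?_
    have hK0 : (0 : ℝ) ≤ K := K.2
    nlinarith [norm_nonneg y, norm_nonneg x]
  have := Convex.norm_image_sub_le_of_norm_fderiv_le (𝕜 := ℝ) (f := Φ) (s := closedBall (0 : E) ‖x‖)
    (x := 0) (y := x) (fun y _ => hd y) hb (convex_closedBall _ _) (by simp) (by simp)
  rw [sub_zero] at this
  calc ‖Φ x - Φ 0‖ ≤ ((K : ℝ) + 1) * ‖x‖ * ‖x‖ := this
    _ = ((K : ℝ) + 1) * ‖x‖ ^ 2 := by ring

end Pool.Agent.Lib.MP_ef6aaf_al
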