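import Pool.Agent.Lib.MP_ef6aaf_al.StmB

open MeasureTheory Metric Matrix
open scoped Matrix.Norms.L2Operator

namespace Pool.Agent.Lib.MP_ef6aaf_al

/-- the orthogonal complement in coordinates -/
private def p_red_oc {k : ℕ} (W : Submodule ℂ (Fin k → ℂ)) : Submodule ℂ (Fin k → ℂ) where
  carrier := {y | ∀ x ∈ W, star x ⬝ᵥ y = 0}
  add_mem' {a b} ha hb x hx := by rw [dotProduct_add, ha x hx, hb x hx, add_zero]
  zero_mem' x hx := dotProduct_zero _
  smul_mem' t a ha x hx := by rw [dotProduct_smul, ha x hx, smul_zero]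

private lemma p_red_star {Γ : Type} [Group Γ] {k : ℕ} (ρ : Γ →* U k) (g : Γ) :
    (ρ g : Mn k)ᴴ = (ρ g⁻¹ : Mn k) := by
  rw [map_inv]
  rfl

private lemma p_red_inv {Γ : Type} [Group Γ] {k : ℕ} (ρ : Γ →* U k)
    (W : Submodule ℂ (Fin k → ℂ)) (hW : ∀ g, ∀ x ∈ W, (ρ g : Mn k).mulVec x ∈ W) :
    ∀ g, ∀ x ∈ p_red_oc W, (ρ g : Mn k).mulVec x ∈ p_red_oc W := by
  intro g y hy x hx
  have h1 : star x ⬝ᵥ (ρ g : Mn k).mulVec y = star ((ρ g : Mn k)ᴴ.mulVec x) ⬝ᵥ y := by
    rw [dotProduct_mulVec, star_mulVec, conjTranspose_conjTranspose]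
  rw [h1, p_red_star]
  exact hy _ (hW g⁻¹ x hx)

open scoped ComplexOrder in
private lemma p_red_zero {k : ℕ} {x : Fin k → ℂ} (h : star x ⬝ᵥ x = 0) : x = 0 := by
  rwa [dotProduct_star_self_eq_zero] at h

/-- the cocycle `Jᴴ b` -/
private lemma p_red_sub {Γ : Type} [Group Γ] {k m : ℕ} (ρ : Γ →* U k) (ρ' : Γ →* U m)
    (b : Γ → Fin k → ℂ) (hb : IsCocycle ρ b) (ho : Orth ρ b)
    (J : Matrix (Fin k) (Fin m) ℂ)
    (h1 : ∀ g, J * (ρ' g : Mn m) = (ρ g : Mn k) * J)
    (h2 : ∀ g, Jᴴ * (ρ g : Mn k) = (ρ' g : Mn m) * Jᴴ) :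
    IsCocycle ρ' (fun g => Jᴴ.mulVec (b g)) ∧ Orth ρ' (fun g => Jᴴ.mulVec (b g)) := by
  constructor
  · intro g h
    show Jᴴ.mulVec (b (g * h)) = Jᴴ.mulVec (b g) + (ρ' g : Mn m).mulVec (Jᴴ.mulVec (b h))
    rw [hb g h, mulVec_add, Matrix.mulVec_mulVec, h2, Matrix.mulVec_mulVec]
  · intro v hv g
    show star v ⬝ᵥ Jᴴ.mulVec (b g) = 0
    have h3 : star v ⬝ᵥ Jᴴ.mulVec (b g) = star (J.mulVec v) ⬝ᵥ b g := by
      rw [dotProduct_mulVec, star_mulVec]
    rw [h3]
    apply ho
    intro g'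
    rw [Matrix.mulVec_mulVec, ← h1, ← Matrix.mulVec_mulVec, hv g']

theorem p_red (h_onb : S_onb) : S_red := by
  intro Γ _ k
  induction k using Nat.strong_induction_on with
  | _ k ih =>
    intro ρ b hb ho hnc
    by_cases hirr : IsIrr ρ
    · have hfix : ∀ v, IsFixed ρ v → v = 0 := by
        intro v hv
        by_contra hv0
        apply hnc
        have hspan := hirr (Submodule.span ℂ {v}) (by
          intro g x hx
          obtain ⟨c, rfl⟩ := Submodule.mem_span_singleton.mp hx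
          rw [mulVec_smul, hv g]
          exact hx)
        rcases hspan with hs | hs
        · exact absurd (Submodule.span_singleton_eq_bot.mp hs) hv0
        · refine ⟨0, fun g => ?_⟩
          have hx : b g ∈ Submodule.span ℂ {v} := by rw [hs]; trivial
          obtain ⟨c, hc⟩ := Submodule.mem_span_singleton.mp hx
          have h1 := ho v hv g
          rw [← hc, dotProduct_smul, smul_eq_mul] at h1
          have h2 : star v ⬝ᵥ v ≠ 0 := fun h => hv0 (p_red_zero h)
          have h3 : c = 0 := by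
            rcases mul_eq_zero.mp h1 with h | h
            · exact h
            · exact absurd h h2
          rw [← hc, h3]
          simp
      refine ⟨k, ρ, b, ?_, le_rfl, ?_, hirr, hfix, hb, hnc⟩
      · by_contra hk
        have hk' : k = 0 := by omega
        subst hk'
        exact hnc ⟨0, fun g => Subsingleton.elim _ _⟩
      · rintro ⟨v, hv0, hv⟩
        exact absurd (hfix v hv) hv0
    · unfold IsIrr at hirr
      push Not at hirr
      obtain ⟨W, hW, hbot, ht⟩ := hirr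
      obtain ⟨m1, J1, ρ1, hJ1, hm1, hJ1m, hJ1p, hJ1i, hJ1s⟩ := h_onb Γ k ρ W hW
      have hW' := p_red_inv ρ W hW
      obtain ⟨m2, J2, ρ2, hJ2, hm2, hJ2m, hJ2p, hJ2i, hJ2s⟩ := h_onb Γ k ρ (p_red_oc W) hW'
      have hfr : Module.finrank ℂ (Fin k → ℂ) = k := by simp
      have hlt1 : m1 < k := by
        rw [hm1]
        exact lt_of_lt_of_eq (Submodule.finrank_lt ht) hfr
      have hlt2 : m2 < k := by
        rw [hm2]
        refine lt_of_lt_of_eq (Submodule.finrank_lt ?_) hfr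
        intro htop
        apply hbot
        rw [eq_bot_iff]
        intro x hx
        have hx2 : x ∈ p_red_oc W := by rw [htop]; trivial
        exact p_red_zero (hx2 x hx)
      obtain ⟨hc1, ho1⟩ := p_red_sub ρ ρ1 b hb ho J1 hJ1i hJ1s
      obtain ⟨hc2, ho2⟩ := p_red_sub ρ ρ2 b hb ho J2 hJ2i hJ2s
      by_cases hn1 : IsCobound ρ1 (fun g => J1ᴴ.mulVec (b g))
      · by_cases hn2 : IsCobound ρ2 (fun g => J2ᴴ.mulVec (b g))
        · exfalso
          apply hnc
          obtain ⟨u1, hu1⟩ := hn1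
          obtain ⟨u2, hu2⟩ := hn2
          have hz : ∀ z, J2ᴴ.mulVec (J1.mulVec z) = 0 := by
            intro z
            obtain ⟨y, hy⟩ : ∃ y, y = J2ᴴ.mulVec (J1.mulVec z) := ⟨_, rfl⟩
            rw [← hy]
            apply p_red_zero
            have e1 : star y ⬝ᵥ J2ᴴ.mulVec (J1.mulVec z) = star (J2.mulVec y) ⬝ᵥ J1.mulVec z := by
              rw [dotProduct_mulVec, star_mulVec]
            have e2 : star (J1.mulVec z) ⬝ᵥ J2.mulVec y = 0 := hJ2m y _ (hJ1m z)
            have e3 : star (J2.mulVec y) ⬝ᵥ J1.mulVec z = star (star (J1.mulVec z) ⬝ᵥ J2.mulVec y) :=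
              star_dotProduct _ _
            rw [← hy, e3, e2, star_zero] at e1
            exact e1
          have hdec : ∀ x, x = J1.mulVec (J1ᴴ.mulVec x) + J2.mulVec (J2ᴴ.mulVec x) := by
            intro x
            have hx2 : x - J1.mulVec (J1ᴴ.mulVec x) ∈ p_red_oc W := by
              intro y hy
              rw [dotProduct_sub]
              have e1 : star y ⬝ᵥ J1.mulVec (J1ᴴ.mulVec x)
                  = star (J1.mulVec (J1ᴴ.mulVec y)) ⬝ᵥ x := by
                rw [mulVec_mulVec, mulVec_mulVec, dotProduct_mulVec, star_mulVec,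
                  conjTranspose_mul, conjTranspose_conjTranspose]
              rw [e1, hJ1p y hy, sub_self]
            have h3 := hJ2p _ hx2
            rw [mulVec_sub, hz, sub_zero] at h3
            rw [h3]
            abel
          refine ⟨J1.mulVec u1 + J2.mulVec u2, fun g => ?_⟩
          have e1 : J1ᴴ.mulVec (b g) = (ρ1 g : Mn m1).mulVec u1 - u1 := hu1 g
          have e2 : J2ᴴ.mulVec (b g) = (ρ2 g : Mn m2).mulVec u2 - u2 := hu2 g
          rw [hdec (b g), e1, e2, mulVec_sub, mulVec_sub, mulVec_add, Matrix.mulVec_mulVec,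
            Matrix.mulVec_mulVec, Matrix.mulVec_mulVec, Matrix.mulVec_mulVec, hJ1i, hJ2i]
          abel
        · obtain ⟨m, ρ', b', a1, a2, a3, a4, a5, a6, a7⟩ := ih m2 hlt2 ρ2 _ hc2 ho2 hn2
          exact ⟨m, ρ', b', a1, a2.trans hlt2.le, fun _ => lt_of_le_of_lt a2 hlt2, a4, a5, a6, a7⟩
      · obtain ⟨m, ρ', b', a1, a2, a3, a4, a5, a6, a7⟩ := ih m1 hlt1 ρ1 _ hc1 ho1 hn1
        exact ⟨m, ρ', b', a1, a2.trans hlt1.le, fun _ => lt_of_le_of_lt a2 hlt1, a4, a5, a6, a7⟩

end Pool.Agent.Lib.MP_ef6aaf_al
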