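import Pool.Agent.Lib.MP_ef6aaf_al.StmB

/-!
# Words inducing Haar measure on unitary groups: piece schur
-/

open MeasureTheory Metric Matrix
open scoped Matrix.Norms.L2Operator

namespace Pool.Agent.Lib.MP_ef6aaf_al

private theorem p_schur_cjmul {n : ℕ} (g h : U n) (B : Hn n) : cj (g * h) B = cj g (cj h B) := by
  apply Subtype.ext
  simp only [cj, LinearMap.coe_mk, AddHom.coe_mk, Submonoid.coe_mul, star_mul]
  simp only [mul_assoc]

private theorem p_schur_cjone {n : ℕ} (B : Hn n) : cj (1 : U n) B = B := by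
  apply Subtype.ext
  simp [cj]

private theorem p_schur_all {n : ℕ} (f : Fin 2 → U n) (B : Hn n) (hB : ∀ i, cj (f i) B = B)
    (g : FreeGroup (Fin 2)) : cj (FreeGroup.lift f g) B = B := by
  induction g using FreeGroup.induction_on with
  | C1 => rw [map_one, p_schur_cjone]
  | of i => rw [FreeGroup.lift_apply_of]; exact hB i
  | inv_of i h =>
    have h1 : cj (FreeGroup.lift f (FreeGroup.of i)) B = B := h
    calc cj (FreeGroup.lift f (FreeGroup.of i)⁻¹) B
        = cj (FreeGroup.lift f (FreeGroup.of i)⁻¹) (cj (FreeGroup.lift f (FreeGroup.of i)) B) := by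
          rw [h1]
      _ = B := by rw [← p_schur_cjmul, ← map_mul, inv_mul_cancel, map_one, p_schur_cjone]
  | mul g h hg hh => rw [map_mul, p_schur_cjmul, hh, hg]

private theorem p_schur_comm {n : ℕ} (u : U n) (B : Hn n) (h : cj u B = B) :
    (u : Mn n) * (B : Mn n) = (B : Mn n) * (u : Mn n) := by
  have h1 : (u : Mn n) * (B : Mn n) * star (u : Mn n) = (B : Mn n) := congrArg Subtype.val h
  calc (u : Mn n) * (B : Mn n) = (u : Mn n) * (B : Mn n) * (star (u : Mn n) * (u : Mn n)) := by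
        rw [Matrix.UnitaryGroup.star_mul_self u, mul_one]
    _ = ((u : Mn n) * (B : Mn n) * star (u : Mn n)) * (u : Mn n) := by simp only [mul_assoc]
    _ = (B : Mn n) * (u : Mn n) := by rw [h1]

theorem p_schur (h_blkmul : S_blkmul) : S_schur := by
  intro m ρ f hm hf hirr hfix
  have hm' : Nonempty (Fin m) := ⟨⟨0, hm⟩⟩
  -- the two basic matrices
  have hA1 : (blk 1 0 0 0 : Mn (m + 1)) ∈ selfAdjoint (Mn (m + 1)) := by
    rw [selfAdjoint.mem_iff, (h_blkmul m 1 1 0 0 0 0 0 0).2.1]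
    simp
  have hA2 : (blk 0 0 0 1 : Mn (m + 1)) ∈ selfAdjoint (Mn (m + 1)) := by
    rw [selfAdjoint.mem_iff, (h_blkmul m 0 0 0 0 0 0 1 0).2.1]
    simp
  set A1 : Hn (m + 1) := ⟨blk 1 0 0 0, hA1⟩ with hA1d
  set A2 : Hn (m + 1) := ⟨blk 0 0 0 1, hA2⟩ with hA2d
  have hle : Z0 f ≤ Submodule.span ℝ (Set.range ![A1, A2]) := by
    intro B hB
    have hB' : ∀ i, cj (f i) B = B := hB
    obtain ⟨α, r, b, M, hBd⟩ := (h_blkmul m 0 0 0 0 0 0 0 0).2.2.2.2.2.2 (B : Mn (m + 1))
    have hsa : star (B : Mn (m + 1)) = (B : Mn (m + 1)) := B.2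
    rw [hBd, (h_blkmul m α α r r b b M M).2.1] at hsa
    obtain ⟨e1, e2, e3, e4⟩ := (h_blkmul m (star α) α (star b) r (star r) b (star M) M).2.2.2.2.2.1 hsa
    have hcomm : ∀ g, (ρ g : Mn m).mulVec b = b ∧ (ρ g : Mn m) * M = M * (ρ g : Mn m) := by
      intro g
      have h1 := p_schur_comm _ B (p_schur_all f B hB' g)
      rw [hf g, hBd, (h_blkmul m 1 α 0 r 0 b (ρ g : Mn m) M).1,
        (h_blkmul m α 1 r 0 b 0 M (ρ g : Mn m)).1] at h1
      obtain ⟨_, _, f3, f4⟩ := (h_blkmul m _ _ _ _ _ _ _ _).2.2.2.2.2.1 h1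
      constructor
      · simpa using f3
      · simpa using f4
    have hb : b = 0 := hfix b fun g => (hcomm g).1
    have hr : r = 0 := by rw [← e2, hb, star_zero]
    -- the eigenvalue
    obtain ⟨β, hβ⟩ := Module.End.exists_eigenvalue (Matrix.mulVecLin M)
    have hW := hirr (Module.End.eigenspace (Matrix.mulVecLin M) β) (by
      intro g x hx
      rw [Module.End.mem_eigenspace_iff] at hx ⊢
      rw [Matrix.mulVecLin_apply] at hx ⊢
      rw [Matrix.mulVec_mulVec, ← (hcomm g).2, ← Matrix.mulVec_mulVec, hx, Matrix.mulVec_smul])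
    have hW' : Module.End.eigenspace (Matrix.mulVecLin M) β = ⊤ := by
      rcases hW with h | h
      · exact absurd h hβ
      · exact h
    have hMβ : M = β • (1 : Mn m) := by
      apply Matrix.ext_of_mulVec_single
      intro i
      have h1 : Pi.single i (1 : ℂ) ∈ Module.End.eigenspace (Matrix.mulVecLin M) β := by
        rw [hW']
        exact Submodule.mem_top
      rw [Module.End.mem_eigenspace_iff, Matrix.mulVecLin_apply] at h1
      rw [h1, Matrix.smul_mulVec, Matrix.one_mulVec]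
    have hαr : (α.re : ℂ) = α := Complex.conj_eq_iff_re.1 e1
    have hβr : (β.re : ℂ) = β := by
      apply Complex.conj_eq_iff_re.1
      have h1 : star M = M := e4
      rw [hMβ, star_smul, star_one] at h1
      have h2 := congrFun (congrFun h1 ⟨0, hm⟩) ⟨0, hm⟩
      simpa using h2
    have hBeq : B = α.re • A1 + β.re • A2 := by
      apply Subtype.ext
      have h1 : ((α.re • A1 + β.re • A2 : Hn (m + 1)) : Mn (m + 1)) =
          (α.re : ℂ) • (blk 1 0 0 0 : Mn (m + 1)) + (β.re : ℂ) • (blk 0 0 0 1 : Mn (m + 1)) := by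
        rw [hA1d, hA2d]
        ext i j
        simp
      rw [h1, hαr, hβr, (h_blkmul m 1 1 0 0 0 0 0 0).2.2.2.2.1 α,
        (h_blkmul m 0 0 0 0 0 0 1 0).2.2.2.2.1 β,
        (h_blkmul m _ _ _ _ _ _ _ _).2.2.1, hBd, hb, hr, hMβ]
      simp
    rw [hBeq]
    refine Submodule.add_mem _ (Submodule.smul_mem _ _ (Submodule.subset_span ⟨0, rfl⟩))
      (Submodule.smul_mem _ _ (Submodule.subset_span ⟨1, rfl⟩))
  calc Module.finrank ℝ (Z0 f) ≤ Module.finrank ℝ (Submodule.span ℝ (Set.range ![A1, A2])) :=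
        Submodule.finrank_mono hle
    _ ≤ 2 := by
        have := finrank_range_le_card (R := ℝ) ![A1, A2]
        simpa [Set.finrank] using this

end Pool.Agent.Lib.MP_ef6aaf_al
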