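import Pool.Agent.Lib.MP_ef6aaf_al.StmB

/-!
# Piece shap: the cocycle of a homomorphism on a subgroup of finite index
-/

set_option autoImplicit false

open MeasureTheory Metric Matrix
open scoped Matrix.Norms.L2Operator

namespace Pool.Agent.Lib.MP_ef6aaf_al

section

variable {Γ : Type} [Group Γ] {H : Subgroup Γ} {k : ℕ}

/-- the permutation action on `Fin k` -/
private def p_shap_P (e : Γ ⧸ H ≃ Fin k) : Γ →* Equiv.Perm (Fin k) :=
  e.permCongrHom.toMonoidHom.comp (MulAction.toPermHom Γ (Γ ⧸ H))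

private lemma p_shap_P_apply (e : Γ ⧸ H ≃ Fin k) (g : Γ) (i : Fin k) :
    p_shap_P e g i = e (g • e.symm i) := rfl

private lemma p_shap_Pinv (e : Γ ⧸ H ≃ Fin k) (g : Γ) (i : Fin k) :
    (p_shap_P e g)⁻¹ i = e (g⁻¹ • e.symm i) := by
  rw [← map_inv, p_shap_P_apply]

/-- the permutation representation -/
private noncomputable def p_shap_rho (e : Γ ⧸ H ≃ Fin k) : Γ →* U k :=
  ((Matrix.permMatrixHom (R := ℂ) (n := Fin k)).comp (p_shap_P e)).codRestrict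
    (Matrix.unitaryGroup (Fin k) ℂ) (by
      intro g
      rw [Matrix.mem_unitaryGroup_iff, Matrix.star_eq_conjTranspose]
      change ((p_shap_P e g)⁻¹).permMatrix ℂ * (((p_shap_P e g)⁻¹).permMatrix ℂ)ᴴ = 1
      rw [Matrix.conjTranspose_permMatrix, ← Matrix.permMatrix_mul, inv_inv, mul_inv_cancel,
        Matrix.permMatrix_one])

private lemma p_shap_rho_mulVec (e : Γ ⧸ H ≃ Fin k) (g : Γ) (v : Fin k → ℂ) (i : Fin k) :
    ((p_shap_rho e g : U k) : Mn k).mulVec v i = v (e (g⁻¹ • e.symm i)) := by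
  change (((p_shap_P e g)⁻¹).permMatrix ℂ).mulVec v i = _
  rw [Matrix.permMatrix_mulVec, Function.comp_apply, p_shap_Pinv]

/-- the elements of `H` -/
private def p_shap_c (s : Γ ⧸ H → Γ) (hs : ∀ q, ((s q : Γ) : Γ ⧸ H) = q) (g : Γ) (q : Γ ⧸ H) : H :=
  ⟨(s q)⁻¹ * (g * s (g⁻¹ • q)), by
    rw [← QuotientGroup.eq, hs]
    have h1 : ((g * s (g⁻¹ • q) : Γ) : Γ ⧸ H) = g • ((s (g⁻¹ • q) : Γ) : Γ ⧸ H) := rfl
    rw [h1, hs, smul_inv_smul]⟩

private lemma p_shap_c_mul (s : Γ ⧸ H → Γ) (hs : ∀ q, ((s q : Γ) : Γ ⧸ H) = q) (g h : Γ)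
    (q : Γ ⧸ H) : p_shap_c s hs (g * h) q = p_shap_c s hs g q * p_shap_c s hs h (g⁻¹ • q) := by
  apply Subtype.ext
  rw [Subgroup.coe_mul]
  change (s q)⁻¹ * (g * h * s ((g * h)⁻¹ • q)) =
    (s q)⁻¹ * (g * s (g⁻¹ • q)) * ((s (g⁻¹ • q))⁻¹ * (h * s (h⁻¹ • (g⁻¹ • q))))
  rw [smul_smul, _root_.mul_inv_rev]
  group

/-- the real cocycle -/
private def p_shap_b (e : Γ ⧸ H ≃ Fin k) (s : Γ ⧸ H → Γ) (hs : ∀ q, ((s q : Γ) : Γ ⧸ H) = q)
    (φ : Additive H →+ ℝ) (g : Γ) (i : Fin k) : ℝ :=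
  φ (Additive.ofMul (p_shap_c s hs g (e.symm i)))

private lemma p_shap_b_mul (e : Γ ⧸ H ≃ Fin k) (s : Γ ⧸ H → Γ)
    (hs : ∀ q, ((s q : Γ) : Γ ⧸ H) = q) (φ : Additive H →+ ℝ) (g h : Γ) (i : Fin k) :
    p_shap_b e s hs φ (g * h) i = p_shap_b e s hs φ g i +
      p_shap_b e s hs φ h ((p_shap_P e g)⁻¹ i) := by
  unfold p_shap_b
  rw [p_shap_c_mul, ofMul_mul, map_add, p_shap_Pinv, Equiv.symm_apply_apply]

/-- the sum over the cosets -/
private noncomputable def p_shap_T (e : Γ ⧸ H ≃ Fin k) (s : Γ ⧸ H → Γ)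
    (hs : ∀ q, ((s q : Γ) : Γ ⧸ H) = q) (φ : Additive H →+ ℝ) : Additive Γ →+ ℝ :=
  AddMonoidHom.mk' (fun g => ∑ i, p_shap_b e s hs φ (Additive.toMul g) i) (by
    intro g h
    change ∑ i, p_shap_b e s hs φ (Additive.toMul g * Additive.toMul h) i = _
    rw [Finset.sum_congr rfl (fun i _ => p_shap_b_mul e s hs φ _ _ i), Finset.sum_add_distrib,
      Equiv.sum_comp ((p_shap_P e (Additive.toMul g))⁻¹)
        (fun i => p_shap_b e s hs φ (Additive.toMul h) i)])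

private lemma p_shap_T_apply (e : Γ ⧸ H ≃ Fin k) (s : Γ ⧸ H → Γ)
    (hs : ∀ q, ((s q : Γ) : Γ ⧸ H) = q) (φ : Additive H →+ ℝ) (g : Γ) :
    p_shap_T e s hs φ (Additive.ofMul g) = ∑ i, p_shap_b e s hs φ g i := rfl

private theorem p_shap_aux (hk : k ≠ 0) (e : Γ ⧸ H ≃ Fin k) (s : Γ ⧸ H → Γ)
    (hs : ∀ q, ((s q : Γ) : Γ ⧸ H) = q) (hs1 : s ((1 : Γ) : Γ ⧸ H) = 1) :
    ∃ (ρ : Γ →* U k) (b : (Additive H →+ ℝ) → Γ → Fin k → ℂ)
      (T : (Additive H →+ ℝ) → (Additive Γ →+ ℝ)),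
      (∃ v, v ≠ 0 ∧ IsFixed ρ v) ∧ (∀ φ, IsCocycle ρ (b φ)) ∧
      (∀ φ, IsCobound ρ (b φ) → φ = 0) ∧
      (∀ (s t : ℝ) (φ ψ), T (s • φ + t • ψ) = s • T φ + t • T ψ) ∧
      (∀ φ, T φ = 0 → Orth ρ (b φ)) := by
  refine ⟨p_shap_rho e, fun φ g i => (p_shap_b e s hs φ g i : ℂ), p_shap_T e s hs,
    ?_, ?_, ?_, ?_, ?_⟩
  · refine ⟨fun _ => 1, ?_, ?_⟩
    · intro h
      have h1 := congrFun h ⟨0, Nat.pos_of_ne_zero hk⟩
      simp at h1
    · intro g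
      funext i
      rw [p_shap_rho_mulVec]
  · intro φ g h
    funext i
    rw [Pi.add_apply, p_shap_rho_mulVec]
    change (p_shap_b e s hs φ (g * h) i : ℂ) = (p_shap_b e s hs φ g i : ℂ) +
      (p_shap_b e s hs φ h (e (g⁻¹ • e.symm i)) : ℂ)
    rw [p_shap_b_mul, p_shap_Pinv]
    push_cast
    rfl
  · rintro φ ⟨u, hu⟩
    refine AddMonoidHom.ext (fun x => ?_)
    obtain ⟨h, hx⟩ : ∃ h : H, x = Additive.ofMul h := ⟨Additive.toMul x, rfl⟩
    rw [hx]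
    have h1 : (p_shap_b e s hs φ (h : Γ) (e ((1 : Γ) : Γ ⧸ H)) : ℂ) =
        (((p_shap_rho e (h : Γ) : U k) : Mn k).mulVec u - u) (e ((1 : Γ) : Γ ⧸ H)) :=
      congrFun (hu (h : Γ)) (e ((1 : Γ) : Γ ⧸ H))
    have h2 : (h : Γ)⁻¹ • ((1 : Γ) : Γ ⧸ H) = ((1 : Γ) : Γ ⧸ H) := by
      have h3 : (h : Γ)⁻¹ • ((1 : Γ) : Γ ⧸ H) = (((h : Γ)⁻¹ * 1 : Γ) : Γ ⧸ H) := rfl
      rw [h3, QuotientGroup.eq, mul_one]
      exact H.inv_mem (H.mul_mem (H.inv_mem h.2) H.one_mem)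
    rw [Pi.sub_apply, p_shap_rho_mulVec, Equiv.symm_apply_apply, h2, sub_self] at h1
    have h4 : p_shap_c s hs (h : Γ) ((1 : Γ) : Γ ⧸ H) = h := by
      apply Subtype.ext
      change (s ((1 : Γ) : Γ ⧸ H))⁻¹ * ((h : Γ) * s ((h : Γ)⁻¹ • ((1 : Γ) : Γ ⧸ H))) = _
      rw [h2, hs1, inv_one, one_mul, mul_one]
    have h5 : p_shap_b e s hs φ (h : Γ) (e ((1 : Γ) : Γ ⧸ H)) = φ (Additive.ofMul h) := by
      unfold p_shap_b
      rw [Equiv.symm_apply_apply, h4]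
    rw [h5] at h1
    rw [AddMonoidHom.zero_apply]
    exact_mod_cast h1
  · intro a c φ ψ
    refine AddMonoidHom.ext (fun g => ?_)
    change p_shap_T e s hs (a • φ + c • ψ) (Additive.ofMul (Additive.toMul g)) =
      a • p_shap_T e s hs φ (Additive.ofMul (Additive.toMul g)) +
      c • p_shap_T e s hs ψ (Additive.ofMul (Additive.toMul g))
    rw [p_shap_T_apply, p_shap_T_apply, p_shap_T_apply, Finset.smul_sum, Finset.smul_sum,
      ← Finset.sum_add_distrib]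
    rfl
  · intro φ hφ v hv g
    have hconst : ∀ i j, v i = v j := by
      intro i j
      obtain ⟨g, hg⟩ := MulAction.exists_smul_eq Γ (e.symm i) (e.symm j)
      have h1 := congrFun (hv g⁻¹) i
      rw [p_shap_rho_mulVec, inv_inv, hg, Equiv.apply_symm_apply] at h1
      exact h1.symm
    have h0 : ∑ i, p_shap_b e s hs φ g i = 0 := by
      rw [← p_shap_T_apply, hφ]
      rfl
    set i0 : Fin k := ⟨0, Nat.pos_of_ne_zero hk⟩
    have h1 : star v ⬝ᵥ (fun i => (p_shap_b e s hs φ g i : ℂ)) =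
        star (v i0) * ((∑ i, p_shap_b e s hs φ g i : ℝ) : ℂ) := by
      rw [Complex.ofReal_sum, Finset.mul_sum]
      unfold dotProduct
      refine Finset.sum_congr rfl (fun i _ => ?_)
      rw [Pi.star_apply, hconst i i0]
    rw [h1, h0, Complex.ofReal_zero, mul_zero]

end

theorem p_shap : S_shap := by
  classical
  intro Γ _ H hH
  have hfin : Finite (Γ ⧸ H) := by
    have : H.FiniteIndex := ⟨hH⟩
    infer_instance
  let s : Γ ⧸ H → Γ := fun q => if q = ((1 : Γ) : Γ ⧸ H) then 1 else q.out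
  have hs : ∀ q, ((s q : Γ) : Γ ⧸ H) = q := by
    intro q
    by_cases h : q = ((1 : Γ) : Γ ⧸ H)
    · simp only [s, if_pos h]
      exact h.symm
    · simp only [s, if_neg h]
      exact QuotientGroup.out_eq' q
  have hs1 : s ((1 : Γ) : Γ ⧸ H) = 1 := by simp [s]
  exact p_shap_aux hH (Finite.equivFinOfCardEq (α := Γ ⧸ H) (n := H.index) rfl) s hs hs1

end Pool.Agent.Lib.MP_ef6aaf_al
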