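import Pool.Agent.Lib.MP_ef6aaf_al.StmA

open MeasureTheory Metric
open scoped Matrix.Norms.L2Operator

namespace Pool.Agent.Lib.MP_ef6aaf_al

private theorem p_theta_cj_coe {n : ℕ} (g : U n) (a : Hn n) :
    ((cj g a : Hn n) : Mn n) = (g : Mn n) * a * star (g : Mn n) := rfl

private theorem p_theta_cj_one {n : ℕ} (g : U n) : cj g (1 : Hn n) = 1 := by
  ext1
  rw [p_theta_cj_coe]
  simp

private theorem p_theta_cj_mul {n : ℕ} (g h : U n) (a : Hn n) : cj (g * h) a = cj g (cj h a) := by
  ext1
  rw [p_theta_cj_coe, p_theta_cj_coe, p_theta_cj_coe]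
  simp [mul_assoc]

private theorem p_theta_cj_id {n : ℕ} (a : Hn n) : cj (1 : U n) a = a := by
  ext1
  rw [p_theta_cj_coe]
  simp

private noncomputable def p_theta_map {n : ℕ} (f : Fin 2 → U n) (e : Fin 2 → ℤ) :
    (Hn n × ℝ) →ₗ[ℝ] (Fin 2 → Hn n) :=
  LinearMap.pi fun i => (LinearMap.id - cj (f i)) ∘ₗ LinearMap.fst ℝ (Hn n) ℝ +
    (LinearMap.toSpanSingleton ℝ (Hn n) (((e i : ℝ)) • (1 : Hn n))) ∘ₗ LinearMap.snd ℝ (Hn n) ℝ

private theorem p_theta_map_apply {n : ℕ} (f : Fin 2 → U n) (e : Fin 2 → ℤ) (p : Hn n × ℝ)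
    (i : Fin 2) :
    p_theta_map f e p i = p.1 - cj (f i) p.1 + (p.2 * (e i : ℝ)) • (1 : Hn n) := by
  simp [p_theta_map, smul_smul]

theorem p_theta (h_wder : S_wder) (h_evmul : S_evmul) : S_theta := by
  intro n w f e hn he hw hev
  obtain ⟨ev_mul, ev_of, -, -⟩ := h_evmul e
  refine ⟨p_theta_map f e, p_theta_map_apply f e, ?_, ?_⟩
  · rintro _ ⟨p, rfl⟩
    set δ : FreeGroup (Fin 2) → Hn n := fun g =>
      p.1 - cj (FreeGroup.lift f g) p.1 + (p.2 * (ev e g : ℝ)) • (1 : Hn n) with hδ
    have hcoc : IsAdCocycle f δ := by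
      intro g h
      simp only [hδ]
      rw [ev_mul, map_mul, p_theta_cj_mul, map_add, map_sub, map_smul, p_theta_cj_one]
      push_cast
      rw [mul_add, add_smul]
      abel
    have h1 := h_wder n f δ hcoc w
    have h2 : (fun i => δ (FreeGroup.of i)) = p_theta_map f e p := by
      funext i
      rw [p_theta_map_apply]
      simp only [hδ]
      rw [ev_of, FreeGroup.lift_apply_of]
    have h3 : δ w = 0 := by
      simp only [hδ]
      rw [hw, hev, p_theta_cj_id]
      simp
    rw [h2, h3] at h1
    show (fderiv ℝ (wm f w) 0 : (Fin 2 → Hn n) →L[ℝ] Mn n) (p_theta_map f e p) = 0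
    rw [h1]
    simp
  · have hinj : Function.Injective (LinearMap.inl ℝ (Hn n) ℝ) := LinearMap.inl_injective
    rw [(Submodule.equivMapOfInjective _ hinj (Z0 f)).finrank_eq]
    have hker : LinearMap.ker (p_theta_map f e) = (Z0 f).map (LinearMap.inl ℝ (Hn n) ℝ) := by
      ext ⟨B, t⟩
      rw [LinearMap.mem_ker, Submodule.mem_map]
      constructor
      · intro h
        have hi : ∀ i, B - cj (f i) B + (t * (e i : ℝ)) • (1 : Hn n) = 0 := by
          intro i
          have := congrFun h i
          rw [p_theta_map_apply] at this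
          exact this
        obtain ⟨i, hei⟩ : ∃ i, e i ≠ 0 := by
          by_contra hcon
          push Not at hcon
          exact he (funext hcon)
        have ht : t = 0 := by
          have h1 : (B : Mn n) - (f i : Mn n) * B * star (f i : Mn n) +
              (t * (e i : ℝ)) • (1 : Mn n) = 0 := by
            have := congrArg (fun a : Hn n => (a : Mn n)) (hi i)
            simpa [p_theta_cj_coe] using this
          have h2 := congrArg Matrix.trace h1
          have h3 : Matrix.trace ((f i : Mn n) * (B : Mn n) * star (f i : Mn n)) = Matrix.trace (B : Mn n) := by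
            rw [Matrix.trace_mul_comm, ← mul_assoc]
            have : star (f i : Mn n) * (f i : Mn n) = 1 := by
              exact Matrix.UnitaryGroup.star_mul_self (f i)
            rw [this, one_mul]
          rw [Matrix.trace_add, Matrix.trace_sub, h3, sub_self, zero_add, Matrix.trace_smul,
            Matrix.trace_one, Matrix.trace_zero, Fintype.card_fin] at h2
          rw [Complex.real_smul] at h2
          have hn0 : (n : ℂ) ≠ 0 := by exact_mod_cast (by omega : n ≠ 0)
          have h4 := (mul_eq_zero.1 h2).resolve_right hn0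
          have h5 : t * (e i : ℝ) = 0 := by exact_mod_cast h4
          exact (mul_eq_zero.1 h5).resolve_right (by exact_mod_cast hei)
        subst ht
        refine ⟨B, ?_, rfl⟩
        intro j
        have := hi j
        simp only [zero_mul, zero_smul, add_zero] at this
        exact (sub_eq_zero.1 this).symm
      · rintro ⟨B', hB', hEq⟩
        have h1 : B' = B := congrArg Prod.fst hEq
        have h2 : (0 : ℝ) = t := congrArg Prod.snd hEq
        subst h1
        subst h2
        funext i
        rw [p_theta_map_apply]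
        simp [hB' i]
    rw [hker]

end Pool.Agent.Lib.MP_ef6aaf_al
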