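import Pool.Agent.Lib.MP_ef6aaf_al.StmA

/-!
# Upper bound for the measure of balls in the unitary group
-/

open MeasureTheory Metric
open scoped Matrix.Norms.L2Operator

namespace Pool.Agent.Lib.MP_ef6aaf_al

private noncomputable def p_up_J (n : ℕ) : (Fin (D n) → ℝ) ≃L[ℝ] Hn n :=
  (Module.finBasis ℝ (Hn n)).equivFun.symm.toContinuousLinearEquiv

private theorem p_up_cont {n : ℕ} (h : S_exder) :
    Continuous (fun ξ : Fin (D n) → ℝ => (ex (p_up_J n ξ) : U n)) := by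
  refine continuous_induced_rng.2 ?_
  exact (h n).1.continuous.comp (p_up_J n).continuous

private theorem p_up_anti (n : ℕ) (h_antilip : S_antilip) (h : S_exder) :
    ∃ K r : ℝ, 0 < K ∧ 0 < r ∧ ∀ x y : Fin (D n) → ℝ, ‖x‖ ≤ r → ‖y‖ ≤ r →
      ‖x - y‖ ≤ K * dist (ex (p_up_J n x) : U n) (ex (p_up_J n y)) := by
  set Φ : (Fin (D n) → ℝ) → Mn n := fun ξ => ((ex (p_up_J n ξ) : U n) : Mn n) with hΦ
  have hc : ContDiff ℝ 2 Φ := (h n).1.comp (p_up_J n).contDiff
  have hs : HasStrictFDerivAt Φ (fderiv ℝ Φ 0) 0 := hc.contDiffAt.hasStrictFDerivAt (by simp)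
  have hd : ∀ v, fderiv ℝ Φ 0 v = Complex.I • ((p_up_J n v : Hn n) : Mn n) := by
    intro v
    have h1 : HasFDerivAt (fun a : Hn n => ((ex a : U n) : Mn n))
        (fderiv ℝ (fun a : Hn n => ((ex a : U n) : Mn n)) 0) (p_up_J n 0) := by
      rw [map_zero]
      exact ((h n).1.differentiable (by simp) 0).hasFDerivAt
    have h2 := (h1.comp (0 : Fin (D n) → ℝ) (p_up_J n).hasFDerivAt).fderiv
    have h3 : fderiv ℝ Φ 0 = (fderiv ℝ (fun a : Hn n => ((ex a : U n) : Mn n)) 0).comp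
        ((p_up_J n : (Fin (D n) → ℝ) →L[ℝ] Hn n)) := h2
    rw [h3]
    exact (h n).2 (p_up_J n v)
  obtain ⟨K, r, hK, hr, hKr⟩ := h_antilip (Fin (D n) → ℝ) (Mn n) Φ (fderiv ℝ Φ 0) hs (by
    intro v hv
    rw [hd v, smul_eq_zero] at hv
    rcases hv with hv | hv
    · exact absurd hv Complex.I_ne_zero
    · have : (p_up_J n v : Hn n) = 0 := Subtype.ext hv
      exact (p_up_J n).map_eq_zero_iff.1 this)
  refine ⟨K, r, hK, hr, fun x y hx hy => ?_⟩
  have := hKr x y hx hy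
  rw [Subtype.dist_eq, dist_eq_norm]
  exact this

theorem p_up (h_fub : S_fub) (h_antilip : S_antilip) (h_inv : S_inv) (h_exder : S_exder) :
    S_up := by
  intro n _ _ μ _ _
  obtain ⟨K, r, hK, hr, hKr⟩ := p_up_anti n h_antilip h_exder
  refine ⟨(2 * K / r) ^ D n, by positivity, fun ε hε => ?_⟩
  have key := h_fub (U n) μ (Fin (D n)) (closedBall 0 r) (fun ξ => ex (p_up_J n ξ)) K ε
    (μ (closedBall 1 ε)) Set.univ isClosed_closedBall.measurableSet (p_up_cont h_exder) hK hε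
    (fun ξ hξ ξ' hξ' => hKr ξ ξ' (by simpa using hξ) (by simpa using hξ'))
    (fun ξ _ => (h_inv n μ _ ε).ge) MeasurableSet.univ (fun _ _ _ _ => Set.mem_univ _)
  rw [measure_univ, mul_one, Real.volume_pi_closedBall _ hr.le, Fintype.card_fin] at key
  have hr' : (0 : ℝ) < (2 * r) ^ D n := by positivity
  rw [← ENNReal.le_div_iff_mul_le (Or.inl (by simpa using hr')) (Or.inl ENNReal.ofReal_ne_top),
    ← ENNReal.ofReal_div_of_pos hr'] at key
  refine key.trans (le_of_eq ?_)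
  congr 1
  rw [← div_pow, ← mul_pow]
  congr 1
  field_simp
  ring

end Pool.Agent.Lib.MP_ef6aaf_al
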