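import Pool.Agent.Lib.MP_ef6aaf_al.StmA

/-!
# Piece wchart: the word at the chart
-/

set_option autoImplicit false

open MeasureTheory Metric
open scoped Matrix.Norms.L2Operator

namespace Pool.Agent.Lib.MP_ef6aaf_al

private lemma p_wchart_add {n : ℕ} (s s' : ℝ) :
    ex ((s + s') • (1 : Hn n)) = ex (s • (1 : Hn n)) * ex (s' • (1 : Hn n)) := by
  unfold ex
  rw [add_smul]
  apply Commute.expUnitary_add
  have h1 : ((s • (1 : Hn n) : Hn n) : Mn n) = s • (1 : Mn n) := rfl
  rw [h1]
  exact (Commute.one_left _).smul_left s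

private lemma p_wchart_zero {n : ℕ} : ex ((0 : ℝ) • (1 : Hn n)) = 1 := by
  unfold ex
  rw [zero_smul, selfAdjoint.expUnitary_zero]

private lemma p_wchart_central {n : ℕ} (s : ℝ) (u : U n) :
    ex (s • (1 : Hn n)) * u = u * ex (s • (1 : Hn n)) := by
  have h1 : ((s • (1 : Hn n) : Hn n) : Mn n) = s • (1 : Mn n) := rfl
  have h2 : Commute (Complex.I • ((s • (1 : Hn n) : Hn n) : Mn n)) (u : Mn n) := by
    rw [h1]
    exact ((Commute.one_left _).smul_left s).smul_left _
  have h3 := h2.exp_left
  apply Subtype.ext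
  unfold ex
  rw [Submonoid.coe_mul, Submonoid.coe_mul, selfAdjoint.expUnitary_coe]
  exact h3

theorem p_wchart (h_evmul : S_evmul) : S_wchart := by
  intro n f e B t a w
  obtain ⟨hmul, hof, hone, _⟩ := h_evmul e
  set G1 : FreeGroup (Fin 2) →* U n := FreeGroup.lift (fun i => ex (a i) * f i) with hG1
  let Φ : FreeGroup (Fin 2) →* U n :=
    { toFun := fun w => ex B * (ex ((t * (ev e w : ℝ)) • (1 : Hn n)) * G1 w) * (ex B)⁻¹
      map_one' := by
        rw [hone, Int.cast_zero, mul_zero, p_wchart_zero, map_one]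
        group
      map_mul' := by
        intro g h
        rw [hmul, Int.cast_add, mul_add, p_wchart_add, map_mul]
        have h1 := p_wchart_central (n := n) (t * (ev e h : ℝ)) (G1 g)
        generalize ex ((t * (ev e h : ℝ)) • (1 : Hn n)) = c at h1 ⊢
        generalize ex ((t * (ev e g : ℝ)) • (1 : Hn n)) = d
        have h2 : d * c * (G1 g * G1 h) = d * G1 g * (c * G1 h) := by
          calc d * c * (G1 g * G1 h) = d * (c * G1 g) * G1 h := by group
            _ = d * (G1 g * c) * G1 h := by rw [h1]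
            _ = d * G1 g * (c * G1 h) := by group
        rw [h2]
        group }
  have hΦ : FreeGroup.lift (chart f e B t a) = Φ := by
    apply FreeGroup.ext_hom
    intro i
    rw [FreeGroup.lift_apply_of]
    change chart f e B t a i = ex B * (ex ((t * (ev e (FreeGroup.of i) : ℝ)) • (1 : Hn n)) *
      G1 (FreeGroup.of i)) * (ex B)⁻¹
    rw [hof, hG1, FreeGroup.lift_apply_of]
    rfl
  rw [hΦ]
  rfl

end Pool.Agent.Lib.MP_ef6aaf_al
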