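import Pool.Agent.Lib.MP_ef6aaf_al.StmA

/-!
[wder] The derivative of the word map on cocycles.
-/

open MeasureTheory Metric
open scoped Matrix.Norms.L2Operator

namespace Pool.Agent.Lib.MP_ef6aaf_al

private theorem ex_zero {n : ℕ} : ex (0 : Hn n) = 1 := by
  unfold ex
  exact selfAdjoint.expUnitary_zero

private theorem wm_zero {n : ℕ} (f : Fin 2 → U n) (g : FreeGroup (Fin 2)) :
    wm f g 0 = ((FreeGroup.lift f g : U n) : Mn n) := by
  unfold wm
  simp only [Pi.zero_apply, ex_zero, one_mul]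

private theorem wm_mul {n : ℕ} (f : Fin 2 → U n) (g h : FreeGroup (Fin 2)) :
    wm f (g * h) = fun a => wm f g a * wm f h a := by
  funext a
  unfold wm
  rw [map_mul]
  rfl

private theorem wm_one {n : ℕ} (f : Fin 2 → U n) :
    wm f 1 = fun _ => (1 : Mn n) := by
  funext a
  unfold wm
  rw [map_one]
  rfl

theorem p_wder (h_exder : S_exder) (h_wsm : S_wsm) : S_wder := by
  intro n f δ hδ w
  obtain ⟨v, hv⟩ : ∃ v : Fin 2 → Hn n, v = fun i => δ (FreeGroup.of i) := ⟨_, rfl⟩
  rw [← hv]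
  have hd : ∀ g, DifferentiableAt ℝ (wm f g) 0 := fun g =>
    ((h_wsm n f g).differentiable (by norm_num)).differentiableAt
  -- the derivative of a product
  have hD : ∀ g h : FreeGroup (Fin 2), fderiv ℝ (wm f (g * h)) 0 v =
      ((FreeGroup.lift f g : U n) : Mn n) * fderiv ℝ (wm f h) 0 v +
        fderiv ℝ (wm f g) 0 v * ((FreeGroup.lift f h : U n) : Mn n) := by
    intro g h
    rw [wm_mul]
    have h1 := HasFDerivAt.fun_mul' (E := Fin 2 → Hn n) (𝔸 := Mn n) (𝕜 := ℝ)
      (hd g).hasFDerivAt (hd h).hasFDerivAt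
    rw [h1.fderiv, wm_zero, wm_zero]
    rfl
  have hD1 : fderiv ℝ (wm f 1) 0 v = 0 := by
    rw [wm_one]
    simp
  -- the right hand side
  have hT : ∀ g h : FreeGroup (Fin 2),
      Complex.I • (δ (g * h) : Mn n) * ((FreeGroup.lift f (g * h) : U n) : Mn n) =
      ((FreeGroup.lift f g : U n) : Mn n) *
        (Complex.I • (δ h : Mn n) * ((FreeGroup.lift f h : U n) : Mn n)) +
        (Complex.I • (δ g : Mn n) * ((FreeGroup.lift f g : U n) : Mn n)) *
          ((FreeGroup.lift f h : U n) : Mn n) := by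
    intro g h
    have h1 : star ((FreeGroup.lift f g : U n) : Mn n) * ((FreeGroup.lift f g : U n) : Mn n) = 1 :=
      Unitary.coe_star_mul_self _
    have h2 : ((δ (g * h) : Hn n) : Mn n) = (δ g : Mn n) +
        ((FreeGroup.lift f g : U n) : Mn n) * (δ h : Mn n) *
          star ((FreeGroup.lift f g : U n) : Mn n) := by
      rw [hδ g h]
      rfl
    have h3 : ((FreeGroup.lift f (g * h) : U n) : Mn n) =
        ((FreeGroup.lift f g : U n) : Mn n) * ((FreeGroup.lift f h : U n) : Mn n) := by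
      rw [map_mul]
      rfl
    rw [h2, h3]
    obtain ⟨a, ha⟩ : ∃ a, a = ((FreeGroup.lift f g : U n) : Mn n) := ⟨_, rfl⟩
    obtain ⟨b, hb⟩ : ∃ b, b = ((FreeGroup.lift f h : U n) : Mn n) := ⟨_, rfl⟩
    rw [← ha] at h1 ⊢
    rw [← hb]
    simp only [smul_add, add_mul, smul_mul_assoc, mul_smul_comm]
    rw [add_comm]
    congr 1
    · congr 1
      calc a * (δ h : Mn n) * star a * (a * b) = a * (δ h : Mn n) * (star a * a) * b := by
            simp only [mul_assoc]
        _ = a * ((δ h : Mn n) * b) := by rw [h1, mul_one, mul_assoc]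
    · rw [mul_assoc]
  have hδ1 : δ 1 = 0 := by
    have h := hδ 1 1
    rw [mul_one] at h
    have h1 : cj (FreeGroup.lift f 1) (δ 1) = δ 1 := by
      rw [map_one]
      ext1
      show (((1 : U n) : Mn n)) * (δ 1 : Mn n) * star (((1 : U n) : Mn n)) = (δ 1 : Mn n)
      simp
    rw [h1] at h
    exact (left_eq_add.mp h)
  have hT1 : Complex.I • (δ 1 : Mn n) * ((FreeGroup.lift f 1 : U n) : Mn n) = 0 := by
    rw [hδ1]
    simp
  induction w using FreeGroup.induction_on with
  | C1 => rw [hD1, hT1]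
  | of i =>
    have h1 : wm f (FreeGroup.of i) = fun a => ((ex (a i) : U n) : Mn n) * (f i : Mn n) := by
      funext a
      unfold wm
      rw [FreeGroup.lift_apply_of]
      rfl
    have h2 : HasFDerivAt (fun a : Hn n => ((ex a : U n) : Mn n))
        (fderiv ℝ (fun a : Hn n => ((ex a : U n) : Mn n)) 0) ((ContinuousLinearMap.proj i :
          (Fin 2 → Hn n) →L[ℝ] Hn n) 0) := by
      rw [map_zero]
      exact (((h_exder n).1).differentiable (by norm_num)).differentiableAt.hasFDerivAt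
    have h3 := h2.comp (0 : Fin 2 → Hn n) (ContinuousLinearMap.proj i :
          (Fin 2 → Hn n) →L[ℝ] Hn n).hasFDerivAt
    have h4 : HasFDerivAt (fun a : Fin 2 → Hn n => ((ex (a i) : U n) : Mn n) * (f i : Mn n)) _ 0 :=
      h3.mul_const' (f i : Mn n)
    have h5 : fderiv ℝ (wm f (FreeGroup.of i)) 0 v =
        fderiv ℝ (fun a : Hn n => ((ex a : U n) : Mn n)) 0 (v i) * (f i : Mn n) := by
      rw [h1, HasFDerivAt.fderiv h4]
      rfl
    rw [h5, (h_exder n).2, hv, FreeGroup.lift_apply_of]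
  | inv_of i ih =>
    have e1 := hD (FreeGroup.of i)⁻¹ (FreeGroup.of i)
    have e2 := hT (FreeGroup.of i)⁻¹ (FreeGroup.of i)
    rw [inv_mul_cancel, hD1] at e1
    rw [inv_mul_cancel, hT1, ← ih] at e2
    have e3 : fderiv ℝ (wm f (FreeGroup.of i)⁻¹) 0 v *
        ((FreeGroup.lift f (FreeGroup.of i) : U n) : Mn n) =
        (Complex.I • (δ (FreeGroup.of i)⁻¹ : Mn n) *
          ((FreeGroup.lift f (FreeGroup.of i)⁻¹ : U n) : Mn n)) *
        ((FreeGroup.lift f (FreeGroup.of i) : U n) : Mn n) := by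
      rw [e1] at e2
      exact add_left_cancel e2
    have e4 := congrArg (fun z : Mn n => z * star ((FreeGroup.lift f (FreeGroup.of i) : U n) : Mn n)) e3
    have e5 : ((FreeGroup.lift f (FreeGroup.of i) : U n) : Mn n) *
        star ((FreeGroup.lift f (FreeGroup.of i) : U n) : Mn n) = 1 := Unitary.coe_mul_star_self _
    rw [mul_assoc, e5, mul_one, mul_assoc _ _ (star _), e5, mul_one] at e4
    exact e4
  | mul g h hg hh => rw [hD, hT, hg, hh]

end Pool.Agent.Lib.MP_ef6aaf_al
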