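import Pool.Agent.Lib.MP_ef6aaf_al.StmA

/-!
# [wlip] Word maps are Lipschitz
-/

open MeasureTheory Metric
open scoped Matrix.Norms.L2Operator

namespace Pool.Agent.Lib.MP_ef6aaf_al

private theorem p_wlip_norm_le_one' {n : ℕ} (u : U n) : ‖(u : Mn n)‖ ≤ 1 := by
  cases subsingleton_or_nontrivial (Mn n)
  · rw [Subsingleton.elim (u : Mn n) 0, norm_zero]; exact zero_le_one
  · rw [CStarRing.norm_of_mem_unitary u.2]

theorem p_wlip : S_wlip := by
  intro n w
  suffices H : ∃ L : ℝ, 0 ≤ L ∧ ∀ q q' : Fin 2 → U n,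
      ‖((FreeGroup.lift q w : U n) : Mn n) - ((FreeGroup.lift q' w : U n) : Mn n)‖ ≤ L * dist q q' by
    obtain ⟨L, hL, h⟩ := H
    refine ⟨L + 1, by positivity, fun q q' => (h q q').trans ?_⟩
    have := dist_nonneg (x := q) (y := q')
    nlinarith
  induction w using FreeGroup.induction_on with
  | C1 => exact ⟨0, le_rfl, fun q q' => by simp⟩
  | of i =>
    refine ⟨1, zero_le_one, fun q q' => ?_⟩
    rw [FreeGroup.lift_apply_of, FreeGroup.lift_apply_of, one_mul]
    have h := dist_le_pi_dist q q' i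
    rw [Subtype.dist_eq, dist_eq_norm] at h
    exact h
  | inv_of i h =>
    obtain ⟨L, hL, h⟩ := h
    refine ⟨L, hL, fun q q' => ?_⟩
    have e : ∀ u v : U n, ‖((u⁻¹ : U n) : Mn n) - ((v⁻¹ : U n) : Mn n)‖ = ‖(u : Mn n) - (v : Mn n)‖ := by
      intro u v
      have h1 : ((u⁻¹ : U n) : Mn n) - ((v⁻¹ : U n) : Mn n) = star ((u : Mn n) - (v : Mn n)) := by
        rw [star_sub]; rfl
      rw [h1, norm_star]
    rw [map_inv, map_inv, e]
    exact h q q'
  | mul x y hx hy =>
    obtain ⟨L, hL, hx⟩ := hx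
    obtain ⟨M, hM, hy⟩ := hy
    refine ⟨L + M, by positivity, fun q q' => ?_⟩
    have hx := hx q q'
    have hy := hy q q'
    rw [map_mul, map_mul]
    generalize FreeGroup.lift q x = a at *
    generalize FreeGroup.lift q' x = a' at *
    generalize FreeGroup.lift q y = b at *
    generalize FreeGroup.lift q' y = b' at *
    have e : ((a * b : U n) : Mn n) - ((a' * b' : U n) : Mn n) =
        ((a : Mn n) - (a' : Mn n)) * (b : Mn n) + (a' : Mn n) * ((b : Mn n) - (b' : Mn n)) := by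
      rw [Submonoid.coe_mul, Submonoid.coe_mul]
      noncomm_ring
    rw [e]
    calc _ ≤ ‖((a : Mn n) - (a' : Mn n)) * (b : Mn n)‖ + ‖(a' : Mn n) * ((b : Mn n) - (b' : Mn n))‖ := norm_add_le _ _
      _ ≤ ‖(a : Mn n) - (a' : Mn n)‖ * ‖(b : Mn n)‖ + ‖(a' : Mn n)‖ * ‖(b : Mn n) - (b' : Mn n)‖ :=
          add_le_add (norm_mul_le _ _) (norm_mul_le _ _)
      _ ≤ ‖(a : Mn n) - (a' : Mn n)‖ * 1 + 1 * ‖(b : Mn n) - (b' : Mn n)‖ := by
          gcongr
          · exact p_wlip_norm_le_one' b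
          · exact p_wlip_norm_le_one' a'
      _ ≤ L * dist q q' + M * dist q q' := by rw [mul_one, one_mul]; exact add_le_add hx hy
      _ = (L + M) * dist q q' := by ring

end Pool.Agent.Lib.MP_ef6aaf_al
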