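import Pool.Agent.Lib.MP_ef6aaf_al.StmC

/-!
# Irreducible abelian unitary representations are one-dimensional
-/

open MeasureTheory Metric Matrix
open scoped Matrix.Norms.L2Operator

namespace Pool.Agent.Lib.MP_ef6aaf_al

private theorem p_abirr_scalar {Γ : Type} [Group Γ] {k : ℕ} (hk : 1 ≤ k) (ρ : Γ →* U k)
    (hirr : IsIrr ρ) (hab : ∀ g h, ρ g * ρ h = ρ h * ρ g) (g : Γ) :
    ∃ c : ℂ, ∀ x : Fin k → ℂ, (ρ g : Mn k).mulVec x = c • x := by
  have : Nonempty (Fin k) := ⟨⟨0, hk⟩⟩
  obtain ⟨c, hc⟩ := Module.End.exists_eigenvalue (Matrix.mulVecLin (ρ g : Mn k))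
  refine ⟨c, ?_⟩
  rcases hirr (Module.End.eigenspace (Matrix.mulVecLin (ρ g : Mn k)) c) (by
    intro h x hx
    rw [Module.End.mem_eigenspace_iff] at hx ⊢
    rw [Matrix.mulVecLin_apply] at hx ⊢
    have e : (ρ g : Mn k) * (ρ h : Mn k) = (ρ h : Mn k) * (ρ g : Mn k) := by
      have := congrArg (fun u : U k => (u : Mn k)) (hab g h)
      simpa using this
    rw [Matrix.mulVec_mulVec, e, ← Matrix.mulVec_mulVec, hx, Matrix.mulVec_smul]) with h | h
  · exact absurd h hc
  · intro x
    have hx : x ∈ Module.End.eigenspace (Matrix.mulVecLin (ρ g : Mn k)) c := by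
      rw [h]; exact Submodule.mem_top
    rw [Module.End.mem_eigenspace_iff, Matrix.mulVecLin_apply] at hx
    exact hx

theorem p_abirr : S_abirr := by
  intro Γ _ k ρ hirr hab
  by_contra hk
  rw [not_le] at hk
  have hk1 : 1 ≤ k := by omega
  set e : Fin k → ℂ := fun _ => 1 with he
  have he0 : e ≠ 0 := by
    intro h
    have := congrFun h ⟨0, hk1⟩
    simp [he] at this
  rcases hirr (Submodule.span ℂ {e}) (by
    intro g x hx
    obtain ⟨c, hc⟩ := p_abirr_scalar hk1 ρ hirr hab g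
    rw [hc x]
    exact Submodule.smul_mem _ c hx) with h | h
  · rw [Submodule.span_singleton_eq_bot] at h
    exact he0 h
  · have h1 := finrank_span_singleton (K := ℂ) he0
    rw [h, finrank_top, Module.finrank_fin_fun] at h1
    omega

end Pool.Agent.Lib.MP_ef6aaf_al
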