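import Pool.Agent.Lib.MP_ef6aaf_al.StmC

/-!
MP_ef6aaf_al, [aff]: the affine representation of a group with perfect commutator subgroup.
-/

open MeasureTheory Metric Matrix
open scoped Matrix.Norms.L2Operator
open scoped commutatorElement

namespace Pool.Agent.Lib.MP_ef6aaf_al

section

variable {R : Type*} [CommRing R] (φ : LaurentPolynomial ℤ →+* R)

private noncomputable def p_aff_B : Equiv.Perm R where
  toFun p := φ (LaurentPolynomial.T 1) * p
  invFun p := φ (LaurentPolynomial.T (-1)) * p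
  left_inv p := by
    change φ (LaurentPolynomial.T (-1)) * (φ (LaurentPolynomial.T 1) * p) = p
    rw [← mul_assoc, ← map_mul, ← LaurentPolynomial.T_add, neg_add_cancel, LaurentPolynomial.T_zero,
      map_one, one_mul]
  right_inv p := by
    change φ (LaurentPolynomial.T 1) * (φ (LaurentPolynomial.T (-1)) * p) = p
    rw [← mul_assoc, ← map_mul, ← LaurentPolynomial.T_add, add_neg_cancel, LaurentPolynomial.T_zero,
      map_one, one_mul]

private noncomputable def p_aff_Phi : FreeGroup (Fin 2) →* Equiv.Perm R :=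
  FreeGroup.lift ![Equiv.addLeft 1, p_aff_B φ]

private theorem p_aff_key (h : S_evmul) {F : FreeGroup (Fin 2) → LaurentPolynomial ℤ}
    (hF : IsFox F) (g : FreeGroup (Fin 2)) :
    ∀ r : R, p_aff_Phi φ g r = φ (F g) + φ (LaurentPolynomial.T (e1 g)) * r := by
  obtain ⟨hm, hof, h1, hinv⟩ := h ![0, 1]
  change (∀ g h, e1 (g * h) = e1 g + e1 h) at hm
  change (∀ i, e1 (FreeGroup.of i) = ![0, 1] i) at hof
  change e1 1 = 0 at h1
  change (∀ g, e1 g⁻¹ = - e1 g) at hinv
  obtain ⟨hF0, hF1, hFm⟩ := hF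
  have hFone : F 1 = 0 := by
    have h2 := hFm 1 1
    rw [h1, LaurentPolynomial.T_zero, mul_one, one_mul] at h2
    have h3 : F 1 + 0 = F 1 + F 1 := by rw [add_zero]; exact h2
    exact (add_left_cancel h3).symm
  have hof' : ∀ i : Fin 2, ∀ r : R, p_aff_Phi φ (FreeGroup.of i) r =
      φ (F (FreeGroup.of i)) + φ (LaurentPolynomial.T (e1 (FreeGroup.of i))) * r := by
    intro i r
    rw [hof]
    fin_cases i
    · simp [p_aff_Phi, hF0]
    · simp [p_aff_Phi, p_aff_B, hF1]
  induction g using FreeGroup.induction_on with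
  | C1 =>
    intro r
    rw [h1, map_one, LaurentPolynomial.T_zero, hFone]
    simp
  | of i => exact hof' i
  | inv_of i _ =>
    intro r
    rw [map_inv, Equiv.Perm.inv_eq_iff_eq, hof', mul_add, ← mul_assoc, ← map_mul, ← map_mul,
      ← LaurentPolynomial.T_add, hinv, add_neg_cancel, LaurentPolynomial.T_zero, map_one, one_mul,
      ← add_assoc, ← map_add, ← hFm, mul_inv_cancel, hFone, map_zero, zero_add]
  | mul g g' ih ih' =>
    intro r
    rw [map_mul, Equiv.Perm.mul_apply, ih' r, ih, hFm, hm, LaurentPolynomial.T_add, map_add, map_mul,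
      map_mul]
    ring

end

theorem p_aff (h_evmul : S_evmul) : S_aff := by
  intro w F hF hw hperf
  have hF' := hF
  obtain ⟨hm, hof, h1, hinv⟩ := h_evmul ![0, 1]
  change (∀ g h, e1 (g * h) = e1 g + e1 h) at hm
  change (∀ i, e1 (FreeGroup.of i) = ![0, 1] i) at hof
  change e1 1 = 0 at h1
  change (∀ g, e1 g⁻¹ = - e1 g) at hinv
  obtain ⟨hF0, hF1, hFm⟩ := hF'
  let I : Ideal (LaurentPolynomial ℤ) := Ideal.span {F w}
  let φ : LaurentPolynomial ℤ →+* (LaurentPolynomial ℤ ⧸ I) := Ideal.Quotient.mk I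
  have hkey := p_aff_key φ h_evmul hF
  have hφw : φ (F w) = 0 := by
    rw [Ideal.Quotient.eq_zero_iff_mem]
    exact Ideal.subset_span rfl
  have hker : Subgroup.normalClosure {w} ≤ (p_aff_Phi φ).ker := by
    apply Subgroup.normalClosure_le_normal
    rw [Set.singleton_subset_iff]
    change p_aff_Phi φ w = 1
    apply Equiv.ext
    intro r
    rw [hkey, hφw, hw, LaurentPolynomial.T_zero, map_one, one_mul, zero_add]
    rfl
  let Ψ : G w →* Equiv.Perm (LaurentPolynomial ℤ ⧸ I) :=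
    QuotientGroup.lift (Subgroup.normalClosure {w}) (p_aff_Phi φ) (fun g hg => hker hg)
  have hΨ : ∀ g : FreeGroup (Fin 2), Ψ (QuotientGroup.mk g) = p_aff_Phi φ g := fun g => rfl
  -- the subgroup of elements acting as translations
  let Tr : Subgroup (G w) :=
    { carrier := {a | ∃ c, ∀ r, Ψ a r = c + r}
      mul_mem' := by
        rintro a b ⟨c, hc⟩ ⟨d, hd⟩
        refine ⟨c + d, fun r => ?_⟩
        rw [map_mul, Equiv.Perm.mul_apply, hd, hc, add_assoc]
      one_mem' := ⟨0, fun r => by rw [map_one, zero_add]; rfl⟩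
      inv_mem' := by
        rintro a ⟨c, hc⟩
        refine ⟨-c, fun r => ?_⟩
        rw [map_inv, Equiv.Perm.inv_eq_iff_eq, hc]
        ring }
  have hTr : commutator (G w) ≤ Tr := by
    rw [commutator_def, Subgroup.commutator_le]
    intro a _ b _
    obtain ⟨g, rfl⟩ := QuotientGroup.mk_surjective a
    obtain ⟨h, rfl⟩ := QuotientGroup.mk_surjective b
    have h2 : (⁅(QuotientGroup.mk g : G w), (QuotientGroup.mk h : G w)⁆ : G w) =
        QuotientGroup.mk ⁅g, h⁆ := rfl
    rw [h2]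
    refine ⟨φ (F ⁅g, h⁆), fun r => ?_⟩
    rw [hΨ, hkey]
    have h3 : e1 ⁅g, h⁆ = 0 := by
      rw [commutatorElement_def, hm, hm, hm, hinv, hinv]
      ring
    rw [h3, LaurentPolynomial.T_zero, map_one, one_mul]
  have hker2 : commutator (G w) ≤ Ψ.ker := by
    rw [← hperf, Subgroup.commutator_le]
    intro a ha b hb
    obtain ⟨c, hc⟩ := hTr ha
    obtain ⟨d, hd⟩ := hTr hb
    rw [MonoidHom.mem_ker, map_commutatorElement, commutatorElement_eq_one_iff_mul_comm]
    apply Equiv.ext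
    intro r
    rw [Equiv.Perm.mul_apply, Equiv.Perm.mul_apply, hd, hc, hc, hd]
    ring
  have h4 : (QuotientGroup.mk ⁅FreeGroup.of (1 : Fin 2), FreeGroup.of (0 : Fin 2)⁆ : G w) ∈
      commutator (G w) := by
    have h5 : (QuotientGroup.mk ⁅FreeGroup.of (1 : Fin 2), FreeGroup.of (0 : Fin 2)⁆ : G w) =
      ⁅(QuotientGroup.mk (FreeGroup.of (1 : Fin 2)) : G w),
        (QuotientGroup.mk (FreeGroup.of (0 : Fin 2)) : G w)⁆ := rfl
    rw [h5, commutator_def]
    exact Subgroup.commutator_mem_commutator (Subgroup.mem_top _) (Subgroup.mem_top _)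
  have h6 : Ψ (QuotientGroup.mk ⁅FreeGroup.of (1 : Fin 2), FreeGroup.of (0 : Fin 2)⁆) 0 = 0 := by
    have h7 := hker2 h4
    rw [MonoidHom.mem_ker] at h7
    rw [h7]
    rfl
  rw [hΨ, hkey, mul_zero, add_zero, Ideal.Quotient.eq_zero_iff_mem, Ideal.mem_span_singleton] at h6
  obtain ⟨q, hq⟩ := h6
  refine ⟨q, ?_⟩
  rw [← hq]
  have hFone : F 1 = 0 := by
    have h2 := hFm 1 1
    rw [h1, LaurentPolynomial.T_zero, mul_one, one_mul] at h2
    have h3 : F 1 + 0 = F 1 + F 1 := by rw [add_zero]; exact h2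
    exact (add_left_cancel h3).symm
  have hof0 : e1 (FreeGroup.of (0 : Fin 2)) = 0 := hof 0
  have hof1 : e1 (FreeGroup.of (1 : Fin 2)) = 1 := hof 1
  have hy : F (FreeGroup.of (1 : Fin 2))⁻¹ = 0 := by
    have h8 := hFm (FreeGroup.of (1 : Fin 2))⁻¹ (FreeGroup.of (1 : Fin 2))
    rw [inv_mul_cancel, hFone, hF1, mul_zero, add_zero] at h8
    exact h8.symm
  have hx : F (FreeGroup.of (0 : Fin 2))⁻¹ = -1 := by
    have h8 := hFm (FreeGroup.of (0 : Fin 2))⁻¹ (FreeGroup.of (0 : Fin 2))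
    rw [inv_mul_cancel, hFone, hF0, mul_one, hinv, hof0, neg_zero, LaurentPolynomial.T_zero] at h8
    linear_combination -h8
  rw [commutatorElement_def, hFm, hFm, hFm, hm, hm, hm, hF1, hF0, hy, hx, hinv, hof1, hof0,
    add_zero]
  have h9 : (1 : ℤ) + -1 = 0 := by norm_num
  rw [h9, LaurentPolynomial.T_zero]
  ring

end Pool.Agent.Lib.MP_ef6aaf_al
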