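import Pool.Agent.Lib.MP_ef6aaf_al.StmC

/-!
MP_ef6aaf_al, [alex]: the Alexander polynomial is a unit.
-/

open MeasureTheory Metric Matrix
open scoped Matrix.Norms.L2Operator

namespace Pool.Agent.Lib.MP_ef6aaf_al

theorem p_alex (h_foxp : S_foxp) (h_lau : S_lau) (h_aff : S_aff) : S_alex := by
  intro w F hF h1 h0 hc
  obtain ⟨q, hq⟩ := h_aff w F hF h1 hc
  refine h_lau (F w) q hq ?_
  rw [(h_foxp F hF).2.2.1 w]
  exact h0

end Pool.Agent.Lib.MP_ef6aaf_al
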