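import Pool.Agent.Lib.MP_ef6aaf_al.StmC

open MeasureTheory Metric Matrix
open scoped Matrix.Norms.L2Operator

namespace Pool.Agent.Lib.MP_ef6aaf_al

private noncomputable def p_cay_mat {Q : Type} [Group Q] {m : ℕ} (e : Q ≃ Fin m) (g : Q) : Mn m := by
  classical
  exact Matrix.of fun i j => if e.symm i = g * e.symm j then 1 else 0

private lemma p_cay_apply {Q : Type} [Group Q] {m : ℕ} (e : Q ≃ Fin m) (g : Q) (i j : Fin m) :
    p_cay_mat e g i j = (open Classical in if e.symm i = g * e.symm j then (1 : ℂ) else 0) := by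
  simp [p_cay_mat]

private lemma p_cay_mul {Q : Type} [Group Q] {m : ℕ} (e : Q ≃ Fin m) (g h : Q) :
    p_cay_mat e (g * h) = p_cay_mat e g * p_cay_mat e h := by
  classical
  ext i j
  rw [Matrix.mul_apply, Finset.sum_eq_single (e (h * e.symm j))]
  · rw [p_cay_apply, p_cay_apply, p_cay_apply, Equiv.symm_apply_apply]
    by_cases H : e.symm i = g * (h * e.symm j)
    · rw [if_pos H, if_pos rfl, if_pos (by rw [H, mul_assoc]), mul_one]
    · rw [if_neg H, if_neg (by rw [mul_assoc]; exact H), zero_mul]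
  · intro l _ hl
    rw [p_cay_apply e h l j, if_neg, mul_zero]
    intro H
    apply hl
    rw [← H, Equiv.apply_symm_apply]
  · intro H
    exact absurd (Finset.mem_univ _) H

private lemma p_cay_one {Q : Type} [Group Q] {m : ℕ} (e : Q ≃ Fin m) :
    p_cay_mat e 1 = 1 := by
  classical
  ext i j
  rw [p_cay_apply, Matrix.one_apply, one_mul]
  by_cases H : i = j
  · rw [if_pos H, if_pos (by rw [H])]
  · rw [if_neg H, if_neg (fun h => H (e.symm.injective h))]

private lemma p_cay_star {Q : Type} [Group Q] {m : ℕ} (e : Q ≃ Fin m) (g : Q) :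
    star (p_cay_mat e g) = p_cay_mat e g⁻¹ := by
  classical
  ext i j
  rw [Matrix.star_apply, p_cay_apply, p_cay_apply]
  by_cases H : e.symm j = g * e.symm i
  · rw [if_pos H, if_pos (by rw [H, inv_mul_cancel_left]), star_one]
  · rw [if_neg H, if_neg (fun h => H (by rw [h, mul_inv_cancel_left])), star_zero]

theorem p_cay : S_cay := by
  classical
  intro Q _ _
  let e : Q ≃ Fin (Nat.card Q) := Finite.equivFin Q
  have hmem : ∀ g : Q, p_cay_mat e g ∈ Matrix.unitaryGroup (Fin (Nat.card Q)) ℂ := by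
    intro g
    rw [Matrix.mem_unitaryGroup_iff, p_cay_star, ← p_cay_mul, mul_inv_cancel, p_cay_one]
  refine ⟨MonoidHom.mk' (fun g => (⟨p_cay_mat e g, hmem g⟩ : U (Nat.card Q))) ?_, ?_⟩
  · intro g h
    apply Subtype.ext
    exact p_cay_mul e g h
  · intro g h hgh
    have h1 : p_cay_mat e g = p_cay_mat e h := congrArg Subtype.val hgh
    have h2 := congrFun (congrFun h1 (e g)) (e 1)
    rw [p_cay_apply, p_cay_apply, Equiv.symm_apply_apply, Equiv.symm_apply_apply, mul_one, mul_one,
      if_pos rfl] at h2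
    by_contra H
    rw [if_neg H] at h2
    exact one_ne_zero h2

end Pool.Agent.Lib.MP_ef6aaf_al
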