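import Pool.Agent.Lib.MP_ef6aaf_al.StmC

open MeasureTheory Metric
open scoped Matrix.Norms.L2Operator

namespace Pool.Agent.Lib.MP_ef6aaf_al

private lemma p_cyc_form (h_evmul : S_evmul) {Q : Type} [Group Q] (φ : FreeGroup (Fin 2) →* Q)
    (hc : ∀ a b : Q, a * b = b * a) (g : FreeGroup (Fin 2)) :
    φ g = φ (FreeGroup.of 0) ^ e0 g * φ (FreeGroup.of 1) ^ e1 g := by
  obtain ⟨m0, o0, z0, i0⟩ := h_evmul ![1, 0]
  obtain ⟨m1, o1, z1, i1⟩ := h_evmul ![0, 1]
  have M0 : ∀ g h, e0 (g * h) = e0 g + e0 h := m0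
  have M1 : ∀ g h, e1 (g * h) = e1 g + e1 h := m1
  have hof : ∀ i : Fin 2, φ (FreeGroup.of i) = φ (FreeGroup.of 0) ^ e0 (FreeGroup.of i) *
      φ (FreeGroup.of 1) ^ e1 (FreeGroup.of i) := by
    intro i
    have a0 : e0 (FreeGroup.of i) = ![1, 0] i := o0 i
    have a1 : e1 (FreeGroup.of i) = ![0, 1] i := o1 i
    rw [a0, a1]
    fin_cases i
    · simp
    · simp
  have hmul : ∀ g h, φ g = φ (FreeGroup.of 0) ^ e0 g * φ (FreeGroup.of 1) ^ e1 g →
      φ h = φ (FreeGroup.of 0) ^ e0 h * φ (FreeGroup.of 1) ^ e1 h →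
      φ (g * h) = φ (FreeGroup.of 0) ^ e0 (g * h) * φ (FreeGroup.of 1) ^ e1 (g * h) := by
    intro g h hg hh
    rw [map_mul, hg, hh, M0, M1, zpow_add, zpow_add]
    rw [mul_assoc, ← mul_assoc (φ (FreeGroup.of 1) ^ e1 g),
      hc (φ (FreeGroup.of 1) ^ e1 g) (φ (FreeGroup.of 0) ^ e0 h)]
    simp only [mul_assoc]
  induction g using FreeGroup.induction_on with
  | C1 =>
    have a0 : e0 1 = 0 := z0
    have a1 : e1 1 = 0 := z1
    rw [a0, a1]; simp
  | of i => exact hof i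
  | inv_of i _ =>
    have a0 : e0 (FreeGroup.of i)⁻¹ = - e0 (FreeGroup.of i) := i0 _
    have a1 : e1 (FreeGroup.of i)⁻¹ = - e1 (FreeGroup.of i) := i1 _
    rw [map_inv, hof i, a0, a1, zpow_neg, zpow_neg, mul_inv_rev, hc]
  | mul g h hg hh => exact hmul g h hg hh

theorem p_cyc (h_evmul : S_evmul) : S_cyc := by
  intro w hw1 hw0 Q _ f hf hc
  set φ : FreeGroup (Fin 2) →* Q := f.comp (QuotientGroup.mk' (Subgroup.normalClosure {w})) with hφ
  have hw : φ w = 1 := by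
    have h1 : (QuotientGroup.mk' (Subgroup.normalClosure {w})) w = 1 := by
      rw [QuotientGroup.mk'_apply, QuotientGroup.eq_one_iff]
      exact Subgroup.subset_normalClosure (Set.mem_singleton w)
    rw [hφ, MonoidHom.comp_apply, h1, map_one]
  have hx : φ (FreeGroup.of 0) = 1 := by
    have h1 := p_cyc_form h_evmul φ hc w
    rw [hw, hw1, zpow_zero, mul_one] at h1
    rcases hw0 with h | h
    · rw [h, zpow_one] at h1; exact h1.symm
    · rw [h, zpow_neg, zpow_one] at h1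
      exact inv_eq_one.mp h1.symm
  refine ⟨φ (FreeGroup.of 1), fun q => ?_⟩
  obtain ⟨u, hu⟩ := hf q
  obtain ⟨g, rfl⟩ := QuotientGroup.mk'_surjective _ u
  refine ⟨e1 g, ?_⟩
  have h1 := p_cyc_form h_evmul φ hc g
  rw [hx, one_zpow, one_mul] at h1
  show φ (FreeGroup.of 1) ^ e1 g = q
  rw [← h1, ← hu]
  rfl

end Pool.Agent.Lib.MP_ef6aaf_al
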