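import Pool.Agent.Lib.MP_ef6aaf_al.StmC

/-!
# Piece [dec]: the mass at the identity cannot decay too fast
-/

open MeasureTheory Metric Matrix
open scoped Matrix.Norms.L2Operator

namespace Pool.Agent.Lib.MP_ef6aaf_al

private noncomputable def p_dec_seq (C ε : ℝ) : ℕ → ℝ
  | 0 => ε
  | j + 1 => p_dec_seq C ε j - C * (p_dec_seq C ε j) ^ 2

private lemma p_dec_inv {C ε : ℝ} (hC : 0 < C) (hε : 0 < ε) (hCε : C * ε ≤ 1 / 2) (j : ℕ) :
    0 < p_dec_seq C ε j ∧ p_dec_seq C ε j ≤ ε ∧ 1 / p_dec_seq C ε j ≤ 1 / ε + 2 * C * j := by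
  induction j with
  | zero =>
    refine ⟨hε, le_refl _, ?_⟩
    simp [p_dec_seq]
  | succ j ih =>
    obtain ⟨h1, h2, h3⟩ := ih
    set a := p_dec_seq C ε j with ha
    have h4 : p_dec_seq C ε (j + 1) = a * (1 - C * a) := by
      rw [p_dec_seq, ← ha]
      ring
    have h5 : C * a ≤ 1 / 2 := le_trans (mul_le_mul_of_nonneg_left h2 hC.le) hCε
    have h6 : 0 < C * a := mul_pos hC h1
    have h7 : 0 < 1 - C * a := by linarith
    rw [h4]
    refine ⟨mul_pos h1 h7, ?_, ?_⟩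
    · calc a * (1 - C * a) ≤ a * 1 := mul_le_mul_of_nonneg_left (by linarith) h1.le
        _ = a := mul_one a
        _ ≤ ε := h2
    · have h8 : 1 / (a * (1 - C * a)) ≤ 1 / a + 2 * C := by
        rw [div_le_iff₀ (mul_pos h1 h7)]
        have h9 : (1 / a + 2 * C) * (a * (1 - C * a)) = (1 + 2 * (C * a)) * (1 - C * a) := by
          field_simp
        rw [h9]
        nlinarith
      push_cast
      linarith

theorem p_dec : S_dec := by
  intro m D c C θ ε₀ hc hC hθ hε₀ hlow hup hstep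
  -- a small starting point
  obtain ⟨ε, hε, hεε₀, hCε⟩ : ∃ ε : ℝ, 0 < ε ∧ ε ≤ ε₀ ∧ C * ε ≤ 1 / 2 := by
    refine ⟨min ε₀ (1 / (2 * C)), lt_min hε₀ (by positivity), min_le_left _ _, ?_⟩
    calc C * min ε₀ (1 / (2 * C)) ≤ C * (1 / (2 * C)) :=
          mul_le_mul_of_nonneg_left (min_le_right _ _) hC.le
      _ = 1 / 2 := by field_simp
  have hinv := p_dec_inv hC hε hCε
  have hpos : ∀ j, 0 < m (p_dec_seq C ε j) := fun j =>
    lt_of_lt_of_le (mul_pos hc (pow_pos (hinv j).1 D))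
      (hlow _ (hinv j).1 ((hinv j).2.1.trans hεε₀))
  have hs : ∀ j, m (p_dec_seq C ε (j + 1)) ≤ (1 - θ) * m (p_dec_seq C ε j) := fun j =>
    hstep _ (hinv j).1 ((hinv j).2.1.trans hεε₀)
  have hθ1 : 0 < 1 - θ := by
    by_contra hcon
    push Not at hcon
    have h1 := hs 0
    have h2 := hpos 0
    have h3 := hpos (0 + 1)
    nlinarith
  have hm : ∀ j, m (p_dec_seq C ε j) ≤ (1 - θ) ^ j := by
    intro j
    induction j with
    | zero =>
      rw [pow_zero]
      exact hup _ (hinv 0).1 ((hinv 0).2.1.trans hεε₀)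
    | succ j ih =>
      calc m (p_dec_seq C ε (j + 1)) ≤ (1 - θ) * m (p_dec_seq C ε j) := hs j
        _ ≤ (1 - θ) * (1 - θ) ^ j := mul_le_mul_of_nonneg_left ih hθ1.le
        _ = (1 - θ) ^ (j + 1) := by ring
  -- the polynomial bound
  set A : ℝ := 1 / ε + 2 * C with hA
  have hApos : 0 < A := by positivity
  have hkey : ∀ j : ℕ, 1 ≤ j → c ≤ (A * 2) ^ D * ((j : ℝ) ^ D * (1 - θ) ^ j) := by
    intro j hj
    obtain ⟨h1, h2, h3⟩ := hinv j
    have hj1 : (1 : ℝ) ≤ j := by exact_mod_cast hj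
    have h4 : c * (p_dec_seq C ε j) ^ D ≤ (1 - θ) ^ j :=
      (hlow _ h1 (h2.trans hεε₀)).trans (hm j)
    have h5 : 1 / p_dec_seq C ε j ≤ A * 2 * j := by
      have h6 : 0 < 1 / ε := by positivity
      have h7 : 1 / ε * 1 ≤ 1 / ε * j := mul_le_mul_of_nonneg_left hj1 h6.le
      have h8 : 0 ≤ C * j := by positivity
      rw [hA]
      nlinarith
    have h6 : c = c * (p_dec_seq C ε j) ^ D * (1 / p_dec_seq C ε j) ^ D := by
      rw [mul_assoc, ← mul_pow, mul_one_div_cancel h1.ne', one_pow, mul_one]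
    calc c = c * (p_dec_seq C ε j) ^ D * (1 / p_dec_seq C ε j) ^ D := h6
      _ ≤ (1 - θ) ^ j * (A * 2 * j) ^ D := by
          apply mul_le_mul h4 _ (by positivity) (by positivity)
          exact pow_le_pow_left₀ (by positivity) h5 D
      _ = (A * 2) ^ D * ((j : ℝ) ^ D * (1 - θ) ^ j) := by rw [mul_pow]; ring
  have hlim : Filter.Tendsto (fun j : ℕ => (A * 2) ^ D * ((j : ℝ) ^ D * (1 - θ) ^ j)) Filter.atTop
      (nhds ((A * 2) ^ D * 0)) :=
    (tendsto_pow_const_mul_const_pow_of_abs_lt_one D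
      (by rw [abs_of_pos hθ1]; linarith)).const_mul _
  have hle : c ≤ (A * 2) ^ D * 0 :=
    ge_of_tendsto hlim (Filter.eventually_atTop.mpr ⟨1, fun j hj => hkey j hj⟩)
  rw [mul_zero] at hle
  linarith

end Pool.Agent.Lib.MP_ef6aaf_al
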