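import Pool.Agent.Lib.MP_ef6aaf_al.StmC

/-!
MP_ef6aaf_al, [expd]: expansion of a word near the pairs `(1, y)`.
-/

open MeasureTheory Metric Matrix
open scoped Matrix.Norms.L2Operator

namespace Pool.Agent.Lib.MP_ef6aaf_al

private theorem p_expd_le {n : ℕ} (u : U n) : ‖(u : Mn n)‖ ≤ 1 := by
  cases subsingleton_or_nontrivial (Mn n)
  · rw [Subsingleton.elim (u : Mn n) 0, norm_zero]; exact zero_le_one
  · exact (CStarRing.norm_of_mem_unitary u.2).le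

private theorem p_expd_X {n : ℕ} (u : U n) : ‖(u : Mn n) - 1‖ ≤ 2 := by
  have h1 := p_expd_le u
  have h2 : ‖(1 : Mn n)‖ ≤ 1 := by
    have := p_expd_le (1 : U n)
    simpa using this
  calc ‖(u : Mn n) - 1‖ ≤ ‖(u : Mn n)‖ + ‖(1 : Mn n)‖ := norm_sub_le _ _
    _ ≤ 2 := by linarith

private theorem p_expd_one {n : ℕ} (y : U n) (h : Mn n) : act y 1 h = h := by
  unfold act
  change (Finsupp.single (0 : ℤ) (1 : ℤ)).sum _ = _
  rw [Finsupp.sum_single_index] <;> simp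

/-- the algebraic identity behind the product step -/
private theorem p_expd_prod {n : ℕ} (A B ya yai yb u v : Mn n) (hy : yai * ya = 1) :
    u * v - (1 + (A + ya * B * yai)) * (ya * yb) =
      (u - (1 + A) * ya) * v + ((1 + A) * ya) * (v - (1 + B) * yb) + A * ya * B * yb := by
  have h1 : ya * B * yai * (ya * yb) = ya * B * yb := by
    calc ya * B * yai * (ya * yb) = ya * B * (yai * ya) * yb := by simp only [mul_assoc]
      _ = ya * B * yb := by rw [hy, mul_one]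
  calc u * v - (1 + (A + ya * B * yai)) * (ya * yb)
      = u * v - ya * yb - A * (ya * yb) - ya * B * yai * (ya * yb) := by noncomm_ring
    _ = u * v - ya * yb - A * (ya * yb) - ya * B * yb := by rw [h1]
    _ = _ := by noncomm_ring

theorem p_expd (h_foxp : S_foxp) (h_act : S_act) (h_evmul : S_evmul) : S_expd := by
  intro n F hF g
  obtain ⟨hm, hof, h1, hinv⟩ := h_evmul ![0, 1]
  change (∀ g h, e1 (g * h) = e1 g + e1 h) at hm
  change (∀ i, e1 (FreeGroup.of i) = ![0, 1] i) at hof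
  change e1 1 = 0 at h1
  change (∀ g, e1 g⁻¹ = - e1 g) at hinv
  obtain ⟨hFone, hFinv, -⟩ := h_foxp F hF
  obtain ⟨hF0, hF1, hFm⟩ := hF
  obtain ⟨hadd, hneg, hmulT, -, hbd⟩ := h_act n
  have hact0 : ∀ (y : U n) h, act y 0 h = 0 := by
    intro y h
    have h2 := hadd y 0 0 h
    rw [add_zero] at h2
    have h3 : act y 0 h + 0 = act y 0 h + act y 0 h := by rw [add_zero]; exact h2
    exact (add_left_cancel h3).symm
  have hof0 : e1 (FreeGroup.of (0 : Fin 2)) = 0 := hof 0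
  have hof1 : e1 (FreeGroup.of (1 : Fin 2)) = 1 := hof 1
  have hletter : ∀ i : Fin 2, ∃ C : ℝ, 0 < C ∧ ∀ q : Fin 2 → U n,
      ‖((FreeGroup.lift q (FreeGroup.of i) : U n) : Mn n) -
        (1 + act (q 1) (F (FreeGroup.of i)) ((q 0 : Mn n) - 1)) *
          ((q 1 ^ e1 (FreeGroup.of i) : U n) : Mn n)‖ ≤ C * ‖(q 0 : Mn n) - 1‖ ^ 2 := by
    intro i
    refine ⟨1, one_pos, fun q => ?_⟩
    have hnn : 0 ≤ 1 * ‖(q 0 : Mn n) - 1‖ ^ 2 := by positivity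
    have hz : ((FreeGroup.lift q (FreeGroup.of i) : U n) : Mn n) -
        (1 + act (q 1) (F (FreeGroup.of i)) ((q 0 : Mn n) - 1)) *
          ((q 1 ^ e1 (FreeGroup.of i) : U n) : Mn n) = 0 := by
      rw [FreeGroup.lift_apply_of]
      fin_cases i
      · change (q 0 : Mn n) - (1 + act (q 1) (F (FreeGroup.of 0)) ((q 0 : Mn n) - 1)) *
          ((q 1 ^ e1 (FreeGroup.of 0) : U n) : Mn n) = 0
        rw [hF0, hof0, p_expd_one]
        simp
      · change (q 1 : Mn n) - (1 + act (q 1) (F (FreeGroup.of 1)) ((q 0 : Mn n) - 1)) *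
          ((q 1 ^ e1 (FreeGroup.of 1) : U n) : Mn n) = 0
        rw [hF1, hof1, hact0]
        simp
    rw [hz, norm_zero]
    exact hnn
  induction g using FreeGroup.induction_on with
  | C1 =>
    refine ⟨1, one_pos, fun q => ?_⟩
    rw [h1, hFone, hact0, map_one]
    have hnn : 0 ≤ 1 * ‖(q 0 : Mn n) - 1‖ ^ 2 := by positivity
    simpa using hnn
  | of i => exact hletter i
  | inv_of i _ =>
    refine ⟨1, one_pos, fun q => ?_⟩
    rw [map_inv, FreeGroup.lift_apply_of]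
    have hnn : 0 ≤ 1 * ‖(q 0 : Mn n) - 1‖ ^ 2 := by positivity
    fin_cases i
    · change ‖(((q 0)⁻¹ : U n) : Mn n) - (1 + act (q 1) (F (FreeGroup.of 0)⁻¹) ((q 0 : Mn n) - 1)) *
          ((q 1 ^ e1 (FreeGroup.of 0)⁻¹ : U n) : Mn n)‖ ≤ _
      rw [hFinv, hinv, hof0, hF0, neg_zero, LaurentPolynomial.T_zero, one_mul, hneg, p_expd_one,
        _root_.zpow_zero]
      have h2 : (((q 0)⁻¹ : U n) : Mn n) * (q 0 : Mn n) = 1 := by
        have := congrArg (fun u : U n => (u : Mn n)) (inv_mul_cancel (q 0))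
        simpa using this
      have h3 : (((q 0)⁻¹ : U n) : Mn n) - (1 + -((q 0 : Mn n) - 1)) * ((1 : U n) : Mn n) =
          (((q 0)⁻¹ : U n) : Mn n) * (((q 0 : Mn n) - 1) * ((q 0 : Mn n) - 1)) := by
        have h4 : (((q 0)⁻¹ : U n) : Mn n) * (((q 0 : Mn n) - 1) * ((q 0 : Mn n) - 1)) =
            ((((q 0)⁻¹ : U n) : Mn n) * (q 0 : Mn n)) * (q 0 : Mn n)
              - 2 * ((((q 0)⁻¹ : U n) : Mn n) * (q 0 : Mn n)) + (((q 0)⁻¹ : U n) : Mn n) := by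
          noncomm_ring
        rw [h4, h2]
        have h5 : ((1 : U n) : Mn n) = 1 := rfl
        rw [h5]
        noncomm_ring
      rw [h3, one_mul, pow_two]
      calc ‖(((q 0)⁻¹ : U n) : Mn n) * (((q 0 : Mn n) - 1) * ((q 0 : Mn n) - 1))‖
          ≤ ‖(((q 0)⁻¹ : U n) : Mn n)‖ * ‖((q 0 : Mn n) - 1) * ((q 0 : Mn n) - 1)‖ := norm_mul_le _ _
        _ ≤ 1 * (‖(q 0 : Mn n) - 1‖ * ‖(q 0 : Mn n) - 1‖) := by
            apply mul_le_mul (p_expd_le _) (norm_mul_le _ _) (norm_nonneg _) zero_le_one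
        _ = _ := one_mul _
    · change ‖(((q 1)⁻¹ : U n) : Mn n) - (1 + act (q 1) (F (FreeGroup.of 1)⁻¹) ((q 0 : Mn n) - 1)) *
          ((q 1 ^ e1 (FreeGroup.of 1)⁻¹ : U n) : Mn n)‖ ≤ _
      rw [hFinv, hinv, hof1, hF1, mul_zero, neg_zero, hact0, add_zero, one_mul, _root_.zpow_neg_one, sub_self,
        norm_zero]
      exact hnn
  | mul g g' ih ih' =>
    obtain ⟨C1, hC1, hg⟩ := ih
    obtain ⟨C2, hC2, hg'⟩ := ih'
    obtain ⟨A1, hA1, hb1⟩ := hbd (F g)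
    obtain ⟨A2, hA2, hb2⟩ := hbd (F g')
    refine ⟨C1 + (1 + A1 * 2) * C2 + A1 * A2, by positivity, fun q => ?_⟩
    set X : Mn n := (q 0 : Mn n) - 1 with hX
    set A := act (q 1) (F g) X with hA
    set B := act (q 1) (F g') X with hB
    set u : Mn n := ((FreeGroup.lift q g : U n) : Mn n) with hu
    set v : Mn n := ((FreeGroup.lift q g' : U n) : Mn n) with hv
    have e1' : (((FreeGroup.lift q) (g * g') : U n) : Mn n) = u * v := by
      rw [map_mul]; rfl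
    have e2' : act (q 1) (F (g * g')) X =
        A + ((q 1 ^ e1 g : U n) : Mn n) * B * ((q 1 ^ (- e1 g) : U n) : Mn n) := by
      rw [hFm, hadd, hmulT]
    have e3' : ((q 1 ^ e1 (g * g') : U n) : Mn n) =
        ((q 1 ^ e1 g : U n) : Mn n) * ((q 1 ^ e1 g' : U n) : Mn n) := by
      rw [hm, _root_.zpow_add]; rfl
    have e4' : ((q 1 ^ (- e1 g) : U n) : Mn n) * ((q 1 ^ e1 g : U n) : Mn n) = 1 := by
      have h5 : (q 1 ^ (- e1 g) : U n) * (q 1 ^ e1 g : U n) = 1 := by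
        rw [← _root_.zpow_add, neg_add_cancel, _root_.zpow_zero]
      have h6 := congrArg (fun u : U n => (u : Mn n)) h5
      exact h6
    rw [e1', e2', e3', p_expd_prod A B _ _ _ u v e4']
    have hXn : 0 ≤ ‖X‖ := norm_nonneg _
    have hX2 : ‖X‖ ≤ 2 := p_expd_X (q 0)
    have hAX : ‖A‖ ≤ A1 * ‖X‖ := hb1 _ _
    have hBX : ‖B‖ ≤ A2 * ‖X‖ := hb2 _ _
    have hone : ‖(1 : Mn n)‖ ≤ 1 := by
      have := p_expd_le (1 : U n)
      simpa using this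
    have hn1 : ‖(u - (1 + A) * ((q 1 ^ e1 g : U n) : Mn n)) * v‖ ≤ C1 * ‖X‖ ^ 2 := by
      refine (norm_mul_le _ _).trans ?_
      have h5 := hg q
      have h6 : ‖v‖ ≤ 1 := p_expd_le _
      have h7 : 0 ≤ ‖u - (1 + A) * ((q 1 ^ e1 g : U n) : Mn n)‖ := norm_nonneg _
      calc ‖u - (1 + A) * ((q 1 ^ e1 g : U n) : Mn n)‖ * ‖v‖
          ≤ ‖u - (1 + A) * ((q 1 ^ e1 g : U n) : Mn n)‖ * 1 := mul_le_mul_of_nonneg_left h6 h7
        _ ≤ C1 * ‖X‖ ^ 2 := by rw [mul_one]; exact h5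
    have hn2 : ‖(1 + A) * ((q 1 ^ e1 g : U n) : Mn n)‖ ≤ 1 + A1 * 2 := by
      refine (norm_mul_le _ _).trans ?_
      have h6 : ‖((q 1 ^ e1 g : U n) : Mn n)‖ ≤ 1 := p_expd_le _
      have h7 : ‖1 + A‖ ≤ 1 + A1 * 2 := by
        refine (norm_add_le _ _).trans ?_
        have h8 : A1 * ‖X‖ ≤ A1 * 2 := mul_le_mul_of_nonneg_left hX2 hA1.le
        linarith
      calc ‖1 + A‖ * ‖((q 1 ^ e1 g : U n) : Mn n)‖ ≤ ‖1 + A‖ * 1 :=
            mul_le_mul_of_nonneg_left h6 (norm_nonneg _)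
        _ ≤ 1 + A1 * 2 := by rw [mul_one]; exact h7
    have hn3 : ‖((1 + A) * ((q 1 ^ e1 g : U n) : Mn n)) *
        (v - (1 + B) * ((q 1 ^ e1 g' : U n) : Mn n))‖ ≤ (1 + A1 * 2) * C2 * ‖X‖ ^ 2 := by
      refine (norm_mul_le _ _).trans ?_
      have h5 := hg' q
      calc ‖(1 + A) * ((q 1 ^ e1 g : U n) : Mn n)‖ * ‖v - (1 + B) * ((q 1 ^ e1 g' : U n) : Mn n)‖
          ≤ (1 + A1 * 2) * (C2 * ‖X‖ ^ 2) :=
            mul_le_mul hn2 h5 (norm_nonneg _) (by positivity)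
        _ = _ := by ring
    have hn4 : ‖A * ((q 1 ^ e1 g : U n) : Mn n) * B * ((q 1 ^ e1 g' : U n) : Mn n)‖ ≤
        A1 * A2 * ‖X‖ ^ 2 := by
      have h6 : ‖((q 1 ^ e1 g : U n) : Mn n)‖ ≤ 1 := p_expd_le _
      have h7 : ‖((q 1 ^ e1 g' : U n) : Mn n)‖ ≤ 1 := p_expd_le _
      calc ‖A * ((q 1 ^ e1 g : U n) : Mn n) * B * ((q 1 ^ e1 g' : U n) : Mn n)‖
          ≤ ‖A * ((q 1 ^ e1 g : U n) : Mn n) * B‖ * ‖((q 1 ^ e1 g' : U n) : Mn n)‖ := norm_mul_le _ _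
        _ ≤ ‖A * ((q 1 ^ e1 g : U n) : Mn n) * B‖ * 1 :=
            mul_le_mul_of_nonneg_left h7 (norm_nonneg _)
        _ = ‖A * ((q 1 ^ e1 g : U n) : Mn n) * B‖ := mul_one _
        _ ≤ ‖A * ((q 1 ^ e1 g : U n) : Mn n)‖ * ‖B‖ := norm_mul_le _ _
        _ ≤ (‖A‖ * ‖((q 1 ^ e1 g : U n) : Mn n)‖) * ‖B‖ :=
            mul_le_mul_of_nonneg_right (norm_mul_le _ _) (norm_nonneg _)
        _ ≤ (‖A‖ * 1) * ‖B‖ :=
            mul_le_mul_of_nonneg_right (mul_le_mul_of_nonneg_left h6 (norm_nonneg _)) (norm_nonneg _)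
        _ = ‖A‖ * ‖B‖ := by rw [mul_one]
        _ ≤ (A1 * ‖X‖) * (A2 * ‖X‖) := mul_le_mul hAX hBX (norm_nonneg _) (by positivity)
        _ = _ := by ring
    calc _ ≤ ‖(u - (1 + A) * ((q 1 ^ e1 g : U n) : Mn n)) * v + ((1 + A) * ((q 1 ^ e1 g : U n) : Mn n)) *
        (v - (1 + B) * ((q 1 ^ e1 g' : U n) : Mn n))‖ +
          ‖A * ((q 1 ^ e1 g : U n) : Mn n) * B * ((q 1 ^ e1 g' : U n) : Mn n)‖ := norm_add_le _ _
      _ ≤ (‖(u - (1 + A) * ((q 1 ^ e1 g : U n) : Mn n)) * v‖ + ‖((1 + A) * ((q 1 ^ e1 g : U n) : Mn n)) *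
        (v - (1 + B) * ((q 1 ^ e1 g' : U n) : Mn n))‖) +
          ‖A * ((q 1 ^ e1 g : U n) : Mn n) * B * ((q 1 ^ e1 g' : U n) : Mn n)‖ := by
            gcongr
            exact norm_add_le _ _
      _ ≤ (C1 + (1 + A1 * 2) * C2 + A1 * A2) * ‖X‖ ^ 2 := by linarith

end Pool.Agent.Lib.MP_ef6aaf_al
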