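import Pool.Agent.Lib.MP_ef6aaf_al.StmC

/-!
MP_ef6aaf_al, [fox]: existence of the Fox derivative.
-/

open MeasureTheory Metric Matrix
open scoped Matrix.Norms.L2Operator

namespace Pool.Agent.Lib.MP_ef6aaf_al

private noncomputable def p_fox_B : Equiv.Perm (LaurentPolynomial ℤ) where
  toFun p := LaurentPolynomial.T 1 * p
  invFun p := LaurentPolynomial.T (-1) * p
  left_inv p := by
    change LaurentPolynomial.T (-1) * (LaurentPolynomial.T 1 * p) = p
    rw [← mul_assoc, ← LaurentPolynomial.T_add, neg_add_cancel, LaurentPolynomial.T_zero, one_mul]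
  right_inv p := by
    change LaurentPolynomial.T 1 * (LaurentPolynomial.T (-1) * p) = p
    rw [← mul_assoc, ← LaurentPolynomial.T_add, add_neg_cancel, LaurentPolynomial.T_zero, one_mul]

private noncomputable def p_fox_Phi : FreeGroup (Fin 2) →* Equiv.Perm (LaurentPolynomial ℤ) :=
  FreeGroup.lift ![Equiv.addLeft 1, p_fox_B]

private theorem p_fox_key (h : S_evmul) (g : FreeGroup (Fin 2)) :
    ∀ p, p_fox_Phi g p = p_fox_Phi g 0 + LaurentPolynomial.T (e1 g) * p := by
  obtain ⟨hm, hof, h1, hinv⟩ := h ![0, 1]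
  change (∀ g h, e1 (g * h) = e1 g + e1 h) at hm
  change (∀ i, e1 (FreeGroup.of i) = ![0, 1] i) at hof
  change e1 1 = 0 at h1
  change (∀ g, e1 g⁻¹ = - e1 g) at hinv
  have hof' : ∀ i : Fin 2, ∀ p, p_fox_Phi (FreeGroup.of i) p =
      p_fox_Phi (FreeGroup.of i) 0 + LaurentPolynomial.T (e1 (FreeGroup.of i)) * p := by
    intro i p
    rw [hof]
    fin_cases i
    · simp [p_fox_Phi]
    · simp [p_fox_Phi, p_fox_B]
  induction g using FreeGroup.induction_on with
  | C1 =>
    intro p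
    rw [h1, map_one, LaurentPolynomial.T_zero]
    simp
  | of i => exact hof' i
  | inv_of i _ =>
    intro p
    have h2 := hof' i
    have h3 : ∀ q, p_fox_Phi (FreeGroup.of i) (p_fox_Phi (FreeGroup.of i)⁻¹ q) = q := by
      intro q
      rw [← Equiv.Perm.mul_apply, ← map_mul, mul_inv_cancel, map_one]
      rfl
    have h4 := h3 p
    have h5 := h3 0
    rw [h2] at h4 h5
    have h6 : LaurentPolynomial.T (e1 (FreeGroup.of i)) *
        (p_fox_Phi (FreeGroup.of i)⁻¹ p - p_fox_Phi (FreeGroup.of i)⁻¹ 0) = p := by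
      rw [mul_sub]
      linear_combination h4 - h5
    have h7 : p_fox_Phi (FreeGroup.of i)⁻¹ p - p_fox_Phi (FreeGroup.of i)⁻¹ 0 =
        LaurentPolynomial.T (e1 (FreeGroup.of i)⁻¹) * p := by
      rw [hinv]
      calc p_fox_Phi (FreeGroup.of i)⁻¹ p - p_fox_Phi (FreeGroup.of i)⁻¹ 0
          = LaurentPolynomial.T (-e1 (FreeGroup.of i)) *
            (LaurentPolynomial.T (e1 (FreeGroup.of i)) *
              (p_fox_Phi (FreeGroup.of i)⁻¹ p - p_fox_Phi (FreeGroup.of i)⁻¹ 0)) := by
            rw [← mul_assoc, ← LaurentPolynomial.T_add, neg_add_cancel,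
              LaurentPolynomial.T_zero, one_mul]
        _ = _ := by rw [h6]
    rw [← h7]
    ring
  | mul g g' ih ih' =>
    intro p
    rw [map_mul, Equiv.Perm.mul_apply, Equiv.Perm.mul_apply, ih (p_fox_Phi g' p),
      ih (p_fox_Phi g' 0), ih' p, hm, LaurentPolynomial.T_add]
    ring

theorem p_fox (h_evmul : S_evmul) : S_fox := by
  refine ⟨fun g => p_fox_Phi g 0, ?_, ?_, ?_⟩
  · simp [p_fox_Phi]
  · simp [p_fox_Phi, p_fox_B]
  · intro g h
    change p_fox_Phi (g * h) 0 = _
    rw [map_mul, Equiv.Perm.mul_apply]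
    exact p_fox_key h_evmul g _

end Pool.Agent.Lib.MP_ef6aaf_al
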