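import Pool.Agent.Lib.MP_ef6aaf_al.StmC

/-!
MP_ef6aaf_al, [foxp]: properties of the Fox derivative.
-/

open MeasureTheory Metric Matrix
open scoped Matrix.Norms.L2Operator

namespace Pool.Agent.Lib.MP_ef6aaf_al

private theorem p_foxp_add (p q : LaurentPolynomial ℤ) : aug (p + q) = aug p + aug q :=
  map_add _ _ _

private theorem p_foxp_mul (p q : LaurentPolynomial ℤ) : aug (p * q) = aug p * aug q :=
  map_mul _ _ _

private theorem p_foxp_T (k : ℤ) : aug (LaurentPolynomial.T k) = 1 := by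
  unfold aug
  rw [LaurentPolynomial.eval₂_T]
  simp

theorem p_foxp (h_evmul : S_evmul) : S_foxp := by
  intro F hF
  obtain ⟨hF0, hF1, hFm⟩ := hF
  obtain ⟨hm, hof, h1, hinv⟩ := h_evmul ![0, 1]
  change (∀ g h, e1 (g * h) = e1 g + e1 h) at hm
  change (∀ i, e1 (FreeGroup.of i) = ![0, 1] i) at hof
  change e1 1 = 0 at h1
  change (∀ g, e1 g⁻¹ = - e1 g) at hinv
  obtain ⟨hm', hof', h1', hinv'⟩ := h_evmul ![1, 0]
  change (∀ g h, e0 (g * h) = e0 g + e0 h) at hm'
  change (∀ i, e0 (FreeGroup.of i) = ![1, 0] i) at hof'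
  change e0 1 = 0 at h1'
  change (∀ g, e0 g⁻¹ = - e0 g) at hinv'
  have hone : F 1 = 0 := by
    have h := hFm 1 1
    rw [mul_one, h1, LaurentPolynomial.T_zero, one_mul] at h
    exact left_eq_add.1 h
  have hin : ∀ g, F g⁻¹ = - (LaurentPolynomial.T (- e1 g) * F g) := by
    intro g
    have h := hFm g⁻¹ g
    rw [inv_mul_cancel, hone, hinv] at h
    exact eq_neg_of_add_eq_zero_left h.symm
  have haug0 : aug 0 = 0 := map_zero _
  have haug : ∀ g, aug (F g) = e0 g := by
    intro g
    induction g using FreeGroup.induction_on with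
    | C1 => rw [hone, h1', haug0]
    | of i =>
      change aug (F (FreeGroup.of i)) = e0 (FreeGroup.of i)
      rw [hof']
      fin_cases i
      · change aug (F (FreeGroup.of 0)) = 1
        rw [hF0]
        exact map_one _
      · change aug (F (FreeGroup.of 1)) = 0
        rw [hF1, haug0]
    | inv_of i ih =>
      rw [hin, hinv', ← ih]
      have h : aug (-(LaurentPolynomial.T (-e1 (FreeGroup.of i)) * F (FreeGroup.of i))) =
          -(aug (LaurentPolynomial.T (-e1 (FreeGroup.of i)) * F (FreeGroup.of i))) := map_neg _ _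
      change aug (-(LaurentPolynomial.T (-e1 (FreeGroup.of i)) * F (FreeGroup.of i))) = _
      rw [h, p_foxp_mul, p_foxp_T, one_mul]
    | mul g g' ih ih' =>
      rw [hFm, p_foxp_add, p_foxp_mul, p_foxp_T, one_mul, ih, ih', hm']
  refine ⟨hone, hin, haug, p_foxp_add, p_foxp_mul, fun k => ⟨p_foxp_T k, ?_⟩⟩
  have h : aug (-LaurentPolynomial.T k) = -(aug (LaurentPolynomial.T k)) := map_neg _ _
  rw [h, p_foxp_T]

end Pool.Agent.Lib.MP_ef6aaf_al
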