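import Pool.Agent.Lib.MP_ef6aaf_al.StmC

open MeasureTheory Metric Matrix
open scoped Matrix.Norms.L2Operator

namespace Pool.Agent.Lib.MP_ef6aaf_al

private theorem p_lau_aug {p : LaurentPolynomial ℤ} {P : Polynomial ℤ} {a : ℕ}
    (h : Polynomial.toLaurent P = p * LaurentPolynomial.T a) : P.eval 1 = aug p := by
  have h1 := congrArg (LaurentPolynomial.eval₂ (RingHom.id ℤ) 1) h
  rw [LaurentPolynomial.eval₂_toLaurent, map_mul, LaurentPolynomial.eval₂_T] at h1
  simp only [_root_.one_zpow, Units.val_one, mul_one] at h1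
  rw [← Polynomial.eval₂_id]
  exact h1

private theorem p_lau_poly {P Q : Polynomial ℤ} {N : ℕ} (h : P * Q = Polynomial.X ^ N * (Polynomial.X - 1))
    (hP : P.eval 1 ≠ 0) : ∃ i : ℕ, P = Polynomial.X ^ i ∨ P = - Polynomial.X ^ i := by
  have hQ : Q.eval 1 = 0 := by
    have h1 := congrArg (Polynomial.eval 1) h
    simp only [Polynomial.eval_mul, Polynomial.eval_sub, Polynomial.eval_X, Polynomial.eval_one, sub_self, mul_zero] at h1
    exact (mul_eq_zero.1 h1).resolve_left hP
  obtain ⟨Q', hQ'⟩ := (Polynomial.dvd_iff_isRoot (a := (1 : ℤ)) (p := Q)).2 hQ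
  have h2 : P * Q' = Polynomial.X ^ N := by
    have h3 : (Polynomial.X - 1 : Polynomial ℤ) ≠ 0 := by
      have := Polynomial.X_sub_C_ne_zero (1 : ℤ)
      simpa using this
    apply mul_left_cancel₀ h3
    have h4 : Q = (Polynomial.X - 1) * Q' := by simpa using hQ'
    rw [h4] at h
    calc (Polynomial.X - 1) * (P * Q') = P * ((Polynomial.X - 1) * Q') := by ring
      _ = (Polynomial.X - 1) * Polynomial.X ^ N := by rw [h]; ring
  obtain ⟨i, -, u, hu⟩ := (dvd_prime_pow Polynomial.prime_X N).1 (Dvd.intro _ h2)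
  refine ⟨i, ?_⟩
  obtain ⟨c, hc, hcu⟩ := Polynomial.isUnit_iff.1 u.isUnit
  rw [← hcu] at hu
  rcases Int.isUnit_iff.1 hc with rfl | rfl
  · left
    simpa using hu
  · right
    rw [← hu]
    simp

theorem p_lau : S_lau := by
  intro p q hpq hp
  obtain ⟨a, P, hP⟩ := LaurentPolynomial.exists_T_pow p
  obtain ⟨b, Q, hQ⟩ := LaurentPolynomial.exists_T_pow q
  have hPQ : P * Q = Polynomial.X ^ (a + b) * (Polynomial.X - 1) := by
    apply Polynomial.toLaurent_injective
    rw [map_mul, hP, hQ, map_mul, Polynomial.toLaurent_X_pow, map_sub, Polynomial.toLaurent_X, map_one, ← hpq,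
      Nat.cast_add, LaurentPolynomial.T_add]
    ring
  obtain ⟨i, hi⟩ := p_lau_poly hPQ (by rw [p_lau_aug hP]; exact hp)
  have key : p = Polynomial.toLaurent P * LaurentPolynomial.T (-(a : ℤ)) := by
    rw [hP, LaurentPolynomial.mul_T_assoc]
    simp
  refine ⟨(i : ℤ) - a, ?_⟩
  rcases hi with rfl | rfl
  · left
    rw [key, Polynomial.toLaurent_X_pow, LaurentPolynomial.T_sub]
  · right
    rw [key, map_neg, Polynomial.toLaurent_X_pow, LaurentPolynomial.T_sub, neg_mul]

end Pool.Agent.Lib.MP_ef6aaf_al
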