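import Pool.Agent.Lib.MP_ef6aaf_al.StmC

/-!
# Words inducing Haar measure on unitary groups, piece [loc]
-/

open MeasureTheory Metric Matrix
open scoped Matrix.Norms.L2Operator

namespace Pool.Agent.Lib.MP_ef6aaf_al

private lemma p_loc_comm {A B : Type*} [Group A] [Group B] (θ : A ≃* B)
    (h : ⁅commutator A, commutator A⁆ = commutator A) :
    ⁅commutator B, commutator B⁆ = commutator B := by
  have hm : (commutator A).map (θ : A →* B) = commutator B := by
    rw [commutator_def, commutator_def, Subgroup.map_commutator,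
      Subgroup.map_top_of_surjective _ θ.surjective]
  rw [← hm, ← Subgroup.map_commutator, h]

theorem p_loc (h_expo : S_expo) (h_norm : S_norm) (h_fox : S_fox) (h_alex : S_alex)
    (h_near1 : S_near1) (h_mass : S_mass) (h_irrz : S_irrz) (h_ne1 : S_ne1) : S_loc := by
  intro w n hn hperf hHaar ρ hirr
  have hexp := h_expo n w (by omega) hHaar
  obtain ⟨w', ⟨hNls, ⟨θ⟩⟩, he1, he0⟩ := h_norm w hexp
  have hHaar' : HaarOn w' n := hNls n hHaar
  have hperf' := p_loc_comm θ hperf
  obtain ⟨F, hF⟩ := h_fox
  have hal := h_alex w' F hF he1 he0 hperf'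
  have hC := h_near1 n w' F hF he1 hal
  set φ : FreeGroup (Fin 2) →* U n :=
    (ρ.comp (θ.symm : G w' →* G w)).comp (QuotientGroup.mk' (Subgroup.normalClosure {w'})) with hφ
  set f : Fin 2 → U n := fun i => φ (FreeGroup.of i) with hf
  have hlift : (FreeGroup.lift f : FreeGroup (Fin 2) →* U n) = φ := by
    ext1 i
    simp [hf]
  have hw' : (QuotientGroup.mk' (Subgroup.normalClosure {w'})) w' = 1 := by
    rw [QuotientGroup.mk'_apply, QuotientGroup.eq_one_iff]
    exact Subgroup.subset_normalClosure (Set.mem_singleton w')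
  have hliftw : FreeGroup.lift f w' = 1 := by
    rw [hlift, hφ, MonoidHom.comp_apply, hw', map_one]
  have hirr' : IsIrr (FreeGroup.lift f : FreeGroup (Fin 2) →* U n) := by
    intro W hW
    refine hirr W fun g x hx => ?_
    obtain ⟨h, hh⟩ := QuotientGroup.mk'_surjective (Subgroup.normalClosure {w'}) (θ g)
    have h1 := hW h x hx
    have h2 : FreeGroup.lift f h = ρ g := by
      rw [hlift, hφ, MonoidHom.comp_apply, hh, MonoidHom.comp_apply]
      congr 1
      exact θ.symm_apply_apply g
    rw [h2] at h1
    exact h1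
  exact h_mass n w' f (by omega) hHaar' hC hliftw he1 (h_ne1 n f hn hirr')
    (h_irrz n f (by omega) hirr')

end Pool.Agent.Lib.MP_ef6aaf_al
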