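import Pool.Agent.Lib.MP_ef6aaf_al.StmC

open MeasureTheory Metric Matrix
open scoped Matrix.Norms.L2Operator

namespace Pool.Agent.Lib.MP_ef6aaf_al

private lemma p_m3_perf {A B : Type*} [Group A] [Group B] (θ : A ≃* B) (h : ⁅commutator A, commutator A⁆ = commutator A) :
    ⁅commutator B, commutator B⁆ = commutator B := by
  have h1 : (commutator A).map θ.toMonoidHom = commutator B := by
    rw [commutator_def, commutator_def, Subgroup.map_commutator]
    have h2 : (⊤ : Subgroup A).map θ.toMonoidHom = ⊤ := Subgroup.map_top_of_surjective _ θ.surjective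
    rw [h2]
  rw [← h1, ← Subgroup.map_commutator, h]

theorem p_m3 (h_loc : S_loc) (h_nonab : S_nonab) (h_cay : S_cay) (h_expo : S_expo) (h_norm : S_norm)
    (h_fox : S_fox) (h_foxp : S_foxp) (h_alex : S_alex) (h_cyc : S_cyc) : S_m3 := by
  intro w N hp hH
  have hA : ∀ k ≤ N, ∀ (ρ : G w →* U k) (g h : G w), ρ g * ρ h = ρ h * ρ g := by
    intro k hk ρ g h
    by_contra hne
    obtain ⟨m, ρ', hm2, hmk, hirr⟩ := h_nonab (G w) k ρ g h hne
    exact h_loc w m hm2 hp (hH m hm2 (by omega)) ρ' hirr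
  refine ⟨hA, ?_⟩
  intro Q _ _ f hf hQ
  by_cases hN : N ≤ 1
  · have : Subsingleton Q := by
      rw [← Finite.card_le_one_iff_subsingleton]
      omega
    infer_instance
  push Not at hN
  obtain ⟨c, hc⟩ := h_cay Q
  have hcomm : ∀ a b : Q, a * b = b * a := by
    intro a b
    obtain ⟨g, rfl⟩ := hf a
    obtain ⟨h, rfl⟩ := hf b
    apply hc
    have := hA (Nat.card Q) hQ (c.comp f) g h
    simpa using this
  have hexp : ¬ (e0 w = 0 ∧ e1 w = 0) := h_expo 2 w (by norm_num) (hH 2 le_rfl (by omega))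
  obtain ⟨w', ⟨-, ⟨θ⟩⟩, he1, he0⟩ := h_norm w hexp
  obtain ⟨F, hF⟩ := h_fox
  obtain ⟨k, hk⟩ := h_alex w' F hF he1 he0 (p_m3_perf θ hp)
  obtain ⟨-, -, h3, -, -, h6⟩ := h_foxp F hF
  have he : e0 w' = 1 ∨ e0 w' = -1 := by
    rcases hk with hk | hk
    · left; rw [← h3, hk]; exact (h6 k).1
    · right; rw [← h3, hk]; exact (h6 k).2
  exact h_cyc w' he1 he Q (f.comp θ.symm.toMonoidHom) (hf.comp θ.symm.surjective) hcomm

end Pool.Agent.Lib.MP_ef6aaf_al
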