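import Pool.Agent.Lib.MP_ef6aaf_al.StmC

open MeasureTheory Metric Matrix
open scoped Matrix.Norms.L2Operator

namespace Pool.Agent.Lib.MP_ef6aaf_al

private lemma p_mass_cont (n : ℕ) (w : FreeGroup (Fin 2)) :
    Continuous fun q : Fin 2 → U n => FreeGroup.lift q w := by
  induction w using FreeGroup.induction_on with
  | C1 => simpa using continuous_const
  | of i => simpa using continuous_apply i
  | inv_of i h => simp only [map_inv]; exact Continuous.inv h
  | mul a b ha hb => simp only [map_mul]; exact Continuous.mul ha hb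

private lemma p_mass_closed (n : ℕ) (w : FreeGroup (Fin 2)) (f : Fin 2 → U n) (e : Fin 2 → ℤ) (ε : ℝ) :
    IsClosed (Near w f e ε) := by
  have h1 : IsClosed {q : Fin 2 → U n | ‖((FreeGroup.lift q w : U n) : Mn n) - 1‖ ≤ ε} :=
    isClosed_le (((continuous_subtype_val.comp (p_mass_cont n w)).sub continuous_const).norm) continuous_const
  have h2 : IsClosed {q : Fin 2 → U n | e 0 = 0 → ‖(f 0 : Mn n) - 1‖ / 2 ≤ ‖(q 0 : Mn n) - 1‖} := by
    by_cases he : e 0 = 0
    · simp only [he, forall_true_left]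
      exact isClosed_le continuous_const
        (((continuous_subtype_val.comp (continuous_apply 0)).sub continuous_const).norm)
    · simp only [he, false_imp_iff]
      exact isClosed_univ
  exact h1.inter h2

theorem p_mass (h_exmu : S_exmu) (h_up : S_up) (h_low : S_low) (h_core : S_core) (h_linalg : S_linalg)
    (h_theta : S_theta) (h_dec : S_dec) : S_mass := by
  intro n w f hn hw hC hf he1 hf0 hZ
  obtain ⟨C₁, hC₁, hnear⟩ := hC
  have he : (![0, 1] : Fin 2 → ℤ) ≠ 0 := by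
    intro h
    have := congrFun h 1
    simp at this
  have he0 : (![0, 1] : Fin 2 → ℤ) 0 = 0 := rfl
  have hev : ev ![0, 1] w = 0 := he1
  obtain ⟨Θ, hΘ, hΘr, hΘk⟩ := h_theta n w f ![0, 1] hn he hf hev
  obtain ⟨d, k, L1, L2, h1, h2, hL2, hinj⟩ := h_linalg (Hn n × ℝ) (Fin 2 → Hn n) Θ (LinearMap.range Θ) le_rfl
  have hV : Module.finrank ℝ (Hn n × ℝ) = D n + 1 := by
    rw [Module.finrank_prod, Module.finrank_self]; rfl
  have hrn := LinearMap.finrank_range_add_finrank_ker Θ
  rw [hΘk, hZ] at h1 hrn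
  rw [hV] at h1 hrn
  have hd : d = D n := by omega
  have hk : k = 0 := by omega
  refine h_exmu n False ?_
  intro _ _ μ _ _
  obtain ⟨c, C, s₀, hc, hC, hs₀, hcore⟩ := h_core n μ w f ![0, 1] d k L1 L2 hf hev (fun η => hΘr (hL2 η)) (by
    intro ξ η h
    refine hinj ξ η ?_
    funext i
    rw [Pi.add_apply, hΘ]
    exact h i)
  obtain ⟨C₂, hC₂, hup⟩ := h_up n μ
  obtain ⟨c₀, hc₀, hlow⟩ := h_low n μ
  have hδ : 0 < ‖(f 0 : Mn n) - 1‖ / 2 := by
    have : (f 0 : Mn n) - 1 ≠ 0 := by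
      intro h
      apply hf0
      exact Subtype.ext (sub_eq_zero.mp h)
    positivity
  -- lower bound for the second region
  have hreg : ∀ ε : ℝ, 0 < ε → ε ≤ C * s₀ ^ 2 →
      ENNReal.ofReal (c / C ^ D n * ε ^ D n) ≤ (Measure.pi fun _ : Fin 2 => μ) (Near w f ![0, 1] ε) := by
    intro ε hε hε'
    set s := Real.sqrt (ε / C) with hs
    have hspos : 0 < s := Real.sqrt_pos.mpr (by positivity)
    have hs2 : s ^ 2 = ε / C := Real.sq_sqrt (by positivity)
    have hss : s ≤ s₀ := by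
      rw [hs, Real.sqrt_le_left hs₀.le, div_le_iff₀ hC]
      linarith
    have h3 := hcore s hspos hss
    have h4 : C * s ^ 2 = ε := by rw [hs2]; field_simp
    rw [h4, hd, hk, add_zero] at h3
    have hfin : (Measure.pi fun _ : Fin 2 => μ) (Near w f ![0, 1] ε) ≠ ⊤ := measure_ne_top _ _
    obtain ⟨x, hx0, hx⟩ : ∃ x : ℝ, 0 ≤ x ∧ (Measure.pi fun _ : Fin 2 => μ) (Near w f ![0, 1] ε) = ENNReal.ofReal x :=
      ⟨_, ENNReal.toReal_nonneg, (ENNReal.ofReal_toReal hfin).symm⟩
    rw [hx] at h3 ⊢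
    rw [← ENNReal.ofReal_mul (by positivity), ENNReal.ofReal_le_ofReal_iff (by positivity)] at h3
    refine ENNReal.ofReal_le_ofReal ?_
    have h5 : 0 < s ^ (2 * D n) := by positivity
    have h6 : c * s ^ (2 * D n) * s ^ (2 * D n) ≤ x * s ^ (2 * D n) := by
      rw [mul_assoc, ← pow_add, show 2 * D n + 2 * D n = 4 * D n by ring, mul_comm x]
      exact h3
    have h7 := le_of_mul_le_mul_right h6 h5
    rw [pow_mul, hs2, div_pow] at h7
    calc c / C ^ D n * ε ^ D n = c * (ε ^ D n / C ^ D n) := by ring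
      _ ≤ x := h7
  set c' : ℝ := c / C ^ D n with hc'
  have hc'pos : 0 < c' := by positivity
  -- main inequality
  have hmain : ∀ ε : ℝ, 0 < ε → ε ≤ C * s₀ ^ 2 → ε < ‖(f 0 : Mn n) - 1‖ / 2 →
      (μ (closedBall 1 (ε - C₁ * ε ^ 2))).toReal + c' * ε ^ D n ≤ (μ (closedBall 1 ε)).toReal := by
    intro ε hε hε1 hε2
    have h6 := hw μ
    have h7 : μ (closedBall 1 ε) =
        (Measure.pi fun _ : Fin 2 => μ) ((fun q : Fin 2 → U n => FreeGroup.lift q w) ⁻¹' closedBall 1 ε) := by
      conv_lhs => rw [← h6]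
      rw [Measure.map_apply (p_mass_cont n w).measurable measurableSet_closedBall]
    have h8 : μ (closedBall 1 (ε - C₁ * ε ^ 2)) =
        (Measure.pi fun _ : Fin 2 => μ) ((fun q : Fin 2 → U n => q 0) ⁻¹' closedBall 1 (ε - C₁ * ε ^ 2)) := by
      have := (measurePreserving_eval (fun _ : Fin 2 => μ) 0).measure_preimage
        (measurableSet_closedBall (x := (1 : U n)) (ε := ε - C₁ * ε ^ 2)).nullMeasurableSet
      exact this.symm
    have hr : ε - C₁ * ε ^ 2 ≤ ε := by nlinarith [sq_nonneg ε]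
    have hsub : ((fun q : Fin 2 → U n => q 0) ⁻¹' closedBall 1 (ε - C₁ * ε ^ 2)) ∪ Near w f ![0, 1] ε ⊆
        ((fun q : Fin 2 → U n => FreeGroup.lift q w) ⁻¹' closedBall 1 ε) := by
      rintro q (hq | hq)
      · rw [Set.mem_preimage, mem_closedBall, Subtype.dist_eq, dist_eq_norm] at hq ⊢
        refine (hnear q).trans ?_
        set t := ‖(q 0 : Mn n) - 1‖ with ht
        have ht0 : 0 ≤ t := norm_nonneg _
        have hq' : t ≤ ε - C₁ * ε ^ 2 := hq
        have htε : t ≤ ε := hq'.trans hr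
        have : t ^ 2 ≤ ε ^ 2 := pow_le_pow_left₀ ht0 htε 2
        nlinarith
      · rw [Set.mem_preimage, mem_closedBall, Subtype.dist_eq, dist_eq_norm]
        exact hq.1
    have hdis : Disjoint ((fun q : Fin 2 → U n => q 0) ⁻¹' closedBall 1 (ε - C₁ * ε ^ 2)) (Near w f ![0, 1] ε) := by
      rw [Set.disjoint_left]
      intro q hq hq2
      rw [Set.mem_preimage, mem_closedBall, Subtype.dist_eq, dist_eq_norm] at hq
      have h9 := hq2.2 he0
      have h10 : ‖(q 0 : Mn n) - 1‖ ≤ ε - C₁ * ε ^ 2 := hq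
      linarith
    have h11 : μ (closedBall 1 (ε - C₁ * ε ^ 2)) + ENNReal.ofReal (c' * ε ^ D n) ≤ μ (closedBall 1 ε) := by
      calc μ (closedBall 1 (ε - C₁ * ε ^ 2)) + ENNReal.ofReal (c' * ε ^ D n)
          ≤ μ (closedBall 1 (ε - C₁ * ε ^ 2)) + (Measure.pi fun _ : Fin 2 => μ) (Near w f ![0, 1] ε) :=
            add_le_add le_rfl (hreg ε hε hε1)
        _ = (Measure.pi fun _ : Fin 2 => μ) (((fun q : Fin 2 → U n => q 0) ⁻¹' closedBall 1 (ε - C₁ * ε ^ 2)) ∪
              Near w f ![0, 1] ε) := by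
            rw [measure_union hdis (p_mass_closed n w f _ ε).measurableSet, h8]
        _ ≤ μ (closedBall 1 ε) := by
            rw [h7]
            exact measure_mono hsub
    have h12 := ENNReal.toReal_mono (measure_ne_top μ _) h11
    rw [ENNReal.toReal_add (measure_ne_top μ _) ENNReal.ofReal_ne_top, ENNReal.toReal_ofReal (by positivity)] at h12
    exact h12
  refine h_dec (fun ε => (μ (closedBall 1 ε)).toReal) (D n) c₀ C₁ (c' / C₂)
    (min (min 1 (C * s₀ ^ 2)) (‖(f 0 : Mn n) - 1‖ / 4)) hc₀ hC₁ (by positivity)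
    (lt_min (lt_min one_pos (by positivity)) (by linarith)) ?_ ?_ ?_
  · intro ε hε hε'
    have h1 := hlow ε hε ((hε'.trans (min_le_left _ _)).trans (min_le_left _ _))
    have h2 := ENNReal.toReal_mono (measure_ne_top μ _) h1
    rwa [ENNReal.toReal_ofReal (by positivity)] at h2
  · intro ε hε hε'
    have h1 : μ (closedBall 1 ε) ≤ 1 := prob_le_one
    exact ENNReal.toReal_le_of_le_ofReal zero_le_one (by simpa using h1)
  · intro ε hε hε'
    have h3 := hmain ε hε ((hε'.trans (min_le_left _ _)).trans (min_le_right _ _)) (by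
      have := hε'.trans (min_le_right _ _)
      linarith)
    have h4 : (μ (closedBall 1 ε)).toReal ≤ C₂ * ε ^ D n :=
      ENNReal.toReal_le_of_le_ofReal (by positivity) (hup ε hε)
    have h5 : c' / C₂ * (μ (closedBall 1 ε)).toReal ≤ c' * ε ^ D n := by
      calc c' / C₂ * (μ (closedBall 1 ε)).toReal ≤ c' / C₂ * (C₂ * ε ^ D n) := by gcongr
        _ = c' * ε ^ D n := by field_simp
    show (μ (closedBall 1 (ε - C₁ * ε ^ 2))).toReal ≤ (1 - c' / C₂) * (μ (closedBall 1 ε)).toReal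
    linarith

end Pool.Agent.Lib.MP_ef6aaf_al
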