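import Pool.Agent.Lib.MP_ef6aaf_al.StmC

set_option autoImplicit false

/-!
Piece move: Nielsen transformations.
-/

open MeasureTheory Metric Matrix
open scoped Matrix.Norms.L2Operator

namespace Pool.Agent.Lib.MP_ef6aaf_al

/-- word maps are measurable -/
private lemma p_move_meas {n : ℕ} [MeasurableSpace (U n)] [BorelSpace (U n)]
    (g : FreeGroup (Fin 2)) : Measurable (fun f : Fin 2 → U n => FreeGroup.lift f g) := by
  have : SecondCountableTopology (Mn n) :=
    inferInstanceAs (SecondCountableTopology (Fin n → Fin n → ℂ))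
  have : SecondCountableTopology (U n) :=
    inferInstanceAs (SecondCountableTopology {x : Mn n // x ∈ Matrix.unitaryGroup (Fin n) ℂ})
  induction g using FreeGroup.induction_on with
  | C1 => simp only [map_one]; exact measurable_const
  | of i => simp only [FreeGroup.lift_apply_of]; exact measurable_pi_apply i
  | inv_of i h => simp only [map_inv]; exact h.inv
  | mul a b ha hb => simp only [map_mul]; exact ha.mul hb

/-- exponent sums of images -/
private lemma p_move_ev (h_evmul : S_evmul) (φ : FreeGroup (Fin 2) →* FreeGroup (Fin 2))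
    (e : Fin 2 → ℤ) (g : FreeGroup (Fin 2)) :
    ev e (φ g) = ev e (φ (FreeGroup.of 0)) * e0 g + ev e (φ (FreeGroup.of 1)) * e1 g := by
  obtain ⟨hm, hof, h1, hi⟩ := h_evmul e
  obtain ⟨hm0, hof0, h10, hi0⟩ := h_evmul ![1, 0]
  obtain ⟨hm1, hof1, h11, hi1⟩ := h_evmul ![0, 1]
  unfold e0 e1
  induction g using FreeGroup.induction_on with
  | C1 => rw [map_one, h1, h10, h11]; ring
  | of i =>
    rw [hof0, hof1]
    fin_cases i <;> simp
  | inv_of i h => rw [map_inv, hi, hi0, hi1, h]; ring
  | mul a b ha hb => rw [map_mul, hm, hm0, hm1, ha, hb]; ring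

/-- the general principle -/
private lemma p_move_Nls (φ : FreeGroup (Fin 2) ≃* FreeGroup (Fin 2))
    (T : ∀ n, U n × U n → U n × U n)
    (hT : ∀ n (q : Fin 2 → U n), T n (q 0, q 1) =
      (FreeGroup.lift q (φ (FreeGroup.of 0)), FreeGroup.lift q (φ (FreeGroup.of 1))))
    (hT' : ∀ n [MeasurableSpace (U n)] [BorelSpace (U n)] (μ : Measure (U n))
      [IsProbabilityMeasure μ] [μ.IsMulLeftInvariant],
      MeasurePreserving (T n) (μ.prod μ) (μ.prod μ))
    (w : FreeGroup (Fin 2)) : Nls w (φ w) := by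
  constructor
  · intro n hw _ _ μ _ _
    let Φ : (Fin 2 → U n) → (Fin 2 → U n) := fun q i => FreeGroup.lift q (φ (FreeGroup.of i))
    have hΦm : Measurable Φ := measurable_pi_lambda _ fun i => p_move_meas _
    have e1 : (fun f : Fin 2 → U n => FreeGroup.lift f (φ w)) =
        (fun f : Fin 2 → U n => FreeGroup.lift f w) ∘ Φ := by
      funext q
      show FreeGroup.lift q (φ w) = FreeGroup.lift (Φ q) w
      have : (FreeGroup.lift q).comp φ.toMonoidHom = FreeGroup.lift (Φ q) := by
        apply FreeGroup.ext_hom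
        intro i
        simp [Φ]
      exact congrArg (fun F => F w) (congrArg DFunLike.coe this)
    have e2 : Measure.map Φ (Measure.pi fun _ => μ) = Measure.pi fun _ => μ := by
      have h1 := measurePreserving_finTwoArrow μ
      have h2 := hT' n μ
      have h3 : MeasurePreserving (MeasurableEquiv.finTwoArrow (α := U n)).symm
          (μ.prod μ) (Measure.pi fun _ => μ) := h1.symm _
      have h4 := h3.comp (h2.comp h1)
      have e3 : ((MeasurableEquiv.finTwoArrow (α := U n)).symm ∘
          (T n ∘ (MeasurableEquiv.finTwoArrow (α := U n)))) = Φ := by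
        funext q
        apply (MeasurableEquiv.finTwoArrow (α := U n)).injective
        simp only [Function.comp_apply, MeasurableEquiv.apply_symm_apply]
        exact hT n q
      rw [e3] at h4
      exact h4.map_eq
    rw [e1, ← Measure.map_map (p_move_meas w) hΦm, e2]
    exact hw μ
  · refine ⟨QuotientGroup.congr _ _ φ ?_⟩
    have := Subgroup.map_normalClosure {w} (φ : FreeGroup (Fin 2) →* FreeGroup (Fin 2))
      φ.surjective
    rw [Set.image_singleton] at this
    exact this

private lemma p_move_swap (n : ℕ) [MeasurableSpace (U n)] [BorelSpace (U n)] (μ : Measure (U n))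
    [IsProbabilityMeasure μ] : MeasurePreserving (Prod.swap : U n × U n → U n × U n)
      (μ.prod μ) (μ.prod μ) := Measure.measurePreserving_swap

theorem p_move (h_evmul : S_evmul) : S_move := by
  intro w
  obtain ⟨hm0, hof0, h10, hi0⟩ := h_evmul ![1, 0]
  obtain ⟨hm1, hof1, h11, hi1⟩ := h_evmul ![0, 1]
  have hsc : ∀ n, SecondCountableTopology (U n) := fun n =>
    have : SecondCountableTopology (Mn n) :=
      inferInstanceAs (SecondCountableTopology (Fin n → Fin n → ℂ))
    inferInstanceAs (SecondCountableTopology {x : Mn n // x ∈ Matrix.unitaryGroup (Fin n) ℂ})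
  refine ⟨?_, ?_, ?_⟩
  · -- swap
    let f : FreeGroup (Fin 2) →* FreeGroup (Fin 2) :=
      FreeGroup.lift ![FreeGroup.of 1, FreeGroup.of 0]
    have hf : f.comp f = MonoidHom.id _ := by
      apply FreeGroup.ext_hom
      intro i
      fin_cases i <;> simp [f]
    let φ := MonoidHom.toMulEquiv f f hf hf
    have hφ0 : φ (FreeGroup.of 0) = FreeGroup.of 1 := by
      show f (FreeGroup.of 0) = FreeGroup.of 1
      simp [f]
    have hφ1 : φ (FreeGroup.of 1) = FreeGroup.of 0 := by
      show f (FreeGroup.of 1) = FreeGroup.of 0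
      simp [f]
    refine ⟨φ w, p_move_Nls φ (fun n p => (p.2, p.1)) (fun n q => ?_) (fun n _ _ μ _ _ => ?_) w,
      ?_, ?_⟩
    · rw [hφ0, hφ1]
      simp
    · exact p_move_swap n μ
    · have h := p_move_ev h_evmul φ.toMonoidHom ![1, 0] w
      have h' : ev ![1, 0] (φ w) = ev ![1, 0] (φ (FreeGroup.of 0)) * e0 w +
        ev ![1, 0] (φ (FreeGroup.of 1)) * e1 w := h
      rw [hφ0, hφ1, hof0, hof0] at h'
      show ev ![1, 0] (φ w) = e1 w
      rw [h']
      simp
    · have h := p_move_ev h_evmul φ.toMonoidHom ![0, 1] w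
      have h' : ev ![0, 1] (φ w) = ev ![0, 1] (φ (FreeGroup.of 0)) * e0 w +
        ev ![0, 1] (φ (FreeGroup.of 1)) * e1 w := h
      rw [hφ0, hφ1, hof1, hof1] at h'
      show ev ![0, 1] (φ w) = e0 w
      rw [h']
      simp
  · -- x ↦ y⁻¹ x
    let f : FreeGroup (Fin 2) →* FreeGroup (Fin 2) :=
      FreeGroup.lift ![(FreeGroup.of 1)⁻¹ * FreeGroup.of 0, FreeGroup.of 1]
    let g : FreeGroup (Fin 2) →* FreeGroup (Fin 2) :=
      FreeGroup.lift ![FreeGroup.of 1 * FreeGroup.of 0, FreeGroup.of 1]
    have hf : g.comp f = MonoidHom.id _ := by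
      apply FreeGroup.ext_hom
      intro i
      fin_cases i <;> simp [f, g]
    have hg : f.comp g = MonoidHom.id _ := by
      apply FreeGroup.ext_hom
      intro i
      fin_cases i <;> simp [f, g]
    let φ := MonoidHom.toMulEquiv f g hf hg
    have hφ0 : φ (FreeGroup.of 0) = (FreeGroup.of 1)⁻¹ * FreeGroup.of 0 := by
      show f (FreeGroup.of 0) = (FreeGroup.of 1)⁻¹ * FreeGroup.of 0
      simp [f]
    have hφ1 : φ (FreeGroup.of 1) = FreeGroup.of 1 := by
      show f (FreeGroup.of 1) = FreeGroup.of 1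
      simp [f]
    refine ⟨φ w, p_move_Nls φ (fun n p => (p.2⁻¹ * p.1, p.2)) (fun n q => ?_)
      (fun n _ _ μ _ _ => ?_) w, ?_, ?_⟩
    · rw [hφ0, hφ1]
      simp
    · have := hsc n
      have h1 := p_move_swap n μ
      have h2 := measurePreserving_prod_inv_mul (G := U n) μ μ
      exact h1.comp (h2.comp h1)
    · have h := p_move_ev h_evmul φ.toMonoidHom ![1, 0] w
      have h' : ev ![1, 0] (φ w) = ev ![1, 0] (φ (FreeGroup.of 0)) * e0 w +
        ev ![1, 0] (φ (FreeGroup.of 1)) * e1 w := h
      rw [hφ0, hφ1, hm0, hi0, hof0, hof0] at h'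
      show ev ![1, 0] (φ w) = e0 w
      rw [h']
      simp
    · have h := p_move_ev h_evmul φ.toMonoidHom ![0, 1] w
      have h' : ev ![0, 1] (φ w) = ev ![0, 1] (φ (FreeGroup.of 0)) * e0 w +
        ev ![0, 1] (φ (FreeGroup.of 1)) * e1 w := h
      rw [hφ0, hφ1, hm1, hi1, hof1, hof1] at h'
      show ev ![0, 1] (φ w) = e1 w - e0 w
      rw [h']
      simp
      ring
  · -- x ↦ y x
    let f : FreeGroup (Fin 2) →* FreeGroup (Fin 2) :=
      FreeGroup.lift ![FreeGroup.of 1 * FreeGroup.of 0, FreeGroup.of 1]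
    let g : FreeGroup (Fin 2) →* FreeGroup (Fin 2) :=
      FreeGroup.lift ![(FreeGroup.of 1)⁻¹ * FreeGroup.of 0, FreeGroup.of 1]
    have hf : g.comp f = MonoidHom.id _ := by
      apply FreeGroup.ext_hom
      intro i
      fin_cases i <;> simp [f, g]
    have hg : f.comp g = MonoidHom.id _ := by
      apply FreeGroup.ext_hom
      intro i
      fin_cases i <;> simp [f, g]
    let φ := MonoidHom.toMulEquiv f g hf hg
    have hφ0 : φ (FreeGroup.of 0) = FreeGroup.of 1 * FreeGroup.of 0 := by
      show f (FreeGroup.of 0) = FreeGroup.of 1 * FreeGroup.of 0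
      simp [f]
    have hφ1 : φ (FreeGroup.of 1) = FreeGroup.of 1 := by
      show f (FreeGroup.of 1) = FreeGroup.of 1
      simp [f]
    refine ⟨φ w, p_move_Nls φ (fun n p => (p.2 * p.1, p.2)) (fun n q => ?_)
      (fun n _ _ μ _ _ => ?_) w, ?_, ?_⟩
    · rw [hφ0, hφ1]
      simp
    · have := hsc n
      have h1 := p_move_swap n μ
      have h2 := measurePreserving_prod_mul (G := U n) μ μ
      exact h1.comp (h2.comp h1)
    · have h := p_move_ev h_evmul φ.toMonoidHom ![1, 0] w
      have h' : ev ![1, 0] (φ w) = ev ![1, 0] (φ (FreeGroup.of 0)) * e0 w +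
        ev ![1, 0] (φ (FreeGroup.of 1)) * e1 w := h
      rw [hφ0, hφ1, hm0, hof0, hof0] at h'
      show ev ![1, 0] (φ w) = e0 w
      rw [h']
      simp
    · have h := p_move_ev h_evmul φ.toMonoidHom ![0, 1] w
      have h' : ev ![0, 1] (φ w) = ev ![0, 1] (φ (FreeGroup.of 0)) * e0 w +
        ev ![0, 1] (φ (FreeGroup.of 1)) * e1 w := h
      rw [hφ0, hφ1, hm1, hof1, hof1] at h'
      show ev ![0, 1] (φ w) = e1 w + e0 w
      rw [h']
      simp
      ring

end Pool.Agent.Lib.MP_ef6aaf_al
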