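import Pool.Agent.Lib.MP_ef6aaf_al.StmC

/-!
# The first letter of an irreducible pair is not the identity
-/

open MeasureTheory Metric Matrix
open scoped Matrix.Norms.L2Operator

namespace Pool.Agent.Lib.MP_ef6aaf_al

theorem p_ne1 (h_abirr : S_abirr) : S_ne1 := by
  intro n f hn hirr h0
  have hle : (FreeGroup.lift f).range ≤ Subgroup.zpowers (f 1) := by
    apply FreeGroup.range_lift_le
    rintro _ ⟨i, rfl⟩
    fin_cases i
    · change f 0 ∈ Subgroup.zpowers (f 1)
      rw [h0]
      exact Subgroup.one_mem _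
    · exact Subgroup.mem_zpowers (f 1)
  have key : ∀ g h : FreeGroup (Fin 2), FreeGroup.lift f g * FreeGroup.lift f h =
      FreeGroup.lift f h * FreeGroup.lift f g := by
    intro g h
    obtain ⟨a, ha⟩ := Subgroup.mem_zpowers_iff.1 (hle ⟨g, rfl⟩)
    obtain ⟨b, hb⟩ := Subgroup.mem_zpowers_iff.1 (hle ⟨h, rfl⟩)
    rw [← ha, ← hb]
    exact (Commute.refl (f 1)).zpow_zpow a b
  have := h_abirr (FreeGroup (Fin 2)) n (FreeGroup.lift f) hirr key
  omega

end Pool.Agent.Lib.MP_ef6aaf_al
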