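import Pool.Agent.Lib.MP_ef6aaf_al.StmC

/-!
# Words inducing Haar measure on unitary groups: piece near1
-/

open MeasureTheory Metric Matrix
open scoped Matrix.Norms.L2Operator

namespace Pool.Agent.Lib.MP_ef6aaf_al

theorem p_near1 (h_act : S_act) (h_expd : S_expd) : S_near1 := by
  intro n w F hF hw hk
  obtain ⟨C, hC, hq⟩ := h_expd n F hF w
  obtain ⟨-, hneg, -, hnorm, -⟩ := h_act n
  refine ⟨C, hC, fun q => ?_⟩
  have h1 := hq q
  have h2 : ‖act (q 1) (F w) ((q 0 : Mn n) - 1)‖ = ‖(q 0 : Mn n) - 1‖ := by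
    obtain ⟨k, hk | hk⟩ := hk
    · rw [hk, hnorm]
    · rw [hk, hneg, norm_neg, hnorm]
  rw [hw, zpow_zero, OneMemClass.coe_one, mul_one] at h1
  have h3 : ((FreeGroup.lift q w : U n) : Mn n) - 1 =
      (((FreeGroup.lift q w : U n) : Mn n) - (1 + act (q 1) (F w) ((q 0 : Mn n) - 1))) +
        act (q 1) (F w) ((q 0 : Mn n) - 1) := by abel
  rw [h3]
  refine (norm_add_le _ _).trans ?_
  rw [h2]
  linarith

end Pool.Agent.Lib.MP_ef6aaf_al
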