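import Pool.Agent.Lib.MP_ef6aaf_al.StmC

open MeasureTheory Metric Matrix
open scoped Matrix.Norms.L2Operator

namespace Pool.Agent.Lib.MP_ef6aaf_al

/-- the orthogonal complement in coordinates -/
private def p_nonab_oc {k : ℕ} (W : Submodule ℂ (Fin k → ℂ)) : Submodule ℂ (Fin k → ℂ) where
  carrier := {y | ∀ x ∈ W, star x ⬝ᵥ y = 0}
  add_mem' {a b} ha hb x hx := by rw [dotProduct_add, ha x hx, hb x hx, add_zero]
  zero_mem' x hx := dotProduct_zero _
  smul_mem' t a ha x hx := by rw [dotProduct_smul, ha x hx, smul_zero]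

private lemma p_nonab_star {Γ : Type} [Group Γ] {k : ℕ} (ρ : Γ →* U k) (g : Γ) :
    (ρ g : Mn k)ᴴ = (ρ g⁻¹ : Mn k) := by
  rw [map_inv]
  rfl

private lemma p_nonab_inv {Γ : Type} [Group Γ] {k : ℕ} (ρ : Γ →* U k)
    (W : Submodule ℂ (Fin k → ℂ)) (hW : ∀ g, ∀ x ∈ W, (ρ g : Mn k).mulVec x ∈ W) :
    ∀ g, ∀ x ∈ p_nonab_oc W, (ρ g : Mn k).mulVec x ∈ p_nonab_oc W := by
  intro g y hy x hx
  have h1 : star x ⬝ᵥ (ρ g : Mn k).mulVec y = star ((ρ g : Mn k)ᴴ.mulVec x) ⬝ᵥ y := by
    rw [dotProduct_mulVec, star_mulVec, conjTranspose_conjTranspose]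
  rw [h1, p_nonab_star]
  exact hy _ (hW g⁻¹ x hx)

private lemma p_nonab_comm {Γ : Type} [Group Γ] {k m : ℕ} (ρ : Γ →* U k) (ρ' : Γ →* U m)
    (J : Matrix (Fin k) (Fin m) ℂ) (W : Submodule ℂ (Fin k → ℂ))
    (h1 : ∀ x ∈ W, J.mulVec (Jᴴ.mulVec x) = x)
    (h2 : ∀ g, J * (ρ' g : Mn m) = (ρ g : Mn k) * J) (g h : Γ)
    (hc : ρ' g * ρ' h = ρ' h * ρ' g) (x : Fin k → ℂ) (hx : x ∈ W) :
    ((ρ g : Mn k) * (ρ h : Mn k)).mulVec x = ((ρ h : Mn k) * (ρ g : Mn k)).mulVec x := by
  have hc' : (ρ' g : Mn m) * (ρ' h : Mn m) = (ρ' h : Mn m) * (ρ' g : Mn m) := by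
    have := congrArg (fun u : U m => (u : Mn m)) hc
    simpa using this
  have key : ∀ a b : Γ, ((ρ a : Mn k) * (ρ b : Mn k)) * J = J * ((ρ' a : Mn m) * (ρ' b : Mn m)) := by
    intro a b
    rw [Matrix.mul_assoc, ← h2 b, ← Matrix.mul_assoc, ← h2 a, Matrix.mul_assoc]
  have key2 : ∀ a b : Γ, ((ρ a : Mn k) * (ρ b : Mn k)).mulVec x
      = (J * ((ρ' a : Mn m) * (ρ' b : Mn m))).mulVec (Jᴴ.mulVec x) := by
    intro a b
    rw [← key a b, ← Matrix.mulVec_mulVec (Jᴴ.mulVec x), h1 x hx]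
  rw [key2, key2, hc']

open scoped ComplexOrder in
theorem p_nonab (h_onb : S_onb) : S_nonab := by
  intro Γ _ k
  induction k using Nat.strong_induction_on with
  | _ k ih =>
    intro ρ g h hne
    by_cases hirr : IsIrr ρ
    · refine ⟨k, ρ, ?_, le_rfl, hirr⟩
      by_contra hk
      apply hne
      have hk' : k = 0 ∨ k = 1 := by omega
      apply Subtype.ext
      rcases hk' with rfl | rfl
      · exact Subsingleton.elim _ _
      · ext i j
        have hi := Subsingleton.elim i 0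
        have hj := Subsingleton.elim j 0
        subst hi hj
        simp [Matrix.mul_apply, mul_comm]
    · unfold IsIrr at hirr
      push Not at hirr
      obtain ⟨W, hW, hb, ht⟩ := hirr
      obtain ⟨m1, J1, ρ1, hJ1, hm1, hJ1m, hJ1p, hJ1i, -⟩ := h_onb Γ k ρ W hW
      have hW' := p_nonab_inv ρ W hW
      obtain ⟨m2, J2, ρ2, hJ2, hm2, hJ2m, hJ2p, hJ2i, -⟩ := h_onb Γ k ρ (p_nonab_oc W) hW'
      have hfr : Module.finrank ℂ (Fin k → ℂ) = k := by simp
      have hlt1 : m1 < k := by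
        rw [hm1]
        exact lt_of_lt_of_eq (Submodule.finrank_lt ht) hfr
      have hlt2 : m2 < k := by
        rw [hm2]
        refine lt_of_lt_of_eq (Submodule.finrank_lt ?_) hfr
        intro htop
        apply hb
        rw [eq_bot_iff]
        intro x hx
        have hx2 : x ∈ p_nonab_oc W := by rw [htop]; trivial
        have := hx2 x hx
        rw [dotProduct_star_self_eq_zero] at this
        exact this
      by_cases hc1 : ρ1 g * ρ1 h = ρ1 h * ρ1 g
      · by_cases hc2 : ρ2 g * ρ2 h = ρ2 h * ρ2 g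
        · exfalso
          apply hne
          apply Subtype.ext
          have hcom : ∀ x, ((ρ g : Mn k) * (ρ h : Mn k)).mulVec x
              = ((ρ h : Mn k) * (ρ g : Mn k)).mulVec x := by
            intro x
            have hx1 : J1.mulVec (J1ᴴ.mulVec x) ∈ W := hJ1m _
            have hx2 : x - J1.mulVec (J1ᴴ.mulVec x) ∈ p_nonab_oc W := by
              intro y hy
              rw [dotProduct_sub]
              have e1 : star y ⬝ᵥ J1.mulVec (J1ᴴ.mulVec x)
                  = star (J1.mulVec (J1ᴴ.mulVec y)) ⬝ᵥ x := by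
                rw [mulVec_mulVec, mulVec_mulVec, dotProduct_mulVec, star_mulVec,
                  conjTranspose_mul, conjTranspose_conjTranspose]
              rw [e1, hJ1p y hy, sub_self]
            have hdec : x = J1.mulVec (J1ᴴ.mulVec x) + (x - J1.mulVec (J1ᴴ.mulVec x)) := by
              abel
            rw [hdec, mulVec_add, mulVec_add,
              p_nonab_comm ρ ρ1 J1 W hJ1p hJ1i g h hc1 _ hx1,
              p_nonab_comm ρ ρ2 J2 _ hJ2p hJ2i g h hc2 _ hx2]
          show ((ρ g * ρ h : U k) : Mn k) = ((ρ h * ρ g : U k) : Mn k)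
          have : (ρ g : Mn k) * (ρ h : Mn k) = (ρ h : Mn k) * (ρ g : Mn k) := by
            apply Matrix.toLin'.injective
            refine LinearMap.ext fun x => ?_
            simpa only [Matrix.toLin'_apply] using hcom x
          exact this
        · obtain ⟨m, ρ', h2, hm, hi⟩ := ih m2 hlt2 ρ2 g h hc2
          exact ⟨m, ρ', h2, hm.trans hlt2.le, hi⟩
      · obtain ⟨m, ρ', h2, hm, hi⟩ := ih m1 hlt1 ρ1 g h hc1
        exact ⟨m, ρ', h2, hm.trans hlt1.le, hi⟩

end Pool.Agent.Lib.MP_ef6aaf_al
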