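import Pool.Agent.Lib.MP_ef6aaf_al.StmC

open MeasureTheory Metric Matrix
open scoped Matrix.Norms.L2Operator

namespace Pool.Agent.Lib.MP_ef6aaf_al

private lemma p_norm_refl (w : FreeGroup (Fin 2)) : Nls w w := ⟨fun _ h => h, ⟨MulEquiv.refl _⟩⟩

private lemma p_norm_trans {w w' w'' : FreeGroup (Fin 2)} (h : Nls w w') (h' : Nls w' w'') :
    Nls w w'' :=
  ⟨fun n H => h'.1 n (h.1 n H), h.2.elim fun a => h'.2.elim fun b => ⟨a.trans b⟩⟩

private lemma p_norm_aux (h_move : S_move) : ∀ (N : ℕ) (w : FreeGroup (Fin 2)),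
    (e0 w).natAbs + (e1 w).natAbs ≤ N → ¬ (e0 w = 0 ∧ e1 w = 0) →
    ∃ w', Nls w w' ∧ e1 w' = 0 ∧ e0 w' ≠ 0 := by
  intro N
  induction N with
  | zero =>
    intro w hN hne
    exfalso
    apply hne
    constructor <;> omega
  | succ N ih =>
    intro w hN hne
    -- one step for words with |e0| ≤ |e1|, both nonzero
    have step : ∀ v : FreeGroup (Fin 2), e0 v ≠ 0 → e1 v ≠ 0 →
        (e0 v).natAbs ≤ (e1 v).natAbs → (e0 v).natAbs + (e1 v).natAbs ≤ N + 1 →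
        ∃ w', Nls v w' ∧ e1 w' = 0 ∧ e0 w' ≠ 0 := by
      intro v h0 h1 hle hN'
      obtain ⟨-, ⟨v1, hv1, ha1, hb1⟩, ⟨v2, hv2, ha2, hb2⟩⟩ := h_move v
      by_cases hs : (e1 v - e0 v).natAbs < (e1 v).natAbs
      · obtain ⟨w', hw', hw1, hw2⟩ := ih v1 (by rw [ha1, hb1]; omega) (by rw [ha1]; tauto)
        exact ⟨w', p_norm_trans hv1 hw', hw1, hw2⟩
      · obtain ⟨w', hw', hw1, hw2⟩ := ih v2 (by rw [ha2, hb2]; omega) (by rw [ha2]; tauto)
        exact ⟨w', p_norm_trans hv2 hw', hw1, hw2⟩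
    by_cases h1 : e1 w = 0
    · exact ⟨w, p_norm_refl w, h1, fun h0 => hne ⟨h0, h1⟩⟩
    obtain ⟨⟨u, hu, hu0, hu1⟩, -, -⟩ := h_move w
    by_cases h0 : e0 w = 0
    · exact ⟨u, hu, by rw [hu1, h0], by rw [hu0]; exact h1⟩
    by_cases hle : (e0 w).natAbs ≤ (e1 w).natAbs
    · exact step w h0 h1 hle hN
    · obtain ⟨w', hw', hw1, hw2⟩ := step u (by rw [hu0]; exact h1) (by rw [hu1]; exact h0)
        (by rw [hu0, hu1]; omega) (by rw [hu0, hu1]; omega)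
      exact ⟨w', p_norm_trans hu hw', hw1, hw2⟩

theorem p_norm (h_move : S_move) : S_norm := fun w hne =>
  p_norm_aux h_move _ w le_rfl hne

end Pool.Agent.Lib.MP_ef6aaf_al
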