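import Pool.Agent.Lib.MP_ef6aaf_al.StmA

set_option autoImplicit false

/-!
# Words inducing Haar measure on unitary groups: the word map is smooth
-/

open MeasureTheory Metric
open scoped Matrix.Norms.L2Operator

namespace Pool.Agent.Lib.MP_ef6aaf_al

private theorem p_wsm_mul {n : ℕ} (f : Fin 2 → U n) (x y : FreeGroup (Fin 2)) :
    wm f (x * y) = fun a => wm f x a * wm f y a := by
  funext a
  unfold wm
  rw [map_mul]
  rfl

private theorem p_wsm_inv {n : ℕ} (f : Fin 2 → U n) (x : FreeGroup (Fin 2)) :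
    wm f x⁻¹ = fun a => star (wm f x a) := by
  funext a
  unfold wm
  rw [map_inv]
  rfl

private theorem p_wsm_of {n : ℕ} (f : Fin 2 → U n) (i : Fin 2) :
    wm f (FreeGroup.of i) = fun a => ((ex (a i) : U n) : Mn n) * (f i : Mn n) := by
  funext a
  unfold wm
  rw [FreeGroup.lift_apply_of]
  rfl

theorem p_wsm (h_exder : S_exder) : S_wsm := by
  intro n f w
  have hinv : ∀ x, ContDiff ℝ 2 (wm f x) → ContDiff ℝ 2 (wm f x⁻¹) := by
    intro x hx
    rw [p_wsm_inv]
    exact (starL' ℝ : Mn n ≃L[ℝ] Mn n).contDiff.comp hx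
  induction w using FreeGroup.induction_on with
  | C1 =>
    have : wm f 1 = fun _ => 1 := by
      funext a
      unfold wm
      rw [map_one]
      rfl
    rw [this]
    exact contDiff_const
  | of i =>
    change ContDiff ℝ 2 (wm f (FreeGroup.of i))
    rw [p_wsm_of]
    exact ((h_exder n).1.comp (contDiff_apply ℝ (Hn n) i)).mul contDiff_const
  | inv_of i h => exact hinv _ h
  | mul x y hx hy =>
    rw [p_wsm_mul]
    exact hx.mul hy

end Pool.Agent.Lib.MP_ef6aaf_al
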