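import Pool.Agent.Lib.MP_ef6aaf_al.StmC

/-!
MP_ef6aaf_al, [act]: the action of Laurent polynomials.
-/

open MeasureTheory Metric Matrix
open scoped Matrix.Norms.L2Operator

namespace Pool.Agent.Lib.MP_ef6aaf_al

private theorem p_act_add {n : ℕ} (y : U n) (p q : LaurentPolynomial ℤ) (h : Mn n) :
    act y (p + q) h = act y p h + act y q h := by
  unfold act
  rw [AddMonoidAlgebra.coeff_add]
  apply Finsupp.sum_add_index'
  · intro k; simp
  · intro k a b; push_cast; rw [add_smul]

private theorem p_act_zero {n : ℕ} (y : U n) (h : Mn n) : act y 0 h = 0 := by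
  have h1 := p_act_add y 0 0 h
  rw [add_zero] at h1
  have h2 : act y 0 h + 0 = act y 0 h + act y 0 h := by rw [add_zero]; exact h1
  exact (add_left_cancel h2).symm

private theorem p_act_neg {n : ℕ} (y : U n) (p : LaurentPolynomial ℤ) (h : Mn n) :
    act y (-p) h = - act y p h := by
  have h1 := p_act_add y p (-p) h
  rw [add_neg_cancel, p_act_zero] at h1
  exact (neg_eq_of_add_eq_zero_right h1.symm).symm

private theorem p_act_CT {n : ℕ} (y : U n) (a : ℤ) (k : ℤ) (h : Mn n) :
    act y (LaurentPolynomial.C a * LaurentPolynomial.T k) h =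
      (a : ℂ) • (((y ^ k : U n) : Mn n) * h * ((y ^ (-k) : U n) : Mn n)) := by
  unfold act
  rw [← LaurentPolynomial.single_eq_C_mul_T]
  change (Finsupp.single k a).sum _ = _
  rw [Finsupp.sum_single_index]
  simp

private theorem p_act_T {n : ℕ} (y : U n) (k : ℤ) (h : Mn n) :
    act y (LaurentPolynomial.T k) h = ((y ^ k : U n) : Mn n) * h * ((y ^ (-k) : U n) : Mn n) := by
  have h1 := p_act_CT y 1 k h
  rw [map_one, one_mul] at h1
  rw [h1]
  simp

private theorem p_act_mul {n : ℕ} (y : U n) (k : ℤ) (p : LaurentPolynomial ℤ) (h : Mn n) :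
    act y (LaurentPolynomial.T k * p) h =
    ((y ^ k : U n) : Mn n) * act y p h * ((y ^ (-k) : U n) : Mn n) := by
  induction p using LaurentPolynomial.induction_on' with
  | add p q hp hq =>
    rw [mul_add, p_act_add, p_act_add, hp, hq, mul_add, add_mul]
  | C_mul_T j a =>
    have h1 : LaurentPolynomial.T k * (LaurentPolynomial.C a * LaurentPolynomial.T j) =
        LaurentPolynomial.C a * LaurentPolynomial.T (k + j) := by
      rw [LaurentPolynomial.T_add]; ring
    rw [h1, p_act_CT, p_act_CT, Matrix.mul_smul, Matrix.smul_mul]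
    congr 1
    have h2 : (y ^ (k + j) : U n) = y ^ k * y ^ j := _root_.zpow_add y k j
    have h3 : (y ^ (-(k + j)) : U n) = y ^ (-j) * y ^ (-k) := by
      rw [← _root_.zpow_add]; congr 1; ring
    rw [h2, h3]
    push_cast
    simp only [mul_assoc]

private theorem p_act_norm {n : ℕ} (y : U n) (k : ℤ) (h : Mn n) :
    ‖((y ^ k : U n) : Mn n) * h * ((y ^ (-k) : U n) : Mn n)‖ = ‖h‖ := by
  rw [CStarRing.norm_mul_coe_unitary, CStarRing.norm_coe_unitary_mul]

theorem p_act : S_act := by
  intro n
  refine ⟨p_act_add, p_act_neg, p_act_mul, ?_, ?_⟩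
  · intro y k h
    rw [p_act_T, p_act_norm]
  · intro p
    refine ⟨p.coeff.sum (fun _ c => |(c : ℝ)|) + 1, ?_, ?_⟩
    · have : 0 ≤ p.coeff.sum (fun _ c => |(c : ℝ)|) := by
        apply Finset.sum_nonneg
        intro k _
        exact abs_nonneg _
      linarith
    · intro y h
      have h1 : ‖act y p h‖ ≤ p.coeff.sum (fun _ c => |(c : ℝ)|) * ‖h‖ := by
        unfold act
        rw [Finsupp.sum, Finsupp.sum, Finset.sum_mul]
        refine (norm_sum_le _ _).trans (Finset.sum_le_sum fun k _ => ?_)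
        refine (norm_smul_le _ _).trans ?_
        rw [p_act_norm]
        have h2 : ‖((p.coeff k : ℤ) : ℂ)‖ = |((p.coeff k : ℤ) : ℝ)| := by
          rw [Complex.norm_intCast]
        rw [h2]
      have h3 : 0 ≤ ‖h‖ := norm_nonneg h
      nlinarith

end Pool.Agent.Lib.MP_ef6aaf_al
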