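import Pool.Agent.Lib.MP_ef6aaf_al.StmB

/-!
# Words inducing Haar measure on unitary groups: piece ad
-/

open MeasureTheory Metric Matrix
open scoped Matrix.Norms.L2Operator

namespace Pool.Agent.Lib.MP_ef6aaf_al

private theorem p_ad_cjmul {n : ℕ} (g h : U n) (B : Hn n) : cj (g * h) B = cj g (cj h B) := by
  apply Subtype.ext
  simp only [cj, LinearMap.coe_mk, AddHom.coe_mk, Submonoid.coe_mul, star_mul]
  simp only [mul_assoc]

private theorem p_ad_cjone {n : ℕ} (B : Hn n) : cj (1 : U n) B = B := by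
  apply Subtype.ext
  simp [cj]

private theorem p_ad_all {n : ℕ} (f : Fin 2 → U n) (B : Hn n) (hB : ∀ i, cj (f i) B = B)
    (g : FreeGroup (Fin 2)) : cj (FreeGroup.lift f g) B = B := by
  induction g using FreeGroup.induction_on with
  | C1 => rw [map_one, p_ad_cjone]
  | of i => rw [FreeGroup.lift_apply_of]; exact hB i
  | inv_of i h =>
    have h1 : cj (FreeGroup.lift f (FreeGroup.of i)) B = B := h
    calc cj (FreeGroup.lift f (FreeGroup.of i)⁻¹) B
        = cj (FreeGroup.lift f (FreeGroup.of i)⁻¹) (cj (FreeGroup.lift f (FreeGroup.of i)) B) := by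
          rw [h1]
      _ = B := by rw [← p_ad_cjmul, ← map_mul, inv_mul_cancel, map_one, p_ad_cjone]
  | mul g h hg hh => rw [map_mul, p_ad_cjmul, hh, hg]

private theorem p_ad_cocone {n : ℕ} {f : Fin 2 → U n} {δ : FreeGroup (Fin 2) → Hn n}
    (hδ : IsAdCocycle f δ) : δ 1 = 0 := by
  have h := hδ 1 1
  rw [mul_one, map_one, p_ad_cjone] at h
  have h2 : δ 1 + 0 = δ 1 + δ 1 := by rw [add_zero]; exact h
  exact (add_left_cancel h2).symm

private theorem p_ad_cocall {n : ℕ} {f : Fin 2 → U n} {δ : FreeGroup (Fin 2) → Hn n}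
    (hδ : IsAdCocycle f δ) (h0 : ∀ i, δ (FreeGroup.of i) = 0) (g : FreeGroup (Fin 2)) :
    δ g = 0 := by
  induction g using FreeGroup.induction_on with
  | C1 => exact p_ad_cocone hδ
  | of i => exact h0 i
  | inv_of i h =>
    have h1 := hδ (FreeGroup.of i)⁻¹ (FreeGroup.of i)
    have h2 : δ (FreeGroup.of i) = 0 := h
    rw [inv_mul_cancel, p_ad_cocone hδ, h2, map_zero, add_zero] at h1
    exact h1.symm
  | mul g h hg hh => rw [hδ g h, hg, hh, map_zero, add_zero]

private theorem p_ad_ev (h_evmul : S_evmul) (e : Fin 2 → ℤ) (g : FreeGroup (Fin 2)) :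
    ev e g = e 0 * ev ![1, 0] g + e 1 * ev ![0, 1] g := by
  obtain ⟨a1, a2, a3, a4⟩ := h_evmul e
  obtain ⟨b1, b2, b3, b4⟩ := h_evmul ![1, 0]
  obtain ⟨c1, c2, c3, c4⟩ := h_evmul ![0, 1]
  induction g using FreeGroup.induction_on with
  | C1 => rw [a3, b3, c3]; ring
  | of i =>
    change ev e (FreeGroup.of i) = e 0 * ev ![1, 0] (FreeGroup.of i) +
      e 1 * ev ![0, 1] (FreeGroup.of i)
    rw [a2, b2, c2]
    fin_cases i
    · simp
    · simp
  | inv_of i h => rw [a4, b4, c4, h]; ring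
  | mul g h hg hh => rw [a1, b1, c1, hg, hh]; ring

theorem p_ad (h_GC : S_GC) (h_expo : S_expo) (h_evmul : S_evmul) (h_wder : S_wder) : S_ad := by
  intro w n hn hw ρ
  set π : FreeGroup (Fin 2) →* G w := QuotientGroup.mk' (Subgroup.normalClosure {w}) with hπ
  set f : Fin 2 → U n := fun i => ρ (π (FreeGroup.of i)) with hfd
  have hlift : ∀ g, FreeGroup.lift f g = ρ (π g) := by
    have h1 : FreeGroup.lift f = ρ.comp π := by
      apply FreeGroup.ext_hom
      intro i
      rw [FreeGroup.lift_apply_of]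
      rfl
    intro g
    rw [h1]
    rfl
  have hπw : π w = 1 := by
    rw [hπ]
    exact (QuotientGroup.eq_one_iff w).2 (Subgroup.subset_normalClosure (Set.mem_singleton w))
  have hlw : FreeGroup.lift f w = 1 := by rw [hlift, hπw, map_one]
  set e : Fin 2 → ℤ := ![-(e1 w), e0 w] with hed
  have he : e ≠ 0 := by
    intro h
    apply h_expo n w hn hw
    have h0 := congrFun h 0
    have h1 := congrFun h 1
    simp [hed] at h0 h1
    exact ⟨h1, h0⟩
  have hew : ev e w = 0 := by
    rw [p_ad_ev h_evmul e w]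
    have h1 : ev ![1, 0] w = e0 w := rfl
    have h2 : ev ![0, 1] w = e1 w := rfl
    rw [h1, h2, hed]
    simp
    ring
  have hGC := h_GC n w f e hn hw he hlw hew
  -- the fixed matrices
  have hZ : Z0 f = AdH0 ρ := by
    ext a
    constructor
    · intro ha g
      obtain ⟨g', rfl⟩ := QuotientGroup.mk'_surjective _ g
      have h1 := p_ad_all f a ha g'
      rw [hlift] at h1
      exact h1
    · intro ha i
      exact ha (π (FreeGroup.of i))
  -- cocycles
  let φ : AdZ1 ρ →ₗ[ℝ] (Fin 2 → Hn n) :=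
    { toFun := fun δ i => δ.1 (π (FreeGroup.of i))
      map_add' := fun δ δ' => rfl
      map_smul' := fun t δ => rfl }
  have hcoc : ∀ δ : AdZ1 ρ, IsAdCocycle f (fun g => δ.1 (π g)) := by
    intro δ g h
    change δ.1 (π (g * h)) = _
    rw [map_mul, δ.2 (π g) (π h), hlift]
  have hφi : Function.Injective φ := by
    rw [← LinearMap.ker_eq_bot, LinearMap.ker_eq_bot']
    intro δ hδ
    apply Subtype.ext
    funext g
    obtain ⟨g', rfl⟩ := QuotientGroup.mk'_surjective _ g
    exact p_ad_cocall (hcoc δ) (fun i => congrFun hδ i) g'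
  have hφr : LinearMap.range φ ≤ kerW f w := by
    rintro _ ⟨δ, rfl⟩
    have h1 := h_wder n f _ (hcoc δ) w
    have h2 : δ.1 (π w) = 0 := by
      have h3 := p_ad_cocone (hcoc δ)
      rw [hπw]
      change δ.1 (π 1) = 0 at h3
      rwa [map_one] at h3
    have h4 : ((δ.1 (π w) : Hn n) : Mn n) = 0 := by rw [h2]; rfl
    rw [h4, smul_zero, zero_mul] at h1
    exact h1
  have hfin : Module.Finite ℝ (AdZ1 ρ) := Module.Finite.of_injective φ hφi
  have hZ1 : Module.finrank ℝ (AdZ1 ρ) ≤ Module.finrank ℝ (kerW f w) := by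
    rw [← LinearMap.finrank_range_of_inj hφi]
    exact Submodule.finrank_mono hφr
  -- coboundaries
  have hBZ : AdB1 ρ ≤ AdZ1 ρ := by
    rintro _ ⟨a, rfl⟩ g h
    change cj (ρ (g * h)) a - a = (cj (ρ g) a - a) + cj (ρ g) (cj (ρ h) a - a)
    rw [map_mul, p_ad_cjmul, map_sub]
    abel
  have hB1 : Module.finrank ℝ (AdB1 ρ) + Module.finrank ℝ (AdH0 ρ) = D n := by
    have h1 := LinearMap.finrank_range_add_finrank_ker
      (LinearMap.pi fun g : G w => cj (ρ g) - LinearMap.id)
    have h2 : LinearMap.ker (LinearMap.pi fun g : G w => cj (ρ g) - LinearMap.id) = AdH0 ρ := by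
      ext a
      rw [LinearMap.mem_ker]
      constructor
      · intro h g
        have h3 := congrFun h g
        exact sub_eq_zero.1 h3
      · intro h
        funext g
        exact sub_eq_zero.2 (h g)
    rw [h2] at h1
    exact h1
  have hsub : Module.finrank ℝ ((AdB1 ρ).submoduleOf (AdZ1 ρ)) = Module.finrank ℝ (AdB1 ρ) :=
    LinearEquiv.finrank_eq (Submodule.submoduleOfEquivOfLe hBZ)
  have hq := Submodule.finrank_quotient_add_finrank ((AdB1 ρ).submoduleOf (AdZ1 ρ))
  have hfinal : Module.finrank ℝ (AdH1 ρ) < 2 * Module.finrank ℝ (AdH0 ρ) := by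
    rw [hZ] at hGC
    change Module.finrank ℝ (AdZ1 ρ ⧸ (AdB1 ρ).submoduleOf (AdZ1 ρ)) < _
    omega
  have e1' : Module.rank ℝ (AdH1 ρ) = (Module.finrank ℝ (AdH1 ρ) : Cardinal) :=
    (Module.finrank_eq_rank ℝ (AdH1 ρ)).symm
  have e2' : Module.rank ℝ (AdH0 ρ) = (Module.finrank ℝ (AdH0 ρ) : Cardinal) :=
    (Module.finrank_eq_rank ℝ (AdH0 ρ)).symm
  rw [e1', e2']
  exact_mod_cast hfinal

end Pool.Agent.Lib.MP_ef6aaf_al
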