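import Pool.Agent.Lib.MP_ef6aaf_al.StmB

open MeasureTheory Metric Matrix
open scoped Matrix.Norms.L2Operator

namespace Pool.Agent.Lib.MP_ef6aaf_al

private lemma p_blkmul_00 {m : ℕ} (α : ℂ) (r b : Fin m → ℂ) (M : Mn m) : blk α r b M 0 0 = α := rfl

private lemma p_blkmul_0s {m : ℕ} (α : ℂ) (r b : Fin m → ℂ) (M : Mn m) (j : Fin m) :
    blk α r b M 0 j.succ = r j := rfl

private lemma p_blkmul_s0 {m : ℕ} (α : ℂ) (r b : Fin m → ℂ) (M : Mn m) (i : Fin m) :
    blk α r b M i.succ 0 = b i := rfl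

private lemma p_blkmul_ss {m : ℕ} (α : ℂ) (r b : Fin m → ℂ) (M : Mn m) (i j : Fin m) :
    blk α r b M i.succ j.succ = M i j := rfl

private lemma p_blkmul_ext {m : ℕ} {A B : Mn (m + 1)} (h00 : A 0 0 = B 0 0)
    (h0s : ∀ j : Fin m, A 0 j.succ = B 0 j.succ) (hs0 : ∀ i : Fin m, A i.succ 0 = B i.succ 0)
    (hss : ∀ i j : Fin m, A i.succ j.succ = B i.succ j.succ) : A = B := by
  ext i j
  refine Fin.cases ?_ (fun i => ?_) i
  · exact Fin.cases h00 h0s j
  · exact Fin.cases (hs0 i) (hss i) j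

theorem p_blkmul : S_blkmul := by
  intro m α α' r r' b b' M M'
  refine ⟨?_, ?_, ?_, ?_, ?_, ?_, ?_⟩
  · apply p_blkmul_ext
    · rw [Matrix.mul_apply, Fin.sum_univ_succ]
      simp only [p_blkmul_00, p_blkmul_0s, p_blkmul_s0, dotProduct]
    · intro j
      rw [Matrix.mul_apply, Fin.sum_univ_succ]
      simp only [p_blkmul_00, p_blkmul_0s, p_blkmul_ss, Pi.add_apply, Pi.smul_apply, smul_eq_mul,
        Matrix.vecMul, dotProduct]
    · intro i
      rw [Matrix.mul_apply, Fin.sum_univ_succ]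
      simp only [p_blkmul_00, p_blkmul_s0, p_blkmul_ss, Pi.add_apply, Pi.smul_apply, smul_eq_mul,
        Matrix.mulVec, dotProduct]
      rw [mul_comm]
    · intro i j
      rw [Matrix.mul_apply, Fin.sum_univ_succ]
      simp only [p_blkmul_0s, p_blkmul_s0, p_blkmul_ss, Matrix.add_apply, Matrix.vecMulVec_apply,
        Matrix.mul_apply]
  · apply p_blkmul_ext
    · rfl
    · intro j; rfl
    · intro i; rfl
    · intro i j; rfl
  · apply p_blkmul_ext
    · rfl
    · intro j; rfl
    · intro i; rfl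
    · intro i j; rfl
  · apply p_blkmul_ext
    · simp [p_blkmul_00]
    · intro j
      rw [p_blkmul_0s, Matrix.one_apply_ne (Fin.succ_ne_zero j).symm]; rfl
    · intro i
      rw [p_blkmul_s0, Matrix.one_apply_ne (Fin.succ_ne_zero i)]; rfl
    · intro i j
      rw [p_blkmul_ss]
      simp [Matrix.one_apply]
  · intro t
    apply p_blkmul_ext
    · rfl
    · intro j; rfl
    · intro i; rfl
    · intro i j; rfl
  · intro h
    refine ⟨?_, ?_, ?_, ?_⟩
    · exact congrFun (congrFun h 0) 0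
    · ext j
      exact congrFun (congrFun h 0) j.succ
    · ext i
      exact congrFun (congrFun h i.succ) 0
    · ext i j
      exact congrFun (congrFun h i.succ) j.succ
  · intro A
    refine ⟨A 0 0, fun j => A 0 j.succ, fun i => A i.succ 0, Matrix.of fun i j => A i.succ j.succ, ?_⟩
    apply p_blkmul_ext
    · rfl
    · intro j; rfl
    · intro i; rfl
    · intro i j; rfl

end Pool.Agent.Lib.MP_ef6aaf_al
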