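import Pool.Agent.Lib.MP_ef6aaf_al.StmA

/-!
# Piece [exmu]: existence of the Haar probability measure
-/

open MeasureTheory Metric
open scoped Matrix.Norms.L2Operator

namespace Pool.Agent.Lib.MP_ef6aaf_al

theorem p_exmu : S_exmu := by
  intro n p h
  let _ : MeasurableSpace (U n) := borel (U n)
  have : BorelSpace (U n) := ⟨rfl⟩
  let K : TopologicalSpace.PositiveCompacts (U n) := ⊤
  have h1 : Measure.haarMeasure K Set.univ = 1 := Measure.haarMeasure_self
  have : IsProbabilityMeasure (Measure.haarMeasure K) := ⟨h1⟩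
  exact h (Measure.haarMeasure K)

end Pool.Agent.Lib.MP_ef6aaf_al
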