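import Pool.Agent.Lib.MP_ef6aaf_al.StmC

/-!
# The Hermitian commutant of an irreducible pair is one-dimensional
-/

open MeasureTheory Metric Matrix
open scoped Matrix.Norms.L2Operator

namespace Pool.Agent.Lib.MP_ef6aaf_al

private theorem p_irrz_cj_coe {n : ℕ} (g : U n) (a : Hn n) :
    ((cj g a : Hn n) : Mn n) = (g : Mn n) * (a : Mn n) * star (g : Mn n) := rfl

private theorem p_irrz_cj_one {n : ℕ} (a : Hn n) : cj (1 : U n) a = a := by
  apply Subtype.ext
  rw [p_irrz_cj_coe]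
  simp

private theorem p_irrz_cj_mul {n : ℕ} (g h : U n) (a : Hn n) : cj (g * h) a = cj g (cj h a) := by
  apply Subtype.ext
  rw [p_irrz_cj_coe, p_irrz_cj_coe, p_irrz_cj_coe]
  simp [mul_assoc]

private theorem p_irrz_all {n : ℕ} (f : Fin 2 → U n) (a : Hn n) (ha : ∀ i, cj (f i) a = a)
    (g : FreeGroup (Fin 2)) : cj (FreeGroup.lift f g) a = a := by
  have hinv : ∀ u : U n, cj u a = a → cj u⁻¹ a = a := by
    intro u hu
    conv_lhs => rw [← hu]
    rw [← p_irrz_cj_mul, inv_mul_cancel, p_irrz_cj_one]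
  induction g using FreeGroup.induction_on with
  | C1 => rw [map_one, p_irrz_cj_one]
  | of i => rw [FreeGroup.lift_apply_of]; exact ha i
  | inv_of i _ => rw [map_inv]; exact hinv _ (by rw [FreeGroup.lift_apply_of]; exact ha i)
  | mul x y hx hy => rw [map_mul, p_irrz_cj_mul, hy, hx]

private theorem p_irrz_comm {n : ℕ} (g : U n) (a : Hn n) (h : cj g a = a) :
    (g : Mn n) * (a : Mn n) = (a : Mn n) * (g : Mn n) := by
  have e : (g : Mn n) * (a : Mn n) * star (g : Mn n) = (a : Mn n) := by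
    rw [← p_irrz_cj_coe, h]
  have e2 : star (g : Mn n) * (g : Mn n) = 1 := Unitary.star_mul_self_of_mem g.2
  calc (g : Mn n) * (a : Mn n) = (g : Mn n) * (a : Mn n) * (star (g : Mn n) * (g : Mn n)) := by
        rw [e2, mul_one]
    _ = ((g : Mn n) * (a : Mn n) * star (g : Mn n)) * (g : Mn n) := by
        simp only [mul_assoc]
    _ = (a : Mn n) * (g : Mn n) := by rw [e]

private theorem p_irrz_scalar {n : ℕ} (hn : 1 ≤ n) (f : Fin 2 → U n)
    (hirr : IsIrr (FreeGroup.lift f : FreeGroup (Fin 2) →* U n)) (a : Hn n)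
    (ha : ∀ i, cj (f i) a = a) : ∃ c : ℂ, (a : Mn n) = c • (1 : Mn n) := by
  have : Nonempty (Fin n) := ⟨⟨0, hn⟩⟩
  obtain ⟨c, hc⟩ := Module.End.exists_eigenvalue (Matrix.mulVecLin (a : Mn n))
  refine ⟨c, ?_⟩
  rcases hirr (Module.End.eigenspace (Matrix.mulVecLin (a : Mn n)) c) (by
    intro h x hx
    rw [Module.End.mem_eigenspace_iff] at hx ⊢
    rw [Matrix.mulVecLin_apply] at hx ⊢
    have e := p_irrz_comm _ a (p_irrz_all f a ha h)
    rw [Matrix.mulVec_mulVec, ← e, ← Matrix.mulVec_mulVec, hx, Matrix.mulVec_smul]) with h | h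
  · exact absurd h hc
  · have hx : ∀ x : Fin n → ℂ, (a : Mn n).mulVec x = (c • (1 : Mn n)).mulVec x := by
      intro x
      have hx : x ∈ Module.End.eigenspace (Matrix.mulVecLin (a : Mn n)) c := by
        rw [h]; exact Submodule.mem_top
      rw [Module.End.mem_eigenspace_iff, Matrix.mulVecLin_apply] at hx
      rw [hx, Matrix.smul_mulVec, Matrix.one_mulVec]
    exact Matrix.ext_of_mulVec_single fun i => hx _

theorem p_irrz : S_irrz := by
  intro n f hn hirr
  have hn0 : Nonempty (Fin n) := ⟨⟨0, hn⟩⟩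
  have h1mem : (1 : Hn n) ∈ Z0 f := by
    intro i
    apply Subtype.ext
    rw [p_irrz_cj_coe]
    simp
  have hne : (⟨1, h1mem⟩ : Z0 f) ≠ 0 := by
    intro h
    have h1 : (1 : Hn n) = 0 := congrArg Subtype.val h
    have h2 : (1 : Mn n) = 0 := congrArg Subtype.val h1
    exact one_ne_zero h2
  rw [finrank_eq_one_iff_of_nonzero' _ hne]
  rintro ⟨a, ha⟩
  obtain ⟨c, hc⟩ := p_irrz_scalar hn f hirr a ha
  have hreal : (c.re : ℂ) = c := by
    have hs : star (a : Mn n) = (a : Mn n) := a.2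
    rw [hc, star_smul, star_one] at hs
    have := congrFun (congrFun hs ⟨0, hn⟩) ⟨0, hn⟩
    simp at this
    exact Complex.conj_eq_iff_re.1 this
  refine ⟨c.re, ?_⟩
  apply Subtype.ext
  apply Subtype.ext
  change ((c.re • (1 : Hn n) : Hn n) : Mn n) = (a : Mn n)
  rw [hc, selfAdjoint.val_smul, selfAdjoint.val_one]
  conv_rhs => rw [← hreal]
  simp

end Pool.Agent.Lib.MP_ef6aaf_al
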