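import Pool.Agent.Lib.MP_ef6aaf_al.StmB

open MeasureTheory Metric Matrix
open scoped Matrix.Norms.L2Operator

namespace Pool.Agent.Lib.MP_ef6aaf_al

theorem p_m1 (h_irr : S_irr) (h_red : S_red) (h_expo : S_expo) (h_b1 : S_b1) (h_fin : S_fin) : S_m1 := by
  intro w N hN hH
  refine ⟨?_, ?_⟩
  · intro k hk ρ hfix b hb
    by_contra hnc
    have horth : Orth ρ b := by
      intro v hv g
      rw [hfix v hv]
      simp
    obtain ⟨m, ρ', b', hm1, hmk, -, hirr, hfix', hb', hnc'⟩ := h_red (G w) k ρ b hb horth hnc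
    exact hnc' (h_irr m w hm1 (hH (m + 1) (by omega) (by omega)) ρ' hirr hfix' b' hb')
  · intro H hH0 hHN
    have hexp : ¬ (e0 w = 0 ∧ e1 w = 0) := h_expo 2 w (by norm_num) (hH 2 le_rfl (by omega))
    refine h_fin (G w) (h_b1 w hexp) H hH0 ?_
    intro ρ b hv hb horth
    by_contra hnc
    obtain ⟨m, ρ', b', hm1, -, hmk, hirr, hfix', hb', hnc'⟩ := h_red (G w) H.index ρ b hb horth hnc
    have := hmk hv
    exact hnc' (h_irr m w hm1 (hH (m + 1) (by omega) (by omega)) ρ' hirr hfix' b' hb')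

end Pool.Agent.Lib.MP_ef6aaf_al
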